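import Pool.Agent.TorusL4.Trunc

/-! The final theorems: `L^4` bound for eigenfunctions of the torus, bound for the low
frequencies of `|u|^2`, and the trace inequality. -/

namespace Pool.Agent.TorusL4

open MeasureTheory

/-- `u` is an eigenfunction of `-Δ` on `T^3 = (ℝ/2πℤ)^3` with eigenvalue `n` (or zero): a
trigonometric polynomial all of whose frequencies `k` satisfy `|k|^2 = n`. -/
def IsEigen (n : ℕ) (u : (Fin 3 → ℝ) → ℂ) : Prop :=
  ∃ (s : Finset (Fin 3 → ℤ)) (c : (Fin 3 → ℤ) → ℂ), (∀ k ∈ s, ∑ i, k i ^ 2 = (n : ℤ)) ∧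
    ∀ x, u x = ∑ k ∈ s, c k * ex k x

/-- The Fourier coefficient of a function on the torus. -/
noncomputable def fc (f : (Fin 3 → ℝ) → ℂ) (h : Fin 3 → ℤ) : ℂ :=
  (1 / (2 * Real.pi) ^ 3 : ℝ) * ∫ x in cube, f x * ex (-h) x

/-- The constant. -/
noncomputable def K0 : ℝ := 64 * (512 ^ 3 * 16 * 100)

theorem K0_pos : 0 < K0 := by unfold K0; norm_num

theorem two_pi_cube : (1 : ℝ) ≤ (2 * Real.pi) ^ 3 := by
  have := Real.pi_gt_three
  exact one_le_pow₀ (by linarith)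

theorem Lam_compare {n q q' : ℝ} (hn : 1 ≤ n) (hq : 0 < q) (hq' : 0 < q')
    (h : q' ≤ 48 * q) : Lam n q' ≤ 5 * Lam n q := by
  unfold Lam
  have hln := Real.log_nonneg hn
  have hn0 : 0 < n := by linarith
  have h48 : Real.log 48 < 4 := by
    have h1 : Real.log 48 < Real.log (2 ^ 5 * 1.5 + 1) := Real.log_lt_log (by norm_num) (by norm_num)
    have h2 : Real.log 48 = 4 * Real.log 2 + Real.log 3 := by
      rw [show (48 : ℝ) = 2 ^ 4 * 3 by norm_num, Real.log_mul (by norm_num) (by norm_num),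
        Real.log_pow]; push_cast; ring
    have h3 : Real.log 3 < 1.2 := by
      have h4 : Real.log 3 = Real.log 2 + Real.log (3 / 2) := by
        rw [← Real.log_mul (by norm_num) (by norm_num)]; norm_num
      have h5 : Real.log (3 / 2) ≤ 3 / 2 - 1 := Real.log_le_sub_one_of_pos (by norm_num)
      have := Real.log_two_lt_d9
      linarith
    have := Real.log_two_lt_d9
    linarith
  have h1 : Real.log (n / q) ≤ Real.log (n / q') + 4 := by
    have h2 : Real.log q' ≤ Real.log (48 * q) := Real.log_le_log hq' h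
    rw [Real.log_mul (by norm_num) hq.ne'] at h2
    rw [Real.log_div hn0.ne' hq.ne', Real.log_div hn0.ne' hq'.ne']
    linarith
  have h2 : max 0 (Real.log (n / q)) ≤ max 0 (Real.log (n / q')) + 4 := by
    apply max_le
    · have : 0 ≤ max 0 (Real.log (n / q')) := le_max_left _ _
      linarith
    · have : Real.log (n / q') ≤ max 0 (Real.log (n / q')) := le_max_right _ _
      linarith
  have h3 : 0 ≤ max 0 (Real.log (n / q')) := le_max_left _ _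
  have h4 : 0 ≤ max 0 (Real.log (n / q)) := le_max_left _ _
  rw [← mul_div_assoc, div_le_div_iff₀ (by linarith) (by linarith)]
  nlinarith

theorem Lam_full {n : ℝ} (hn : 1 ≤ n) : Lam n (4 * n) = 1 + Real.log n := by
  unfold Lam
  have hn0 : 0 < n := by linarith
  have h1 : Real.log (n / (4 * n)) ≤ 0 := by
    apply Real.log_nonpos (by positivity)
    rw [div_le_one (by positivity)]
    linarith
  rw [max_eq_left h1]
  simp

/-- Low frequencies, in terms of correlations. -/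
theorem low_freq (n : ℕ) (hn : 0 < n) (s : Finset (Fin 3 → ℤ)) (c : (Fin 3 → ℤ) → ℂ)
    (hs : ∀ x ∈ s, ∑ i, x i ^ 2 = (n : ℤ)) (R : ℝ) (hR : 1 ≤ R) (F : Finset (Fin 3 → ℤ))
    (hF : ∀ h ∈ F, ((∑ i, h i ^ 2 : ℤ) : ℝ) ≤ R ^ 2) :
    ∑ D ∈ F, ‖GG s c D‖ ^ 2 ≤ K0 * Lam n (R ^ 2) * (∑ k ∈ s, ‖c k‖ ^ 2) ^ 2 := by
  have hn1 : (1 : ℝ) ≤ n := by exact_mod_cast hn
  set M := ⌈R⌉₊ with hM
  have hMR : R ≤ M := Nat.le_ceil R
  have hM2 : (M : ℝ) < R + 1 := Nat.ceil_lt_add_one (by linarith)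
  have hM0 : 0 < M := Nat.ceil_pos.mpr (by linarith)
  have hM1 : (1 : ℝ) ≤ M := by exact_mod_cast hM0
  have h1 := trunc n hn s c hs M hM0 F (by
    intro D hD i
    have h2 := hF D hD
    have h3 : ((D i ^ 2 : ℤ) : ℝ) ≤ ((∑ i, D i ^ 2 : ℤ) : ℝ) := by
      have : D i ^ 2 ≤ ∑ i, D i ^ 2 :=
        Finset.single_le_sum (f := fun i => D i ^ 2) (fun _ _ => sq_nonneg _) (Finset.mem_univ i)
      exact_mod_cast this
    have h4 : ((D i : ℝ)) ^ 2 ≤ R ^ 2 := by push_cast at h3 h2 ⊢; linarith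
    have h5 : |(D i : ℝ)| ≤ R := abs_le_of_sq_le_sq h4 (by linarith)
    have h6 : ((|D i| : ℤ) : ℝ) ≤ (M : ℝ) := by push_cast; linarith
    exact_mod_cast h6)
  refine le_trans h1 ?_
  refine mul_le_mul_of_nonneg_right ?_ (sq_nonneg _)
  have h2 : BB n (12 * M ^ 2) ≤ 20 * Lam n (12 * M ^ 2) := BB_le hn1 (by nlinarith)
  have h3 : Lam n (12 * M ^ 2) ≤ 5 * Lam n (R ^ 2) :=
    Lam_compare hn1 (by positivity) (by positivity) (by nlinarith)
  unfold K0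
  nlinarith

/-- The `L^4` bound in a cap. -/
theorem L4_final (n : ℕ) (hn : 0 < n) (s : Finset (Fin 3 → ℤ)) (c : (Fin 3 → ℤ) → ℂ)
    (hs : ∀ x ∈ s, ∑ i, x i ^ 2 = (n : ℤ)) (q : ℝ) (hq : 1 ≤ q)
    (hcap : ∀ x ∈ s, ∀ y ∈ s, ((∑ i, (x i - y i) ^ 2 : ℤ) : ℝ) ≤ q) :
    ∫ x in cube, ‖∑ k ∈ s, c k * ex k x‖ ^ 4 ≤
      K0 * Lam n q * (∫ x in cube, ‖∑ k ∈ s, c k * ex k x‖ ^ 2) ^ 2 := by
  have hn1 : (1 : ℝ) ≤ n := by exact_mod_cast hn
  have h1 := L4_cap n hn s c hs q (by linarith) hcap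
  have h2 := BB_le hn1 hq
  have hL := Lam_nonneg hn1 q
  rw [int_L2]
  refine le_trans h1 ?_
  have h3 := two_pi_cube
  have hw : 0 ≤ (∑ k ∈ s, ‖c k‖ ^ 2) ^ 2 := sq_nonneg _
  have h4 : 512 ^ 3 * 16 * BB n q ≤ K0 * Lam n q := by
    unfold K0; nlinarith
  have h5 : (0 : ℝ) ≤ K0 * Lam n q := mul_nonneg K0_pos.le hL
  calc (2 * Real.pi) ^ 3 * (512 ^ 3 * 16 * BB n q * (∑ k ∈ s, ‖c k‖ ^ 2) ^ 2)
      ≤ (2 * Real.pi) ^ 3 * (K0 * Lam n q * (∑ k ∈ s, ‖c k‖ ^ 2) ^ 2) := by gcongr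
    _ ≤ (2 * Real.pi) ^ 3 * (2 * Real.pi) ^ 3 *
        (K0 * Lam n q * (∑ k ∈ s, ‖c k‖ ^ 2) ^ 2) := by
        refine mul_le_mul_of_nonneg_right ?_ (by positivity)
        nlinarith
    _ = _ := by ring

theorem dist_le (n : ℕ) (x y : Fin 3 → ℤ) (hx : ∑ i, x i ^ 2 = (n : ℤ))
    (hy : ∑ i, y i ^ 2 = (n : ℤ)) : ((∑ i, (x i - y i) ^ 2 : ℤ) : ℝ) ≤ 4 * n := by
  have : ∑ i, (x i - y i) ^ 2 ≤ 4 * (n : ℤ) := by
    rw [Fin.sum_univ_three] at *
    nlinarith [sq_nonneg (x 0 + y 0), sq_nonneg (x 1 + y 1), sq_nonneg (x 2 + y 2)]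
  exact_mod_cast this

/-- The Fourier coefficients of `|u|^2`. -/
theorem fc_sq (s : Finset (Fin 3 → ℤ)) (c : (Fin 3 → ℤ) → ℂ) (h : Fin 3 → ℤ) :
    fc (fun x => ((‖∑ k ∈ s, c k * ex k x‖ ^ 2 : ℝ) : ℂ)) h = GG s c h := by
  classical
  set T := insert h ((s ×ˢ s).image (fun p => p.1 - p.2)) with hT
  have hT' : ∀ k ∈ s, ∀ l ∈ s, k - l ∈ T := fun k hk l hl =>
    Finset.mem_insert_of_mem
      (Finset.mem_image.mpr ⟨(k, l), Finset.mem_product.mpr ⟨hk, hl⟩, rfl⟩)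
  unfold fc
  simp_rw [sq_eq_sum s T c hT', Finset.sum_mul]
  have h1 : ∀ D ∈ T, Integrable (fun x => GG s c D * ex D x * ex (-h) x)
      (volume.restrict cube) := fun D _ =>
    cont_int ((continuous_const.mul (ex_cont D)).mul (ex_cont (-h)))
  rw [integral_finsetSum _ h1]
  have h2 : ∀ D, ∫ x in cube, GG s c D * ex D x * ex (-h) x =
      if D = h then GG s c D * (((2 * Real.pi) ^ 3 : ℝ) : ℂ) else 0 := by
    intro D
    have : ∀ x, GG s c D * ex D x * ex (-h) x = GG s c D * ex (D - h) x := by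
      intro x; rw [sub_eq_add_neg, ex_add]; ring
    simp_rw [this]
    rw [integral_const_mul, int_ex]
    simp only [sub_eq_zero]
    split_ifs <;> ring
  rw [Finset.sum_congr rfl (fun D _ => h2 D), Finset.sum_ite_eq', if_pos (Finset.mem_insert_self _ _)]
  have h3 : (((2 * Real.pi) ^ 3 : ℝ) : ℂ) ≠ 0 := by
    have := two_pi_cube
    have : ((2 * Real.pi) ^ 3 : ℝ) ≠ 0 := by positivity
    exact_mod_cast this
  rw [Complex.ofReal_div]
  field_simp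
  simp

end Pool.Agent.TorusL4
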