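import Mathlib

/-! Integer quaternions: content, norm, logarithm of the odd part of the norm of the primitive
quaternion in a given direction. -/

namespace Pool.Agent.TorusL4

open Quaternion

noncomputable instance instDecEqQuat : DecidableEq ℍ[ℤ] := Classical.decEq _

/-- The content (greatest common divisor of the coordinates) of an integer quaternion. -/
def ct (z : ℍ[ℤ]) : ℕ :=
  Nat.gcd (Nat.gcd z.re.natAbs z.imI.natAbs) (Nat.gcd z.imJ.natAbs z.imK.natAbs)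

/-- The logarithm of the odd part of a natural number. -/
noncomputable def lodd (m : ℕ) : ℝ := Real.log m - (padicValNat 2 m : ℝ) * Real.log 2

/-- The norm (sum of the squares of the coordinates) as a natural number. -/
def nq (z : ℍ[ℤ]) : ℕ := (normSq z).natAbs

/-- The logarithm of the odd part of the norm of the primitive quaternion on the line of `z`. -/
noncomputable def ell (z : ℍ[ℤ]) : ℝ := lodd (nq z) - 2 * lodd (ct z)

theorem dvd_ct_iff (d : ℕ) (z : ℍ[ℤ]) :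
    d ∣ ct z ↔ (d : ℤ) ∣ z.re ∧ (d : ℤ) ∣ z.imI ∧ (d : ℤ) ∣ z.imJ ∧ (d : ℤ) ∣ z.imK := by
  unfold ct
  rw [Nat.dvd_gcd_iff, Nat.dvd_gcd_iff, Nat.dvd_gcd_iff, Int.natCast_dvd, Int.natCast_dvd,
    Int.natCast_dvd, Int.natCast_dvd]
  tauto

theorem ct_zero : ct 0 = 0 := by simp [ct]

theorem ct_eq_zero {z : ℍ[ℤ]} : ct z = 0 ↔ z = 0 := by
  constructor
  · intro h
    unfold ct at h
    rw [Nat.gcd_eq_zero_iff, Nat.gcd_eq_zero_iff, Nat.gcd_eq_zero_iff] at h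
    obtain ⟨⟨h1, h2⟩, h3, h4⟩ := h
    ext <;> simp_all
  · rintro rfl; exact ct_zero

theorem ct_pos {z : ℍ[ℤ]} (h : z ≠ 0) : 0 < ct z :=
  Nat.pos_of_ne_zero (fun h' => h (ct_eq_zero.mp h'))

theorem ct_smul (k : ℤ) (z : ℍ[ℤ]) : ct (k • z) = k.natAbs * ct z := by
  unfold ct
  simp only [re_smul, imI_smul, imJ_smul, imK_smul, smul_eq_mul, Int.natAbs_mul,
    Nat.gcd_mul_left]

theorem nq_cast (z : ℍ[ℤ]) : (nq z : ℤ) = normSq z := by
  unfold nq
  rw [Int.natCast_natAbs, abs_of_nonneg normSq_nonneg]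

theorem nq_def' (z : ℍ[ℤ]) :
    (nq z : ℤ) = z.re ^ 2 + z.imI ^ 2 + z.imJ ^ 2 + z.imK ^ 2 := by
  rw [nq_cast, normSq_def']

theorem nq_eq_zero {z : ℍ[ℤ]} : nq z = 0 ↔ z = 0 := by
  rw [← normSq_eq_zero, ← nq_cast]; norm_cast

theorem nq_pos {z : ℍ[ℤ]} (h : z ≠ 0) : 0 < nq z :=
  Nat.pos_of_ne_zero (fun h' => h (nq_eq_zero.mp h'))

theorem nq_mul (z w : ℍ[ℤ]) : nq (z * w) = nq z * nq w := by
  have : (nq (z * w) : ℤ) = nq z * nq w := by
    rw [nq_cast, nq_cast, nq_cast, map_mul]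
  exact_mod_cast this

theorem nq_star (z : ℍ[ℤ]) : nq (star z) = nq z := by
  unfold nq; rw [normSq_star]

theorem nq_neg (z : ℍ[ℤ]) : nq (-z) = nq z := by
  unfold nq; rw [normSq_neg]

theorem nq_smul (k : ℤ) (z : ℍ[ℤ]) : nq (k • z) = k.natAbs ^ 2 * nq z := by
  unfold nq; rw [normSq_smul, Int.natAbs_mul, Int.natAbs_pow]

theorem ct_neg (z : ℍ[ℤ]) : ct (-z) = ct z := by
  unfold ct; simp

theorem ct_star (z : ℍ[ℤ]) : ct (star z) = ct z := by
  unfold ct; simp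

theorem lodd_zero : lodd 0 = 0 := by simp [lodd]

theorem lodd_one : lodd 1 = 0 := by simp [lodd]

theorem lodd_mul {a b : ℕ} (ha : a ≠ 0) (hb : b ≠ 0) : lodd (a * b) = lodd a + lodd b := by
  unfold lodd
  have : Fact (Nat.Prime 2) := ⟨Nat.prime_two⟩
  rw [padicValNat.mul ha hb, Nat.cast_mul, Real.log_mul (by exact_mod_cast ha)
    (by exact_mod_cast hb)]
  push_cast
  ring

theorem lodd_sq {a : ℕ} (ha : a ≠ 0) : lodd (a ^ 2) = 2 * lodd a := by
  rw [pow_two, lodd_mul ha ha]; ring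

theorem lodd_nonneg (m : ℕ) : 0 ≤ lodd m := by
  rcases Nat.eq_zero_or_pos m with rfl | hm
  · rw [lodd_zero]
  · unfold lodd
    have h1 : 2 ^ padicValNat 2 m ∣ m := pow_padicValNat_dvd
    have h2 : 2 ^ padicValNat 2 m ≤ m := Nat.le_of_dvd hm h1
    have h3 : Real.log ((2 : ℝ) ^ padicValNat 2 m) ≤ Real.log m := by
      apply Real.log_le_log (by positivity)
      exact_mod_cast h2
    rw [Real.log_pow] at h3
    linarith

theorem lodd_le_log (m : ℕ) : lodd m ≤ Real.log m := by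
  unfold lodd
  have := Real.log_nonneg (by norm_num : (1 : ℝ) ≤ 2)
  nlinarith [this, (Nat.cast_nonneg (padicValNat 2 m) : (0 : ℝ) ≤ _)]

theorem lodd_le_of_dvd {a b : ℕ} (h : a ∣ b) (hb : b ≠ 0) : lodd a ≤ lodd b := by
  obtain ⟨c, rfl⟩ := h
  have ha : a ≠ 0 := by rintro rfl; simp at hb
  have hc : c ≠ 0 := by rintro rfl; simp at hb
  rw [lodd_mul ha hc]
  linarith [lodd_nonneg c]

theorem ell_smul {k : ℤ} (hk : k ≠ 0) {z : ℍ[ℤ]} (hz : z ≠ 0) : ell (k • z) = ell z := by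
  unfold ell
  have hk' : k.natAbs ≠ 0 := by simpa using hk
  rw [nq_smul, ct_smul, lodd_mul (pow_ne_zero 2 hk') (nq_pos hz).ne',
    lodd_mul hk' (ct_pos hz).ne', lodd_sq hk']
  ring

theorem ell_neg (z : ℍ[ℤ]) : ell (-z) = ell z := by
  unfold ell; rw [nq_neg, ct_neg]

theorem ell_star (z : ℍ[ℤ]) : ell (star z) = ell z := by
  unfold ell; rw [nq_star, ct_star]

theorem ell_prop {r s : ℤ} {x y : ℍ[ℤ]} (hr : r ≠ 0) (hx : x ≠ 0) (hy : y ≠ 0)
    (h : r • x = s • y) : ell x = ell y := by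
  have hs : s ≠ 0 := by
    rintro rfl
    rw [zero_smul] at h
    rcases smul_eq_zero.mp h with h | h
    · exact hr h
    · exact hx h
  rw [← ell_smul hr hx, h, ell_smul hs hy]

theorem ell_nonneg (z : ℍ[ℤ]) : 0 ≤ ell z := by
  rcases eq_or_ne z 0 with rfl | hz
  · unfold ell; rw [ct_zero]; simp [nq, lodd_zero]
  · unfold ell
    have h1 : ct z ^ 2 ∣ nq z := by
      obtain ⟨h1, h2, h3, h4⟩ := (dvd_ct_iff (ct z) z).mp dvd_rfl
      have : ((ct z : ℤ)) ^ 2 ∣ (nq z : ℤ) := by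
        rw [nq_def']
        exact dvd_add (dvd_add (dvd_add (pow_dvd_pow_of_dvd h1 2) (pow_dvd_pow_of_dvd h2 2))
          (pow_dvd_pow_of_dvd h3 2)) (pow_dvd_pow_of_dvd h4 2)
      exact_mod_cast this
    have h2 := lodd_le_of_dvd h1 (nq_pos hz).ne'
    rw [lodd_sq (ct_pos hz).ne'] at h2
    linarith

theorem ell_le (z : ℍ[ℤ]) : ell z ≤ Real.log (nq z) := by
  unfold ell
  linarith [lodd_nonneg (ct z), lodd_le_log (nq z)]

/-- Every nonzero quaternion is a positive multiple of a primitive one. -/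
theorem exists_prim {z : ℍ[ℤ]} (hz : z ≠ 0) :
    ∃ p : ℍ[ℤ], ct p = 1 ∧ z = (ct z : ℤ) • p := by
  obtain ⟨⟨a, ha⟩, ⟨b, hb⟩, ⟨c, hc⟩, ⟨d, hd⟩⟩ := (dvd_ct_iff (ct z) z).mp dvd_rfl
  obtain ⟨p, h1, h2, h3, h4⟩ : ∃ p : ℍ[ℤ], p.re = a ∧ p.imI = b ∧ p.imJ = c ∧ p.imK = d :=
    ⟨⟨a, b, c, d⟩, rfl, rfl, rfl, rfl⟩
  have hz' : z = (ct z : ℤ) • p := by
    ext
    · rw [re_smul, h1, smul_eq_mul]; exact ha
    · rw [imI_smul, h2, smul_eq_mul]; exact hb
    · rw [imJ_smul, h3, smul_eq_mul]; exact hc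
    · rw [imK_smul, h4, smul_eq_mul]; exact hd
  refine ⟨p, ?_, hz'⟩
  have h := congrArg ct hz'
  rw [ct_smul] at h
  have hc := ct_pos hz
  simp only [Int.natAbs_natCast] at h
  have : ct z * 1 = ct z * ct p := by rw [mul_one]; exact h
  exact (Nat.eq_of_mul_eq_mul_left hc this).symm

theorem ell_mul_star {p q : ℍ[ℤ]} (hp : p ≠ 0) (hq : q ≠ 0) :
    ell (p * star q) = lodd (nq p) + lodd (nq q) - 2 * lodd (ct (p * star q)) := by
  unfold ell
  rw [nq_mul, nq_star, lodd_mul (nq_pos hp).ne' (nq_pos hq).ne']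

end Pool.Agent.TorusL4
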