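import Pool.Agent.TorusL4.Energy

/-! Removing powers of four. -/

namespace Pool.Agent.TorusL4

open Quaternion

theorem even_of_four_dvd {x : ℍ[ℤ]} (hx : x.re = 0) (h : (4 : ℤ) ∣ normSq x) :
    ∃ y : ℍ[ℤ], y.re = 0 ∧ x = (2 : ℤ) • y := by
  rw [normSq_def', hx] at h
  have hpar : ∀ x : ℤ, (2 : ℤ) ∣ x ∧ (4 : ℤ) ∣ x ^ 2 ∨ x ^ 2 % 4 = 1 := by
    intro x
    rcases Int.even_or_odd' x with ⟨k, hk | hk⟩
    · left; exact ⟨⟨k, hk⟩, ⟨k * k, by rw [hk]; ring⟩⟩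
    · right
      have : x ^ 2 = 4 * (k * k + k) + 1 := by rw [hk]; ring
      omega
  have q2 := hpar x.imI
  have q3 := hpar x.imJ
  have q4 := hpar x.imK
  generalize x.imI ^ 2 = B at *
  generalize x.imJ ^ 2 = C at *
  generalize x.imK ^ 2 = E at *
  have h3 : (2 : ℤ) ∣ x.imI ∧ (2 : ℤ) ∣ x.imJ ∧ (2 : ℤ) ∣ x.imK := by
    refine ⟨?_, ?_, ?_⟩ <;> omega
  obtain ⟨⟨b, hb⟩, ⟨c, hc⟩, ⟨d, hd⟩⟩ := h3
  obtain ⟨p, h1, h2, h3, h4⟩ : ∃ p : ℍ[ℤ], p.re = 0 ∧ p.imI = b ∧ p.imJ = c ∧ p.imK = d :=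
    ⟨⟨0, b, c, d⟩, rfl, rfl, rfl, rfl⟩
  refine ⟨p, h1, ?_⟩
  ext
  · rw [re_smul, hx, h1]; rfl
  · rw [imI_smul, h2, smul_eq_mul]; exact hb
  · rw [imJ_smul, h3, smul_eq_mul]; exact hc
  · rw [imK_smul, h4, smul_eq_mul]; exact hd

theorem pow_of_four_pow_dvd (k : ℕ) : ∀ {x : ℍ[ℤ]} (m : ℤ), x.re = 0 →
    normSq x = 4 ^ k * m → ∃ y : ℍ[ℤ], y.re = 0 ∧ x = (2 ^ k : ℤ) • y := by
  induction k with
  | zero => intro x m hx _; exact ⟨x, hx, by simp⟩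
  | succ k ih =>
    intro x m hx h
    obtain ⟨y, hy, rfl⟩ := even_of_four_dvd hx (by rw [h, pow_succ]; exact ⟨4 ^ k * m, by ring⟩)
    rw [normSq_smul] at h
    obtain ⟨z, hz, rfl⟩ := ih (x := y) m hy (by
      have : (4 : ℤ) * normSq y = 4 * (4 ^ k * m) := by
        linear_combination h
      exact mul_left_cancel₀ (by norm_num) this)
    exact ⟨z, hz, by rw [smul_smul]; congr 1; ring⟩

theorem BB_scale {n q c : ℝ} (hn : 1 ≤ n) (hc : 1 ≤ c) :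
    BB n (q / c) ≤ BB (c * n) q := by
  unfold BB
  have h1 : Gam n (q / c) = Gam (c * n) q := by
    unfold Gam
    congr 3
    field_simp
  rw [h1]
  have h2 : Real.log (4 * n) ≤ Real.log (4 * (c * n)) := by
    apply Real.log_le_log (by linarith)
    nlinarith
  have h3 := Gam_pos (c * n) q
  gcongr

theorem core_scaled (k : ℕ) (m : ℤ) (hm : 0 < m) (hm4 : ¬ (4 : ℤ) ∣ m) (S : Finset ℍ[ℤ])
    (a : ℍ[ℤ] → ℝ) (hS0 : ∀ x ∈ S, x.re = 0) (hSn : ∀ x ∈ S, normSq x = 4 ^ k * m)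
    (ha : ∀ x, 0 ≤ a x) (haS : ∀ x, x ∉ S → a x = 0) (hneg : ∀ x, a (-x) = a x)
    (hcl : ∀ x y, a x ≠ 0 → a y ≠ 0 → (∃ w : ℍ[ℤ], x - y = (8 * 2 ^ k : ℤ) • w) ∨
      (∃ w : ℍ[ℤ], x + y = (8 * 2 ^ k : ℤ) • w)) (q : ℝ) (hq : 0 < q)
    (hcap : ∀ x y, a x ≠ 0 → a y ≠ 0 → (nq (x - y) : ℝ) ≤ q ∨ (nq (x + y) : ℝ) ≤ q) :
    EE S a ≤ BB (4 ^ k * m) q * (∑ x ∈ S, a x ^ 2) ^ 2 := by
  have h2k : (2 ^ k : ℤ) ≠ 0 := by positivity
  have hinj : Function.Injective (fun x : ℍ[ℤ] => (2 ^ k : ℤ) • x) :=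
    fun x y h => smul_right_injective _ h2k h
  set S' := S.preimage (fun x : ℍ[ℤ] => (2 ^ k : ℤ) • x) (hinj.injOn) with hS'
  have hmem : ∀ x, x ∈ S' ↔ (2 ^ k : ℤ) • x ∈ S := fun x => Finset.mem_preimage
  have hsum : ∀ f : ℍ[ℤ] → ℝ, ∑ x ∈ S, f x = ∑ x ∈ S', f ((2 ^ k : ℤ) • x) := by
    intro f
    rw [hS', Finset.sum_preimage (fun x : ℍ[ℤ] => (2 ^ k : ℤ) • x) S hinj.injOn f]
    intro x hx hx'
    obtain ⟨y, _, rfl⟩ := pow_of_four_pow_dvd k m (hS0 x hx) (hSn x hx)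
    exact absurd ⟨y, rfl⟩ hx'
  have e1 : EE S a = EE S' (fun x => a ((2 ^ k : ℤ) • x)) := by
    unfold EE
    rw [hsum]
    refine Finset.sum_congr rfl fun x _ => ?_
    rw [hsum]
    refine Finset.sum_congr rfl fun y _ => ?_
    rw [hsum]
    refine Finset.sum_congr rfl fun z _ => ?_
    show _ = a ((2 ^ k : ℤ) • x) * a ((2 ^ k : ℤ) • y) * a ((2 ^ k : ℤ) • z) *
      a ((2 ^ k : ℤ) • (x + y + z))
    rw [smul_add, smul_add]
  have hnq : ∀ x : ℍ[ℤ], (nq ((2 ^ k : ℤ) • x) : ℝ) = 4 ^ k * nq x := by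
    intro x
    rw [nq_smul, Int.natAbs_pow]
    push_cast
    rw [← pow_mul, mul_comm k 2, pow_mul]
    norm_num
  have key := core S' m hm hm4 (fun x => a ((2 ^ k : ℤ) • x))
    (by
      intro x hx
      have := hS0 _ ((hmem x).mp hx)
      rw [re_smul, smul_eq_mul] at this
      exact (mul_eq_zero.mp this).resolve_left h2k)
    (by
      intro x hx
      have := hSn _ ((hmem x).mp hx)
      rw [normSq_smul] at this
      have h4 : ((2 : ℤ) ^ k) ^ 2 = 4 ^ k := by rw [← pow_mul, mul_comm, pow_mul]; norm_num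
      rw [h4] at this
      exact mul_left_cancel₀ (by positivity) this)
    (fun x => ha _)
    (fun x hx => haS _ (fun h => hx ((hmem x).mpr h)))
    (fun x => by rw [smul_neg, hneg])
    (by
      intro x y hx hy
      rcases hcl _ _ hx hy with ⟨w, hw⟩ | ⟨w, hw⟩
      · left
        refine ⟨w, smul_right_injective _ h2k ?_⟩
        simp only
        rw [smul_sub, hw, smul_smul]; congr 1; ring
      · right
        refine ⟨w, smul_right_injective _ h2k ?_⟩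
        simp only
        rw [smul_add, hw, smul_smul]; congr 1; ring)
    (q / 4 ^ k) (by positivity)
    (by
      intro x y hx hy
      have h4 : (0 : ℝ) < 4 ^ k := by positivity
      rcases hcap _ _ hx hy with h | h
      · left
        rw [← smul_sub, hnq] at h
        rw [le_div_iff₀ h4]; linarith
      · right
        rw [← smul_add, hnq] at h
        rw [le_div_iff₀ h4]; linarith)
  rw [e1, hsum (fun x => a x ^ 2)]
  refine le_trans key ?_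
  refine mul_le_mul_of_nonneg_right ?_ (sq_nonneg _)
  refine BB_scale ?_ (one_le_pow₀ (by norm_num))
  exact_mod_cast hm

end Pool.Agent.TorusL4
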