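import Pool.Agent.TorusL4.Torus
import Pool.Agent.TorusL4.Scale

/-! From coefficients on `ℤ^3` to coefficients on pure quaternions. -/

namespace Pool.Agent.TorusL4

open Quaternion MeasureTheory

/-- The pure quaternion of a vector. -/
def toQ (k : Fin 3 → ℤ) : ℍ[ℤ] := ⟨0, k 0, k 1, k 2⟩

/-- The vector of a quaternion. -/
def toV (x : ℍ[ℤ]) : Fin 3 → ℤ := ![x.imI, x.imJ, x.imK]

theorem toV_toQ (k : Fin 3 → ℤ) : toV (toQ k) = k := by
  ext i; fin_cases i <;> rfl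

theorem toQ_re (k : Fin 3 → ℤ) : (toQ k).re = 0 := rfl

theorem toQ_add (k l : Fin 3 → ℤ) : toQ (k + l) = toQ k + toQ l := by
  ext
  · rw [re_add, toQ_re, toQ_re, toQ_re]; rfl
  · rfl
  · rfl
  · rfl

theorem toQ_neg (k : Fin 3 → ℤ) : toQ (-k) = -toQ k := by
  ext
  · rw [re_neg, toQ_re, toQ_re]; rfl
  · rfl
  · rfl
  · rfl

theorem toQ_sub (k l : Fin 3 → ℤ) : toQ (k - l) = toQ k - toQ l := by
  rw [sub_eq_add_neg, toQ_add, toQ_neg, sub_eq_add_neg]

theorem toQ_inj : Function.Injective toQ := fun k l h => by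
  rw [← toV_toQ k, h, toV_toQ]

theorem toQ_toV {x : ℍ[ℤ]} (hx : x.re = 0) : toQ (toV x) = x := by
  ext
  · rw [toQ_re, hx]
  · rfl
  · rfl
  · rfl

theorem toV_neg (x : ℍ[ℤ]) : toV (-x) = -toV x := by
  ext i; fin_cases i <;> rfl

theorem nq_toQ (k : Fin 3 → ℤ) : (nq (toQ k) : ℤ) = ∑ i, k i ^ 2 := by
  rw [nq_def', Fin.sum_univ_three]
  show (0 : ℤ) ^ 2 + k 0 ^ 2 + k 1 ^ 2 + k 2 ^ 2 = _
  ring

theorem normSq_toQ (k : Fin 3 → ℤ) : normSq (toQ k) = ∑ i, k i ^ 2 := by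
  rw [← nq_cast, nq_toQ]

section

variable (s : Finset (Fin 3 → ℤ)) (c : (Fin 3 → ℤ) → ℂ)

/-- The truncated coefficient. -/
noncomputable def AA (k : Fin 3 → ℤ) : ℝ := if k ∈ s then ‖c k‖ else 0

/-- The symmetrised coefficient on quaternions. -/
noncomputable def aq (x : ℍ[ℤ]) : ℝ :=
  if x.re = 0 then AA s c (toV x) + AA s c (-toV x) else 0

/-- The symmetric support. -/
def symS : Finset (Fin 3 → ℤ) := s ∪ s.image (fun k => -k)

/-- The symmetric support in quaternions. -/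
noncomputable def SQ : Finset ℍ[ℤ] := (symS s).image toQ

theorem AA_nonneg (k : Fin 3 → ℤ) : 0 ≤ AA s c k := by
  unfold AA; split_ifs
  · exact norm_nonneg _
  · exact le_rfl

theorem aq_nonneg (x : ℍ[ℤ]) : 0 ≤ aq s c x := by
  unfold aq; split_ifs
  · exact add_nonneg (AA_nonneg _ _ _) (AA_nonneg _ _ _)
  · exact le_rfl

theorem aq_neg (x : ℍ[ℤ]) : aq s c (-x) = aq s c x := by
  unfold aq
  rw [re_neg, toV_neg, neg_neg, add_comm]
  simp only [neg_eq_zero]

theorem mem_symS {k : Fin 3 → ℤ} : k ∈ symS s ↔ k ∈ s ∨ -k ∈ s := by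
  unfold symS
  rw [Finset.mem_union, Finset.mem_image]
  constructor
  · rintro (h | ⟨l, hl, rfl⟩)
    · exact Or.inl h
    · right; rwa [neg_neg]
  · rintro (h | h)
    · exact Or.inl h
    · right; exact ⟨-k, h, neg_neg k⟩

theorem symS_neg {k : Fin 3 → ℤ} (h : k ∈ symS s) : -k ∈ symS s := by
  rw [mem_symS] at *
  rw [neg_neg]; tauto

theorem aq_ne_zero {x : ℍ[ℤ]} (h : aq s c x ≠ 0) :
    x.re = 0 ∧ (toV x ∈ s ∨ -toV x ∈ s) := by
  unfold aq at h
  split_ifs at h with hx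
  · refine ⟨hx, ?_⟩
    by_contra h'
    push Not at h'
    unfold AA at h
    rw [if_neg h'.1, if_neg h'.2] at h
    simp at h
  · exact absurd rfl h

theorem aq_support (x : ℍ[ℤ]) (hx : x ∉ SQ s) : aq s c x = 0 := by
  by_contra h
  obtain ⟨h1, h2⟩ := aq_ne_zero s c h
  apply hx
  unfold SQ
  rw [Finset.mem_image]
  exact ⟨toV x, (mem_symS s).mpr h2, toQ_toV h1⟩

theorem SQ_re (x : ℍ[ℤ]) (hx : x ∈ SQ s) : x.re = 0 := by
  unfold SQ at hx
  obtain ⟨k, _, rfl⟩ := Finset.mem_image.mp hx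
  rfl

theorem SQ_norm {n : ℤ} (hs : ∀ k ∈ s, ∑ i, k i ^ 2 = n) (x : ℍ[ℤ]) (hx : x ∈ SQ s) :
    normSq x = n := by
  unfold SQ at hx
  obtain ⟨k, hk, rfl⟩ := Finset.mem_image.mp hx
  rw [normSq_toQ]
  rcases (mem_symS s).mp hk with h | h
  · exact hs k h
  · rw [← hs _ h]
    refine Finset.sum_congr rfl fun i _ => ?_
    rw [Pi.neg_apply]; ring

theorem aq_toQ_ge {k : Fin 3 → ℤ} (hk : k ∈ s) : ‖c k‖ ≤ aq s c (toQ k) := by
  unfold aq
  rw [if_pos (toQ_re k), toV_toQ]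
  have : AA s c k = ‖c k‖ := if_pos hk
  rw [this]
  linarith [AA_nonneg s c (-k)]

theorem sum_aq_sq : ∑ x ∈ SQ s, aq s c x ^ 2 ≤ 4 * ∑ k ∈ s, ‖c k‖ ^ 2 := by
  have h1 : ∑ x ∈ SQ s, aq s c x ^ 2 = ∑ k ∈ symS s, (AA s c k + AA s c (-k)) ^ 2 := by
    unfold SQ
    rw [Finset.sum_image (fun _ _ _ _ h => toQ_inj h)]
    refine Finset.sum_congr rfl fun k _ => ?_
    unfold aq
    rw [if_pos (toQ_re k), toV_toQ]
  have h2 : ∑ k ∈ symS s, AA s c k ^ 2 = ∑ k ∈ s, ‖c k‖ ^ 2 := by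
    rw [← Finset.sum_subset (s₁ := s) (s₂ := symS s) Finset.subset_union_left]
    · refine Finset.sum_congr rfl fun k hk => ?_
      unfold AA; rw [if_pos hk]
    · intro k _ hk
      unfold AA; rw [if_neg hk]; ring
  have h3 : ∑ k ∈ symS s, AA s c (-k) ^ 2 = ∑ k ∈ symS s, AA s c k ^ 2 := by
    refine Finset.sum_nbij' (fun k => -k) (fun k => -k) ?_ ?_ ?_ ?_ ?_
    · intro k hk; exact symS_neg s hk
    · intro k hk; exact symS_neg s hk
    · intro k _; exact neg_neg k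
    · intro k _; exact neg_neg k
    · intro k _; rfl
  rw [h1]
  calc ∑ k ∈ symS s, (AA s c k + AA s c (-k)) ^ 2
      ≤ ∑ k ∈ symS s, (2 * AA s c k ^ 2 + 2 * AA s c (-k) ^ 2) := by
        refine Finset.sum_le_sum fun k _ => ?_
        nlinarith [sq_nonneg (AA s c k - AA s c (-k))]
    _ = 4 * ∑ k ∈ s, ‖c k‖ ^ 2 := by
        rw [Finset.sum_add_distrib, ← Finset.mul_sum, ← Finset.mul_sum, h3, h2]; ring

theorem EV_le : EV s c ≤ EE (SQ s) (aq s c) := by
  classical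
  -- eliminate the first variable
  have h1 : EV s c = ∑ l ∈ s, ∑ k' ∈ s, ∑ l' ∈ s,
      AA s c (k' + l' - l) * ‖c l‖ * (‖c k'‖ * ‖c l'‖) := by
    unfold EV
    rw [Finset.sum_comm]
    refine Finset.sum_congr rfl fun l _ => ?_
    rw [Finset.sum_comm]
    refine Finset.sum_congr rfl fun k' _ => ?_
    rw [Finset.sum_comm]
    refine Finset.sum_congr rfl fun l' _ => ?_
    have : ∀ k, (if k + l = k' + l' then ‖c k‖ * ‖c l‖ * (‖c k'‖ * ‖c l'‖) else 0) =
        (if k = k' + l' - l then ‖c k‖ * ‖c l‖ * (‖c k'‖ * ‖c l'‖) else 0) := by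
      intro k
      simp only [eq_sub_iff_add_eq]
    rw [Finset.sum_congr rfl (fun k _ => this k), Finset.sum_ite_eq']
    unfold AA
    split_ifs
    · rfl
    · ring
  rw [h1]
  have hA : ∀ k, AA s c k ≤ aq s c (toQ k) := by
    intro k
    unfold aq
    rw [if_pos (toQ_re k), toV_toQ]
    linarith [AA_nonneg s c (-k)]
  have hI1 : s.image toQ ⊆ SQ s := by
    intro x hx
    obtain ⟨k, hk, rfl⟩ := Finset.mem_image.mp hx
    exact Finset.mem_image_of_mem _ (Finset.mem_union_left _ hk)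
  have hI2 : s.image (fun k => -toQ k) ⊆ SQ s := by
    intro x hx
    obtain ⟨k, hk, rfl⟩ := Finset.mem_image.mp hx
    show -toQ k ∈ SQ s
    rw [← toQ_neg]
    exact Finset.mem_image_of_mem _ (symS_neg s (Finset.mem_union_left _ hk))
  have nn : ∀ x y z, 0 ≤ aq s c x * aq s c y * aq s c z * aq s c (x + y + z) := fun x y z =>
    mul_nonneg (mul_nonneg (mul_nonneg (aq_nonneg _ _ _) (aq_nonneg _ _ _)) (aq_nonneg _ _ _))
      (aq_nonneg _ _ _)
  have h2 : ∑ x ∈ s.image (fun k => -toQ k), ∑ y ∈ s.image toQ, ∑ z ∈ s.image toQ,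
      aq s c x * aq s c y * aq s c z * aq s c (x + y + z) ≤ EE (SQ s) (aq s c) := by
    unfold EE
    calc _ ≤ ∑ x ∈ s.image (fun k => -toQ k), ∑ y ∈ SQ s, ∑ z ∈ SQ s,
          aq s c x * aq s c y * aq s c z * aq s c (x + y + z) := by
          refine Finset.sum_le_sum fun x _ => ?_
          calc _ ≤ ∑ y ∈ s.image toQ, ∑ z ∈ SQ s,
                aq s c x * aq s c y * aq s c z * aq s c (x + y + z) :=
                Finset.sum_le_sum fun y _ =>
                  Finset.sum_le_sum_of_subset_of_nonneg hI1 fun z _ _ => nn x y z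
            _ ≤ _ := Finset.sum_le_sum_of_subset_of_nonneg hI1 fun y _ _ =>
                Finset.sum_nonneg fun z _ => nn x y z
      _ ≤ _ := Finset.sum_le_sum_of_subset_of_nonneg hI2 fun x _ _ =>
          Finset.sum_nonneg fun y _ => Finset.sum_nonneg fun z _ => nn x y z
  refine le_trans ?_ h2
  rw [Finset.sum_image (fun a _ b _ h => toQ_inj (neg_injective h))]
  refine Finset.sum_le_sum fun l hl => ?_
  rw [Finset.sum_image (fun a _ b _ h => toQ_inj h)]
  refine Finset.sum_le_sum fun k' hk' => ?_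
  rw [Finset.sum_image (fun a _ b _ h => toQ_inj h)]
  refine Finset.sum_le_sum fun l' hl' => ?_
  have e1 : -toQ l + toQ k' + toQ l' = toQ (k' + l' - l) := by
    rw [toQ_sub, toQ_add]; abel
  rw [e1, aq_neg]
  have b1 := hA (k' + l' - l)
  have b2 := aq_toQ_ge s c hl
  have b3 := aq_toQ_ge s c hk'
  have b4 := aq_toQ_ge s c hl'
  have n1 := AA_nonneg s c (k' + l' - l)
  have n2 := norm_nonneg (c l)
  have n3 := norm_nonneg (c k')
  have n4 := norm_nonneg (c l')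
  calc AA s c (k' + l' - l) * ‖c l‖ * (‖c k'‖ * ‖c l'‖)
      ≤ aq s c (toQ (k' + l' - l)) * aq s c (toQ l) * (aq s c (toQ k') * aq s c (toQ l')) := by
        gcongr
        all_goals first
          | exact aq_nonneg _ _ _
          | exact mul_nonneg (aq_nonneg _ _ _) (aq_nonneg _ _ _)
    _ = _ := by ring

end

end Pool.Agent.TorusL4
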