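import Pool.Agent.TorusL4.Bridge

/-! The `L^4` bound for eigenfunctions of the torus with frequencies in a cap. -/

namespace Pool.Agent.TorusL4

open Quaternion MeasureTheory

theorem BB_nonneg {n : ℝ} (hn : 1 ≤ n) (q : ℝ) : 0 ≤ BB n q := by
  unfold BB
  have h1 := Gam_pos n q
  have h2 : 0 ≤ Real.log (4 * n) := Real.log_nonneg (by linarith)
  positivity

theorem one_class (k : ℕ) (m : ℤ) (hm : 0 < m) (hm4 : ¬ (4 : ℤ) ∣ m)
    (s : Finset (Fin 3 → ℤ)) (c : (Fin 3 → ℤ) → ℂ) (hs : ∀ x ∈ s, ∑ i, x i ^ 2 = 4 ^ k * m)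
    (hcl : ∀ x ∈ s, ∀ y ∈ s, ∀ i, (8 * 2 ^ k : ℤ) ∣ x i - y i) (q : ℝ) (hq : 0 < q)
    (hcap : ∀ x ∈ s, ∀ y ∈ s, ((∑ i, (x i - y i) ^ 2 : ℤ) : ℝ) ≤ q) :
    ∫ x in cube, ‖∑ k ∈ s, c k * ex k x‖ ^ 4 ≤
      (2 * Real.pi) ^ 3 * (16 * BB (4 ^ k * m) q * (∑ k ∈ s, ‖c k‖ ^ 2) ^ 2) := by
  refine le_trans (int_L4 s c) ?_
  refine mul_le_mul_of_nonneg_left ?_ (by positivity)
  refine le_trans (EV_le s c) ?_
  have hdiv : ∀ x ∈ s, ∀ y ∈ s, ∃ w : ℍ[ℤ], toQ x - toQ y = (8 * 2 ^ k : ℤ) • w := by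
    intro x hx y hy
    have h := hcl x hx y hy
    choose w hw using h
    refine ⟨toQ w, ?_⟩
    rw [← toQ_sub]
    ext
    · rw [re_smul, toQ_re, toQ_re]; simp
    · rw [imI_smul, smul_eq_mul]; exact hw 0
    · rw [imJ_smul, smul_eq_mul]; exact hw 1
    · rw [imK_smul, smul_eq_mul]; exact hw 2
  have hclose : ∀ x ∈ s, ∀ y ∈ s, (nq (toQ x - toQ y) : ℝ) ≤ q := by
    intro x hx y hy
    refine le_trans (le_of_eq ?_) (hcap x hx y hy)
    rw [← toQ_sub]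
    have := nq_toQ (x - y)
    simp only [Pi.sub_apply] at this
    exact_mod_cast this
  -- representation of the support
  have hrep : ∀ x : ℍ[ℤ], aq s c x ≠ 0 → ∃ v ∈ s, x = toQ v ∨ x = -toQ v := by
    intro x hx
    obtain ⟨h1, h2 | h2⟩ := aq_ne_zero s c hx
    · exact ⟨toV x, h2, Or.inl (toQ_toV h1).symm⟩
    · refine ⟨-toV x, h2, Or.inr ?_⟩
      rw [toQ_neg, neg_neg, toQ_toV h1]
  have key := core_scaled k m hm hm4 (SQ s) (aq s c) (SQ_re s) (SQ_norm s hs) (aq_nonneg s c)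
    (aq_support s c) (aq_neg s c) (by
      intro x y hx hy
      obtain ⟨v, hv, rfl | rfl⟩ := hrep x hx <;> obtain ⟨w, hw, rfl | rfl⟩ := hrep y hy
      · exact Or.inl (hdiv v hv w hw)
      · right
        rw [← sub_eq_add_neg]
        exact hdiv v hv w hw
      · right
        obtain ⟨z, hz⟩ := hdiv w hw v hv
        exact ⟨z, by rw [← hz]; abel⟩
      · left
        obtain ⟨z, hz⟩ := hdiv w hw v hv
        exact ⟨z, by rw [← hz]; abel⟩) q hq (by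
      intro x y hx hy
      obtain ⟨v, hv, rfl | rfl⟩ := hrep x hx <;> obtain ⟨w, hw, rfl | rfl⟩ := hrep y hy
      · exact Or.inl (hclose v hv w hw)
      · right
        rw [← sub_eq_add_neg]
        exact hclose v hv w hw
      · right
        have e : -toQ v + toQ w = toQ w - toQ v := by abel
        rw [e]; exact hclose w hw v hv
      · left
        have e : -toQ v - -toQ w = toQ w - toQ v := by abel
        rw [e]; exact hclose w hw v hv)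
  refine le_trans key ?_
  have hn1 : (1 : ℝ) ≤ 4 ^ k * m := by
    have h1 : (1 : ℝ) ≤ 4 ^ k := one_le_pow₀ (by norm_num)
    have h2 : (1 : ℝ) ≤ m := by exact_mod_cast hm
    nlinarith
  have hBB := BB_nonneg hn1 q
  have h1 := sum_aq_sq s c
  have h2 : 0 ≤ ∑ x ∈ SQ s, aq s c x ^ 2 := Finset.sum_nonneg fun _ _ => sq_nonneg _
  have h3 : (∑ x ∈ SQ s, aq s c x ^ 2) ^ 2 ≤ (4 * ∑ k ∈ s, ‖c k‖ ^ 2) ^ 2 :=
    pow_le_pow_left₀ h2 h1 2
  calc BB (4 ^ k * m) q * (∑ x ∈ SQ s, aq s c x ^ 2) ^ 2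
      ≤ BB (4 ^ k * m) q * (4 * ∑ k ∈ s, ‖c k‖ ^ 2) ^ 2 := mul_le_mul_of_nonneg_left h3 hBB
    _ = _ := by ring

theorem exists_four_pow (n : ℕ) (hn : 0 < n) : ∃ (k : ℕ) (m : ℤ), 0 < m ∧ ¬ (4 : ℤ) ∣ m ∧
    (n : ℤ) = 4 ^ k * m := by
  induction n using Nat.strong_induction_on with
  | _ n ih =>
    by_cases h : 4 ∣ n
    · obtain ⟨t, rfl⟩ := h
      obtain ⟨k, m, h1, h2, h3⟩ := ih t (by omega) (by omega)
      refine ⟨k + 1, m, h1, h2, ?_⟩
      push_cast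
      rw [h3]; ring
    · refine ⟨0, n, by exact_mod_cast hn, ?_, by simp⟩
      intro h'
      exact h (by exact_mod_cast h')

/-- The `L^4` bound for exponential sums with frequencies on a sphere and in a cap. -/
theorem L4_cap (n : ℕ) (hn : 0 < n) (s : Finset (Fin 3 → ℤ)) (c : (Fin 3 → ℤ) → ℂ)
    (hs : ∀ x ∈ s, ∑ i, x i ^ 2 = (n : ℤ)) (q : ℝ) (hq : 0 < q)
    (hcap : ∀ x ∈ s, ∀ y ∈ s, ((∑ i, (x i - y i) ^ 2 : ℤ) : ℝ) ≤ q) :
    ∫ x in cube, ‖∑ k ∈ s, c k * ex k x‖ ^ 4 ≤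
      (2 * Real.pi) ^ 3 * (512 ^ 3 * 16 * BB n q * (∑ k ∈ s, ‖c k‖ ^ 2) ^ 2) := by
  classical
  obtain ⟨e, m, hm, hm4, hnm⟩ := exists_four_pow n hn
  have hnR : (n : ℝ) = 4 ^ e * m := by exact_mod_cast hnm
  -- every coordinate is divisible by 2^e
  have hdvd : ∀ x ∈ s, ∀ i, (2 ^ e : ℤ) ∣ x i := by
    intro x hx i
    obtain ⟨y, _, hy⟩ := pow_of_four_pow_dvd e m (toQ_re x) (by rw [normSq_toQ, hs x hx, hnm])
    have h1 : x = fun i => 2 ^ e * toV y i := by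
      rw [← toV_toQ x, hy]
      ext j
      fin_cases j <;> rfl
    rw [h1]
    exact dvd_mul_right _ _
  let cl : (Fin 3 → ℤ) → (Fin 3 → ZMod 8) := fun x i => ((x i / 2 ^ e : ℤ) : ZMod 8)
  let f : (Fin 3 → ZMod 8) → (Fin 3 → ℝ) → ℂ := fun κ x =>
    ∑ k ∈ s.filter (fun k => cl k = κ), c k * ex k x
  have hf : ∀ κ, Continuous (f κ) := fun κ =>
    continuous_finsetSum _ fun k _ => continuous_const.mul (ex_cont k)
  have hsum : ∀ x, ∑ k ∈ s, c k * ex k x = ∑ κ, f κ x := by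
    intro x
    exact (Finset.sum_fiberwise s cl (fun k => c k * ex k x)).symm
  have hcard : (Finset.univ : Finset (Fin 3 → ZMod 8)).card = 512 := by
    rw [Finset.card_univ, Fintype.card_fun, ZMod.card, Fintype.card_fin]; norm_num
  have hpt : ∀ x, ‖∑ k ∈ s, c k * ex k x‖ ^ 4 ≤ 512 ^ 3 * ∑ κ, ‖f κ x‖ ^ 4 := by
    intro x
    rw [hsum x]
    have h1 : ‖∑ κ, f κ x‖ ^ 4 ≤ (∑ κ, ‖f κ x‖) ^ 4 :=
      pow_le_pow_left₀ (norm_nonneg _) (norm_sum_le _ _) 4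
    have h3 := pow_sum_div_card_le_sum_pow (s := (Finset.univ : Finset (Fin 3 → ZMod 8)))
      (f := fun κ => ‖f κ x‖) (n := 3) (fun κ _ => norm_nonneg _)
    rw [hcard, div_le_iff₀ (by positivity)] at h3
    push_cast at h3
    linarith
  have hint : ∫ x in cube, ‖∑ k ∈ s, c k * ex k x‖ ^ 4 ≤
      512 ^ 3 * ∑ κ, ∫ x in cube, ‖f κ x‖ ^ 4 := by
    have hi : ∀ κ ∈ (Finset.univ : Finset (Fin 3 → ZMod 8)),
        Integrable (fun x => ‖f κ x‖ ^ 4) (volume.restrict cube) :=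
      fun κ _ => cont_int ((hf κ).norm.pow 4)
    rw [← integral_finsetSum _ hi, ← integral_const_mul]
    refine integral_mono ?_ ?_ hpt
    · exact cont_int ((continuous_finsetSum _ fun k _ =>
        continuous_const.mul (ex_cont k)).norm.pow 4)
    · exact cont_int (continuous_const.mul
        (continuous_finsetSum _ fun κ _ => (hf κ).norm.pow 4))
  refine le_trans hint ?_
  have hone : ∀ κ, ∫ x in cube, ‖f κ x‖ ^ 4 ≤ (2 * Real.pi) ^ 3 * (16 * BB n q *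
      (∑ k ∈ s.filter (fun k => cl k = κ), ‖c k‖ ^ 2) ^ 2) := by
    intro κ
    rw [hnR]
    refine one_class e m hm hm4 (s.filter (fun k => cl k = κ)) c ?_ ?_ q hq ?_
    · intro x hx
      rw [hs x (Finset.mem_filter.mp hx).1, hnm]
    · intro x hx y hy i
      obtain ⟨hx1, hx2⟩ := Finset.mem_filter.mp hx
      obtain ⟨hy1, hy2⟩ := Finset.mem_filter.mp hy
      have h1 : cl x i = cl y i := by rw [hx2, hy2]
      have h2 : (8 : ℤ) ∣ x i / 2 ^ e - y i / 2 ^ e := by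
        have h3 : ((x i / 2 ^ e - y i / 2 ^ e : ℤ) : ZMod 8) = 0 := by
          push_cast
          exact sub_eq_zero.mpr h1
        exact (ZMod.intCast_zmod_eq_zero_iff_dvd _ 8).mp h3
      obtain ⟨t, ht⟩ := h2
      obtain ⟨a, ha⟩ := hdvd x hx1 i
      obtain ⟨b, hb⟩ := hdvd y hy1 i
      have h2e : (2 ^ e : ℤ) ≠ 0 := by positivity
      rw [ha, hb, Int.mul_ediv_cancel_left _ h2e, Int.mul_ediv_cancel_left _ h2e] at ht
      exact ⟨t, by rw [ha, hb]; linear_combination (2 ^ e : ℤ) * ht⟩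
    · intro x hx y hy
      exact hcap x (Finset.mem_filter.mp hx).1 y (Finset.mem_filter.mp hy).1
  have hn1 : (1 : ℝ) ≤ n := by exact_mod_cast hn
  have hBB := BB_nonneg hn1 q
  have hsq : ∑ κ, (∑ k ∈ s.filter (fun k => cl k = κ), ‖c k‖ ^ 2) ^ 2 ≤
      (∑ k ∈ s, ‖c k‖ ^ 2) ^ 2 := by
    rw [← Finset.sum_fiberwise s cl (fun k => ‖c k‖ ^ 2)]
    exact Finset.sum_sq_le_sq_sum_of_nonneg fun κ _ => Finset.sum_nonneg fun _ _ => sq_nonneg _
  calc 512 ^ 3 * ∑ κ, ∫ x in cube, ‖f κ x‖ ^ 4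
      ≤ 512 ^ 3 * ∑ κ, (2 * Real.pi) ^ 3 * (16 * BB n q *
        (∑ k ∈ s.filter (fun k => cl k = κ), ‖c k‖ ^ 2) ^ 2) := by
        refine mul_le_mul_of_nonneg_left (Finset.sum_le_sum fun κ _ => hone κ) (by norm_num)
    _ = (2 * Real.pi) ^ 3 * (512 ^ 3 * 16 * BB n q *
        ∑ κ, (∑ k ∈ s.filter (fun k => cl k = κ), ‖c k‖ ^ 2) ^ 2) := by
        rw [← Finset.mul_sum, ← Finset.mul_sum]; ring
    _ ≤ _ := by
        refine mul_le_mul_of_nonneg_left ?_ (by positivity)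
        refine mul_le_mul_of_nonneg_left hsq ?_
        positivity

end Pool.Agent.TorusL4
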