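import Pool.Agent.TorusL4.PerD

/-! The pointwise separation: for a box in one class modulo 8 the three kernels add up to at
least `8 log 2`. -/

namespace Pool.Agent.TorusL4

open Quaternion

theorem not_eight_dvd {p : ℍ[ℤ]} (hp : ct p = 1) : ¬ 8 ∣ nq p := by
  intro h
  have h1 : (8 : ℤ) ∣ p.re ^ 2 + p.imI ^ 2 + p.imJ ^ 2 + p.imK ^ 2 := by
    rw [← nq_def']; exact_mod_cast h
  have hpar : ∀ x : ℤ, ((2 : ℤ) ∣ x ∧ (4 : ℤ) ∣ x ^ 2) ∨ x ^ 2 % 8 = 1 := by
    intro x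
    rcases Int.even_or_odd' x with ⟨k, hk | hk⟩
    · left; exact ⟨⟨k, hk⟩, ⟨k * k, by rw [hk]; ring⟩⟩
    · right
      rcases Int.even_or_odd' k with ⟨l, hl | hl⟩
      · have : x ^ 2 = 8 * (2 * l * l + l) + 1 := by rw [hk, hl]; ring
        omega
      · have : x ^ 2 = 8 * (2 * l * l + 3 * l + 1) + 1 := by rw [hk, hl]; ring
        omega
  have h2 : ¬ (2 ∣ ct p) := by rw [hp]; norm_num
  rw [dvd_ct_iff] at h2
  have q1 := hpar p.re
  have q2 := hpar p.imI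
  have q3 := hpar p.imJ
  have q4 := hpar p.imK
  generalize p.re ^ 2 = A at *
  generalize p.imI ^ 2 = B at *
  generalize p.imJ ^ 2 = C at *
  generalize p.imK ^ 2 = E at *
  have h3 : (2 : ℤ) ∣ p.re ∧ (2 : ℤ) ∣ p.imI ∧ (2 : ℤ) ∣ p.imJ ∧ (2 : ℤ) ∣ p.imK := by
    refine ⟨?_, ?_, ?_, ?_⟩ <;> omega
  exact h2 (by exact_mod_cast h3)

theorem ell_ge_prim {z : ℍ[ℤ]} (hz : z ≠ 0) :
    Real.log (nq z) - 2 * Real.log (ct z) - 2 * Real.log 2 ≤ ell z ∧
      ell z ≤ Real.log (nq z) - 2 * Real.log (ct z) := by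
  obtain ⟨p, hp, hzp⟩ := exists_prim hz
  have hp0 : p ≠ 0 := by
    rintro rfl; rw [ct_zero] at hp; exact zero_ne_one hp
  have hc := ct_pos hz
  have h1 : ell z = lodd (nq p) := by
    rw [hzp, ell_smul (by exact_mod_cast hc.ne') hp0]
    unfold ell
    rw [hp, lodd_one]; ring
  have h2 : Real.log (nq z) - 2 * Real.log (ct z) = Real.log (nq p) := by
    have h3 : nq z = ct z ^ 2 * nq p := by
      conv_lhs => rw [hzp, nq_smul]
      simp
    rw [h3]
    push_cast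
    rw [Real.log_mul (by positivity) (by exact_mod_cast (nq_pos hp0).ne'), Real.log_pow]
    push_cast; ring
  rw [h2, h1]
  refine ⟨?_, lodd_le_log _⟩
  unfold lodd
  have h3 : padicValNat 2 (nq p) ≤ 2 := by
    by_contra h
    push Not at h
    apply not_eight_dvd hp
    have h4 : 2 ^ 3 ∣ 2 ^ padicValNat 2 (nq p) := pow_dvd_pow 2 h
    exact h4.trans pow_padicValNat_dvd
  have h4 : (padicValNat 2 (nq p) : ℝ) ≤ 2 := by exact_mod_cast h3
  have h5 : 0 ≤ Real.log 2 := Real.log_nonneg (by norm_num)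
  nlinarith

/-- Facts about two orthogonal vectors. -/
theorem orth_facts {x y : ℍ[ℤ]} (hx0 : x.re = 0) (hy0 : y.re = 0) (h : dot x y = 0) :
    nq (x + y) = nq x + nq y ∧ ct (x * (x + y)) ∣ ct (x * y) ∧
      ct (y * (x + y)) ∣ ct (x * y) := by
  unfold dot at h
  refine ⟨?_, ?_, ?_⟩
  · have : (nq (x + y) : ℤ) = nq x + nq y := by
      rw [nq_def', nq_def', nq_def']
      simp only [re_add, imI_add, imJ_add, imK_add]
      rw [hx0, hy0]
      linear_combination 2 * h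
    exact_mod_cast this
  · have h1 := (dvd_ct_iff _ (x * (x + y))).mp dvd_rfl
    rw [dvd_ct_iff]
    obtain ⟨h1, h2, h3, h4⟩ := h1
    simp only [re_mul, imI_mul, imJ_mul, imK_mul, re_add, imI_add, imJ_add, imK_add, hx0, hy0]
      at h1 h2 h3 h4 ⊢
    refine ⟨?_, ?_, ?_, ?_⟩
    · have : 0 * 0 - x.imI * y.imI - x.imJ * y.imJ - x.imK * y.imK = 0 := by
        linear_combination (-1) * h
      rw [this]; exact dvd_zero _
    · convert h2 using 1; ring
    · convert h3 using 1; ring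
    · convert h4 using 1; ring
  · have h1 := (dvd_ct_iff _ (y * (x + y))).mp dvd_rfl
    rw [dvd_ct_iff]
    obtain ⟨h1, h2, h3, h4⟩ := h1
    simp only [re_mul, imI_mul, imJ_mul, imK_mul, re_add, imI_add, imJ_add, imK_add, hx0, hy0]
      at h1 h2 h3 h4 ⊢
    refine ⟨?_, ?_, ?_, ?_⟩
    · have : 0 * 0 - x.imI * y.imI - x.imJ * y.imJ - x.imK * y.imK = 0 := by
        linear_combination (-1) * h
      rw [this]; exact dvd_zero _
    · obtain ⟨k, hk⟩ := h2
      exact ⟨-k, by linear_combination (-1) * hk⟩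
    · obtain ⟨k, hk⟩ := h3
      exact ⟨-k, by linear_combination (-1) * hk⟩
    · obtain ⟨k, hk⟩ := h4
      exact ⟨-k, by linear_combination (-1) * hk⟩

theorem add_ne_zero_of_orth {x y : ℍ[ℤ]} (hx0 : x.re = 0) (hy0 : y.re = 0) (h : dot x y = 0)
    (hx : x ≠ 0) : x + y ≠ 0 := by
  intro h'
  have h1 := (orth_facts hx0 hy0 h).1
  rw [h', nq_eq_zero.mpr rfl] at h1
  have := nq_pos hx
  omega

theorem log_amgm {a b : ℕ} (ha : 0 < a) (hb : 0 < b) :
    2 * Real.log 2 + Real.log a + Real.log b ≤ 2 * Real.log ((a + b : ℕ) : ℝ) := by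
  have ha' : (0 : ℝ) < a := by exact_mod_cast ha
  have hb' : (0 : ℝ) < b := by exact_mod_cast hb
  have h1 : 2 * Real.log 2 + Real.log a + Real.log b = Real.log (2 ^ 2 * a * b) := by
    rw [Real.log_mul (by positivity) hb'.ne', Real.log_mul (by positivity) ha'.ne',
      Real.log_pow]
    push_cast; ring
  have h2 : 2 * Real.log ((a + b : ℕ) : ℝ) = Real.log (((a : ℝ) + b) ^ 2) := by
    rw [Real.log_pow]; push_cast; ring
  rw [h1, h2]
  apply Real.log_le_log (by positivity)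
  nlinarith [sq_nonneg ((a : ℝ) - b)]

theorem log_amgm2 {a b : ℕ} (ha : 0 < a) (hb : 0 < b) :
    |Real.log a - Real.log b| + Real.log a + Real.log b ≤ 2 * Real.log ((a + b : ℕ) : ℝ) := by
  have ha' : (0 : ℝ) < a := by exact_mod_cast ha
  have hb' : (0 : ℝ) < b := by exact_mod_cast hb
  have h1 : Real.log a ≤ Real.log ((a + b : ℕ) : ℝ) := by
    apply Real.log_le_log ha'
    push_cast; linarith
  have h2 : Real.log b ≤ Real.log ((a + b : ℕ) : ℝ) := by
    apply Real.log_le_log hb'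
    push_cast; linarith
  rcases abs_cases (Real.log a - Real.log b) with ⟨h, _⟩ | ⟨h, _⟩ <;> rw [h] <;> linarith

/-- The kernel of one direction. -/
theorem sepA {x y : ℍ[ℤ]} (hx0 : x.re = 0) (hy0 : y.re = 0) (h : dot x y = 0)
    (hx : x ≠ 0) (hy : y ≠ 0) :
    2 * lodd (nq x + nq y) - lodd (nq x) - lodd (nq y) ≤
      ell (x * (x + y)) + ell (y * (x + y)) - 2 * ell (x * y) := by
  obtain ⟨h1, h2, h3⟩ := orth_facts hx0 hy0 h
  have hxy := add_ne_zero_of_orth hx0 hy0 h hx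
  have hc : ct (x * y) ≠ 0 := (ct_pos (mul_ne_zero hx hy)).ne'
  have hnx := (nq_pos hx).ne'
  have hny := (nq_pos hy).ne'
  have hnxy := (nq_pos hxy).ne'
  have g2 := lodd_le_of_dvd h2 hc
  have g3 := lodd_le_of_dvd h3 hc
  unfold ell
  rw [nq_mul, nq_mul, nq_mul, lodd_mul hnx hnxy, lodd_mul hny hnxy, lodd_mul hnx hny, h1]
  linarith

theorem sepB {x y : ℍ[ℤ]} (hx0 : x.re = 0) (hy0 : y.re = 0) (h : dot x y = 0)
    (hx : x ≠ 0) (hy : y ≠ 0) :
    2 * Real.log ((nq x + nq y : ℕ) : ℝ) - Real.log (nq x) - Real.log (nq y) - 4 * Real.log 2 ≤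
      ell (x * (x + y)) + ell (y * (x + y)) - 2 * ell (x * y) := by
  obtain ⟨h1, h2, h3⟩ := orth_facts hx0 hy0 h
  have hxy := add_ne_zero_of_orth hx0 hy0 h hx
  have e1 := (ell_ge_prim (mul_ne_zero hx hxy)).1
  have e2 := (ell_ge_prim (mul_ne_zero hy hxy)).1
  have e3 := (ell_ge_prim (mul_ne_zero hx hy)).2
  have hc := ct_pos (mul_ne_zero hx hy)
  have c1 : Real.log (ct (x * (x + y))) ≤ Real.log (ct (x * y)) := by
    apply Real.log_le_log
    · exact_mod_cast ct_pos (mul_ne_zero hx hxy)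
    · exact_mod_cast Nat.le_of_dvd hc h2
  have c2 : Real.log (ct (y * (x + y))) ≤ Real.log (ct (x * y)) := by
    apply Real.log_le_log
    · exact_mod_cast ct_pos (mul_ne_zero hy hxy)
    · exact_mod_cast Nat.le_of_dvd hc h3
  have l1 : Real.log (nq (x * (x + y))) = Real.log (nq x) + Real.log ((nq x + nq y : ℕ) : ℝ) := by
    rw [nq_mul, h1, Nat.cast_mul, Real.log_mul]
    · exact_mod_cast (nq_pos hx).ne'
    · rw [← h1]; exact_mod_cast (nq_pos hxy).ne'
  have l2 : Real.log (nq (y * (x + y))) = Real.log (nq y) + Real.log ((nq x + nq y : ℕ) : ℝ) := by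
    rw [nq_mul, h1, Nat.cast_mul, Real.log_mul]
    · exact_mod_cast (nq_pos hy).ne'
    · rw [← h1]; exact_mod_cast (nq_pos hxy).ne'
  have l3 : Real.log (nq (x * y)) = Real.log (nq x) + Real.log (nq y) := by
    rw [nq_mul, Nat.cast_mul, Real.log_mul]
    · exact_mod_cast (nq_pos hx).ne'
    · exact_mod_cast (nq_pos hy).ne'
  rw [l1] at e1
  rw [l2] at e2
  rw [l3] at e3
  linarith

theorem sepC {x y : ℍ[ℤ]} (hx0 : x.re = 0) (hy0 : y.re = 0) (h : dot x y = 0)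
    (hx : x ≠ 0) (hy : y ≠ 0) {t k m : ℕ} (hnx : nq x = 64 * t) (hny : nq y = 2 ^ k * m)
    (hm : Odd m) (hk : k ≤ 3) :
    2 * Real.log ((nq x + nq y : ℕ) : ℝ) - Real.log (nq x) - Real.log (nq y) + 3 * Real.log 2 ≤
      ell (x * (x + y)) + ell (y * (x + y)) - 2 * ell (x * y) := by
  refine le_trans ?_ (sepA hx0 hy0 h hx hy)
  have ht : 0 < t := by
    have := nq_pos hx
    omega
  have hm0 : 0 < m := hm.pos
  have hl2 : 0 ≤ Real.log 2 := Real.log_nonneg (by norm_num)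
  have e1 : lodd (nq x) ≤ Real.log (nq x) - 6 * Real.log 2 := by
    have h64 : nq x = 2 ^ 6 * t := by rw [hnx]; norm_num
    rw [h64, lodd_mul (by norm_num) ht.ne', lodd_two_pow, zero_add]
    refine le_trans (lodd_le_log t) ?_
    rw [Nat.cast_mul, Nat.cast_pow, Real.log_mul (by positivity) (by exact_mod_cast ht.ne'),
      Real.log_pow]
    push_cast; linarith
  have e2 : lodd (nq y) = Real.log (nq y) - k * Real.log 2 := by
    rw [hny, lodd_mul (by positivity) hm0.ne', lodd_two_pow, lodd_odd hm]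
    push_cast
    rw [Real.log_mul (by positivity) (by exact_mod_cast hm0.ne'), Real.log_pow]
    ring
  have e3 : lodd (nq x + nq y) = Real.log ((nq x + nq y : ℕ) : ℝ) - k * Real.log 2 := by
    have h1 : nq x + nq y = 2 ^ k * (m + 2 ^ (6 - k) * t) := by
      rw [hnx, hny, mul_add, ← mul_assoc, ← pow_add, show k + (6 - k) = 6 by omega]
      norm_num
      ring
    have hodd : Odd (m + 2 ^ (6 - k) * t) := by
      refine Odd.add_even hm ?_
      have : Even (2 ^ (6 - k)) := (Nat.even_pow.mpr ⟨even_two, by omega⟩)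
      exact this.mul_right t
    have hpos : 0 < m + 2 ^ (6 - k) * t := by positivity
    rw [h1, lodd_mul (by positivity) hpos.ne', lodd_two_pow, lodd_odd hodd]
    push_cast
    rw [Real.log_mul (by positivity) (by positivity), Real.log_pow]
    ring
  have hk' : (k : ℝ) ≤ 3 := by exact_mod_cast hk
  rw [e2, e3]
  nlinarith

/-- The direction of the third side of a box. -/
theorem ell_third {u1 u2 u3 : ℍ[ℤ]} (h1 : u1.re = 0) (h2 : u2.re = 0) (h3 : u3.re = 0)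
    (h12 : dot u1 u2 = 0) (h13 : dot u1 u3 = 0) (h23 : dot u2 u3 = 0) (n1 : u1 ≠ 0)
    (n2 : u2 ≠ 0) (n3 : u3 ≠ 0) : ell u1 = ell (u2 * u3) := by
  have key : (normSq u1) • (u2 * u3) = (dot u1 (u2 * u3)) • u1 := by
    rw [normSq_def']
    unfold dot at *
    ext
    · simp only [re_smul, re_mul, imI_mul, imJ_mul, imK_mul, smul_eq_mul, h1, h2, h3]
      linear_combination (-(u1.imI ^ 2 + u1.imJ ^ 2 + u1.imK ^ 2)) * h23
    · simp only [imI_smul, imI_mul, imJ_mul, imK_mul, smul_eq_mul, h1, h2, h3]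
      linear_combination (u1.imJ * u3.imK - u1.imK * u3.imJ) * h12
        - (u1.imJ * u2.imK - u1.imK * u2.imJ) * h13
    · simp only [imJ_smul, imI_mul, imJ_mul, imK_mul, smul_eq_mul, h1, h2, h3]
      linear_combination (u1.imK * u3.imI - u1.imI * u3.imK) * h12
        - (u1.imK * u2.imI - u1.imI * u2.imK) * h13
    · simp only [imK_smul, imI_mul, imJ_mul, imK_mul, smul_eq_mul, h1, h2, h3]
      linear_combination (u1.imI * u3.imJ - u1.imJ * u3.imI) * h12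
        - (u1.imI * u2.imJ - u1.imJ * u2.imI) * h13
  exact (ell_prop (normSq_ne_zero.mpr n1) (mul_ne_zero n2 n3) n1 key).symm

/-- The separation for a box whose first two sides are divisible by eight. -/
theorem sep_core {u1 u2 u3 : ℍ[ℤ]} (h1 : u1.re = 0) (h2 : u2.re = 0) (h3 : u3.re = 0)
    (h12 : dot u1 u2 = 0) (h13 : dot u1 u3 = 0) (h23 : dot u2 u3 = 0) (n1 : u1 ≠ 0)
    (n2 : u2 ≠ 0) (n3 : u3 ≠ 0) {t1 t2 k m : ℕ} (e1 : nq u1 = 64 * t1) (e2 : nq u2 = 64 * t2)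
    (e3 : nq u3 = 2 ^ k * m) (hm : Odd m) (hk : k ≤ 3) :
    8 * Real.log 2 ≤ FF u2 u3 + FF u1 u3 + FF u1 u2 ∧
    2 * Real.log 2 + |Real.log (nq u2) - Real.log (nq u3)|
      + |Real.log (nq u1) - Real.log (nq u3)| + |Real.log (nq u1) - Real.log (nq u2)| ≤
      FF u2 u3 + FF u1 u3 + FF u1 u2 := by
  have dsymm : ∀ x y : ℍ[ℤ], dot x y = dot y x := fun x y => by unfold dot; ring
  have a1 := sepC h2 h3 h23 n2 n3 e2 e3 hm hk
  have a2 := sepC h1 h3 h13 n1 n3 e1 e3 hm hk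
  have a3 := sepB h1 h2 h12 n1 n2
  rw [← ell_third h1 h2 h3 h12 h13 h23 n1 n2 n3] at a1
  rw [← ell_third h2 h1 h3 (by rw [dsymm]; exact h12) h23 h13 n2 n1 n3] at a2
  rw [← ell_third h3 h1 h2 (by rw [dsymm]; exact h13) (by rw [dsymm]; exact h23) h12 n3 n1 n2]
    at a3
  have b1 := log_amgm (nq_pos n2) (nq_pos n3)
  have b2 := log_amgm (nq_pos n1) (nq_pos n3)
  have b3 := log_amgm (nq_pos n1) (nq_pos n2)
  have c1 := log_amgm2 (nq_pos n2) (nq_pos n3)
  have c2 := log_amgm2 (nq_pos n1) (nq_pos n3)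
  have c3 := log_amgm2 (nq_pos n1) (nq_pos n2)
  unfold FF
  constructor <;> linarith

/-- Consequence: a box with a short side and a long side has a large gain. -/
theorem sep_ecc {l1 l2 l3 c s t : ℝ} (hs : l1 ≤ s ∨ l2 ≤ s ∨ l3 ≤ s)
    (ht : t ≤ l1 ∨ t ≤ l2 ∨ t ≤ l3) :
    c + 2 * (t - s) ≤ c + |l2 - l3| + |l1 - l3| + |l1 - l2| := by
  have a1 := le_abs_self (l2 - l3)
  have a2 := neg_abs_le (l2 - l3)
  have a3 := le_abs_self (l1 - l3)
  have a4 := neg_abs_le (l1 - l3)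
  have a5 := le_abs_self (l1 - l2)
  have a6 := neg_abs_le (l1 - l2)
  rcases hs with hs | hs | hs <;> rcases ht with ht | ht | ht <;> linarith

/-- Congruence up to sign modulo eight. -/
def Cong8 (P R : ℍ[ℤ]) : Prop :=
  (∃ k : ℍ[ℤ], P - R = (8 : ℤ) • k) ∨ (∃ k : ℍ[ℤ], P + R = (8 : ℤ) • k)

theorem nq_special {P k u : ℍ[ℤ]} {n : ℤ} (hn : ¬ (4 : ℤ) ∣ n) (hP : normSq P = n)
    (hu : u = (2 : ℤ) • P - (8 : ℤ) • k) : ∃ j m : ℕ, j ≤ 3 ∧ Odd m ∧ nq u = 2 ^ j * m := by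
  have h1 : (nq u : ℤ) = 4 * normSq (P - (4 : ℤ) • k) := by
    rw [nq_cast]
    have : u = (2 : ℤ) • (P - (4 : ℤ) • k) := by rw [hu, smul_sub, smul_smul]; norm_num
    rw [this, normSq_smul]; ring
  have h2 : (4 : ℤ) ∣ normSq (P - (4 : ℤ) • k) - n := by
    rw [← hP, normSq_def', normSq_def']
    simp only [re_sub, imI_sub, imJ_sub, imK_sub, re_smul, imI_smul, imJ_smul, imK_smul,
      smul_eq_mul]
    refine ⟨-2 * (P.re * k.re + P.imI * k.imI + P.imJ * k.imJ + P.imK * k.imK) +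
      4 * (k.re ^ 2 + k.imI ^ 2 + k.imJ ^ 2 + k.imK ^ 2), by ring⟩
  rw [← nq_cast] at h1 h2
  generalize nq (P - (4 : ℤ) • k) = s at h1 h2
  have h3 : nq u = 4 * s := by exact_mod_cast h1
  rcases Nat.even_or_odd s with h4 | h4
  · obtain ⟨w, hw⟩ := h4
    refine ⟨3, w, le_rfl, ?_, by rw [h3, hw]; ring⟩
    rcases Nat.even_or_odd w with h5 | h5
    · exfalso
      obtain ⟨v, hv⟩ := h5
      apply hn
      omega
    · exact h5
  · exact ⟨2, s, by norm_num, h4, by rw [h3]; ring⟩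

theorem nq_div8 {u k : ℍ[ℤ]} (h : u = (8 : ℤ) • k) : nq u = 64 * nq k := by
  rw [h, nq_smul]; norm_num

theorem not_even_vec {P Q : ℍ[ℤ]} {n : ℤ} (hn : ¬ (4 : ℤ) ∣ n) (hP : normSq P = n)
    (h : P = (2 : ℤ) • Q) : False := by
  apply hn
  rw [← hP, h, normSq_smul]
  exact ⟨normSq Q, by ring⟩

theorem dot_sides {R1 R2 R3 : ℍ[ℤ]} {n : ℤ} (r1 : R1.re = 0) (r2 : R2.re = 0)
    (r3 : R3.re = 0) (q1 : normSq R1 = n) (q2 : normSq R2 = n) (q3 : normSq R3 = n)
    (qP : normSq (R1 + R2 + R3) = n) :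
    dot (R2 + R3) (R1 + R3) = 0 ∧ dot (R2 + R3) (R1 + R2) = 0 ∧
      dot (R1 + R3) (R1 + R2) = 0 := by
  rw [normSq_def'] at q1 q2 q3 qP
  simp only [re_add, imI_add, imJ_add, imK_add, r1, r2, r3] at q1 q2 q3 qP
  unfold dot
  simp only [imI_add, imJ_add, imK_add]
  refine ⟨?_, ?_, ?_⟩
  · have : 2 * ((R2.imI + R3.imI) * (R1.imI + R3.imI) + (R2.imJ + R3.imJ) * (R1.imJ + R3.imJ) +
      (R2.imK + R3.imK) * (R1.imK + R3.imK)) = 0 := by linear_combination qP - q1 - q2 + q3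
    linarith
  · have : 2 * ((R2.imI + R3.imI) * (R1.imI + R2.imI) + (R2.imJ + R3.imJ) * (R1.imJ + R2.imJ) +
      (R2.imK + R3.imK) * (R1.imK + R2.imK)) = 0 := by linear_combination qP - q1 + q2 - q3
    linarith
  · have : 2 * ((R1.imI + R3.imI) * (R1.imI + R2.imI) + (R1.imJ + R3.imJ) * (R1.imJ + R2.imJ) +
      (R1.imK + R3.imK) * (R1.imK + R2.imK)) = 0 := by linear_combination qP + q1 - q2 - q3
    linarith

/-- The separation. -/
theorem sep {R1 R2 R3 : ℍ[ℤ]} {n : ℤ} (hn : ¬ (4 : ℤ) ∣ n) (r1 : R1.re = 0) (r2 : R2.re = 0)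
    (r3 : R3.re = 0) (q1 : normSq R1 = n) (q2 : normSq R2 = n) (q3 : normSq R3 = n)
    (qP : normSq (R1 + R2 + R3) = n) (n1 : R2 + R3 ≠ 0) (n2 : R1 + R3 ≠ 0) (n3 : R1 + R2 ≠ 0)
    (c1 : Cong8 (R1 + R2 + R3) R1) (c2 : Cong8 (R1 + R2 + R3) R2)
    (c3 : Cong8 (R1 + R2 + R3) R3) {s t : ℝ}
    (hs : Real.log (nq (R2 + R3)) ≤ s ∨ Real.log (nq (R1 + R3)) ≤ s ∨
      Real.log (nq (R1 + R2)) ≤ s)
    (ht : t ≤ Real.log (nq (R2 + R3)) ∨ t ≤ Real.log (nq (R1 + R3)) ∨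
      t ≤ Real.log (nq (R1 + R2))) :
    8 * Real.log 2 ≤ FF (R1 + R3) (R1 + R2) + FF (R2 + R3) (R1 + R2) + FF (R2 + R3) (R1 + R3) ∧
    2 * Real.log 2 + 2 * (t - s) ≤
      FF (R1 + R3) (R1 + R2) + FF (R2 + R3) (R1 + R2) + FF (R2 + R3) (R1 + R3) := by
  obtain ⟨d12, d13, d23⟩ := dot_sides r1 r2 r3 q1 q2 q3 qP
  have dsymm : ∀ x y : ℍ[ℤ], dot x y = dot y x := fun x y => by unfold dot; ring
  have s1 : (R2 + R3).re = 0 := by rw [re_add, r2, r3]; rfl
  have s2 : (R1 + R3).re = 0 := by rw [re_add, r1, r3]; rfl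
  have s3 : (R1 + R2).re = 0 := by rw [re_add, r1, r2]; rfl
  have hinj : ∀ (a : ℤ), a ≠ 0 → ∀ x y : ℍ[ℤ], a • x = a • y → x = y :=
    fun a ha x y h => smul_right_injective _ ha h
  have ne : ∀ Q : ℍ[ℤ], R1 + R2 + R3 = (2 : ℤ) • Q → False := fun Q => not_even_vec hn qP
  have sp := fun (k u : ℍ[ℤ]) => nq_special (k := k) (u := u) hn qP
  have fin : (8 * Real.log 2 ≤ FF (R1 + R3) (R1 + R2) + FF (R2 + R3) (R1 + R2)
        + FF (R2 + R3) (R1 + R3) ∧
      2 * Real.log 2 + |Real.log (nq (R1 + R3)) - Real.log (nq (R1 + R2))|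
      + |Real.log (nq (R2 + R3)) - Real.log (nq (R1 + R2))|
      + |Real.log (nq (R2 + R3)) - Real.log (nq (R1 + R3))| ≤
      FF (R1 + R3) (R1 + R2) + FF (R2 + R3) (R1 + R2) + FF (R2 + R3) (R1 + R3)) := by
    rcases c1 with ⟨k1, h1⟩ | ⟨k1, h1⟩ <;> rcases c2 with ⟨k2, h2⟩ | ⟨k2, h2⟩ <;>
      rcases c3 with ⟨k3, h3⟩ | ⟨k3, h3⟩
    · exfalso
      refine ne ((2 : ℤ) • (k1 + k2 + k3)) (hinj 2 (by norm_num) _ _ ?_)
      have : (2 : ℤ) • (R1 + R2 + R3) =
          (R1 + R2 + R3 - R1) + (R1 + R2 + R3 - R2) + (R1 + R2 + R3 - R3) := by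
        rw [two_smul]; abel
      rw [this, h1, h2, h3, smul_smul, smul_smul, ← smul_add, ← smul_add]; norm_num
    · -- R3 special
      obtain ⟨j, m, hj, hm, hu⟩ := sp k3 (R1 + R2) (by
        rw [← h3, two_smul]; abel)
      have e1 : R2 + R3 = (8 : ℤ) • k1 := by rw [← h1]; abel
      have e2 : R1 + R3 = (8 : ℤ) • k2 := by rw [← h2]; abel
      exact sep_core s1 s2 s3 d12 d13 d23 n1 n2 n3 (nq_div8 e1) (nq_div8 e2) hu hm hj
    · -- R2 special
      obtain ⟨j, m, hj, hm, hu⟩ := sp k2 (R1 + R3) (by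
        rw [← h2, two_smul]; abel)
      have e1 : R2 + R3 = (8 : ℤ) • k1 := by rw [← h1]; abel
      have e3 : R1 + R2 = (8 : ℤ) • k3 := by rw [← h3]; abel
      have := sep_core s1 s3 s2 d13 d12 (by rw [dsymm]; exact d23) n1 n3 n2 (nq_div8 e1)
        (nq_div8 e3) hu hm hj
      rw [FF_symm (R1 + R3) (R1 + R2), abs_sub_comm (Real.log (nq (R1 + R2)))] at this
      exact ⟨by linarith [this.1], by linarith [this.2]⟩
    · exfalso
      refine ne ((2 : ℤ) • (k2 + k3 - k1)) (hinj 2 (by norm_num) _ _ ?_)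
      have : (2 : ℤ) • (R1 + R2 + R3) =
          (R1 + R2 + R3 + R2) + (R1 + R2 + R3 + R3) - (R1 + R2 + R3 - R1) := by
        rw [two_smul]; abel
      rw [this, h1, h2, h3, smul_smul, smul_smul, ← smul_add, ← smul_sub]; norm_num
    · -- R1 special
      obtain ⟨j, m, hj, hm, hu⟩ := sp k1 (R2 + R3) (by
        rw [← h1, two_smul]; abel)
      have e2 : R1 + R3 = (8 : ℤ) • k2 := by rw [← h2]; abel
      have e3 : R1 + R2 = (8 : ℤ) • k3 := by rw [← h3]; abel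
      have := sep_core s2 s3 s1 d23 (by rw [dsymm]; exact d12) (by rw [dsymm]; exact d13) n2 n3
        n1 (nq_div8 e2) (nq_div8 e3) hu hm hj
      rw [FF_symm (R2 + R3) (R1 + R2), FF_symm (R2 + R3) (R1 + R3),
        abs_sub_comm (Real.log (nq (R1 + R2))), abs_sub_comm _ (Real.log (nq (R2 + R3)))] at this
      exact ⟨by linarith [this.1], by linarith [this.2]⟩
    · exfalso
      refine ne ((2 : ℤ) • (k1 + k3 - k2)) (hinj 2 (by norm_num) _ _ ?_)
      have : (2 : ℤ) • (R1 + R2 + R3) =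
          (R1 + R2 + R3 + R1) + (R1 + R2 + R3 + R3) - (R1 + R2 + R3 - R2) := by
        rw [two_smul]; abel
      rw [this, h1, h2, h3, smul_smul, smul_smul, ← smul_add, ← smul_sub]; norm_num
    · exfalso
      refine ne ((2 : ℤ) • (k1 + k2 - k3)) (hinj 2 (by norm_num) _ _ ?_)
      have : (2 : ℤ) • (R1 + R2 + R3) =
          (R1 + R2 + R3 + R1) + (R1 + R2 + R3 + R2) - (R1 + R2 + R3 - R3) := by
        rw [two_smul]; abel
      rw [this, h1, h2, h3, smul_smul, smul_smul, ← smul_add, ← smul_sub]; norm_num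
    · exfalso
      refine ne (k1 + k2 + k3) (hinj 4 (by norm_num) _ _ ?_)
      have : (4 : ℤ) • (R1 + R2 + R3) =
          (R1 + R2 + R3 + R1) + (R1 + R2 + R3 + R2) + (R1 + R2 + R3 + R3) := by
        have : (4 : ℤ) • (R1 + R2 + R3) = (2 : ℤ) • ((2 : ℤ) • (R1 + R2 + R3)) := by
          rw [smul_smul]; norm_num
        rw [this, two_smul, two_smul]; abel
      rw [this, h1, h2, h3, smul_smul, ← smul_add, ← smul_add]; norm_num
  exact ⟨fin.1, le_trans (sep_ecc hs ht) fin.2⟩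

end Pool.Agent.TorusL4
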