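import Pool.Agent.TorusL4.PerD2
import Pool.Agent.TorusL4.Sep

/-! The energy of coefficients supported in one class modulo eight. -/

namespace Pool.Agent.TorusL4

open Quaternion

theorem sum_shift (T S : Finset ℍ[ℤ]) (c : ℍ[ℤ]) (g : ℍ[ℤ] → ℝ) (h1 : ∀ w, w ∉ S → g w = 0)
    (h2 : ∀ w ∈ S, w + c ∈ T ∨ g w = 0) : ∑ D ∈ T, g (D - c) = ∑ w ∈ S, g w := by
  refine Finset.sum_bij_ne_zero (fun D _ _ => D - c) ?_ ?_ ?_ ?_
  · intro D _ h
    by_contra h'
    exact h (h1 _ h')
  · intro D _ _ D' _ _ h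
    exact sub_left_injective h
  · intro w hw h
    refine ⟨w + c, (h2 w hw).resolve_right h, ?_, by abel⟩
    rwa [add_sub_cancel_right]
  · intro D _ _; rfl

theorem sum_shift_le (T S : Finset ℍ[ℤ]) (c : ℍ[ℤ]) (g : ℍ[ℤ] → ℝ) (h0 : ∀ w, 0 ≤ g w)
    (h1 : ∀ w, w ∉ S → g w = 0) : ∑ D ∈ T, g (D - c) ≤ ∑ w ∈ S, g w := by
  have h2 := sum_shift (T ∪ S.image (fun w => w + c)) S c g h1 (fun w hw => Or.inl
    (Finset.mem_union_right _ (Finset.mem_image_of_mem _ hw)))
  rw [← h2]
  exact Finset.sum_le_sum_of_subset_of_nonneg Finset.subset_union_left fun _ _ _ => h0 _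

/-- The energy. -/
noncomputable def EE (S : Finset ℍ[ℤ]) (a : ℍ[ℤ] → ℝ) : ℝ :=
  ∑ x ∈ S, ∑ y ∈ S, ∑ z ∈ S, a x * a y * a z * a (x + y + z)

/-- The nondegenerate weight. -/
noncomputable def XX (a : ℍ[ℤ] → ℝ) (x y z : ℍ[ℤ]) : ℝ :=
  if y + z = 0 ∨ x + z = 0 ∨ x + y = 0 then 0 else a x * a y * a z * a (x + y + z)

theorem XX_swap12 (a : ℍ[ℤ] → ℝ) (x y z : ℍ[ℤ]) : XX a y x z = XX a x y z := by
  unfold XX
  have h : (x + z = 0 ∨ y + z = 0 ∨ y + x = 0) ↔ (y + z = 0 ∨ x + z = 0 ∨ x + y = 0) := by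
    rw [add_comm y x]; tauto
  rw [add_comm y x] at h ⊢
  simp only [h]
  split_ifs
  · rfl
  · ring

theorem XX_swap13 (a : ℍ[ℤ] → ℝ) (x y z : ℍ[ℤ]) : XX a z y x = XX a x y z := by
  unfold XX
  have h : (y + x = 0 ∨ z + x = 0 ∨ z + y = 0) ↔ (y + z = 0 ∨ x + z = 0 ∨ x + y = 0) := by
    rw [add_comm y x, add_comm z x, add_comm z y]; tauto
  have e : z + y + x = x + y + z := by abel
  simp only [h, e]
  split_ifs
  · rfl
  · ring

theorem EE_le (S : Finset ℍ[ℤ]) (a : ℍ[ℤ] → ℝ) (ha : ∀ x, 0 ≤ a x)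
    (hneg : ∀ x, a (-x) = a x) :
    EE S a ≤ 3 * (∑ x ∈ S, a x ^ 2) ^ 2 + ∑ x ∈ S, ∑ y ∈ S, ∑ z ∈ S, XX a x y z := by
  have h1 : ∀ x y z, a x * a y * a z * a (x + y + z) ≤
      (if y + z = 0 then a x ^ 2 * a y ^ 2 else 0) + (if x + z = 0 then a x ^ 2 * a y ^ 2 else 0)
      + (if x + y = 0 then a x ^ 2 * a z ^ 2 else 0) + XX a x y z := by
    intro x y z
    have hnn : ∀ p : Prop, ∀ [Decidable p], ∀ u v : ℍ[ℤ],
        0 ≤ (if p then a u ^ 2 * a v ^ 2 else 0) := by
      intro p _ u v; split_ifs <;> positivity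
    have hX : 0 ≤ XX a x y z := by
      unfold XX
      split_ifs
      · exact le_rfl
      · exact mul_nonneg (mul_nonneg (mul_nonneg (ha _) (ha _)) (ha _)) (ha _)
    by_cases c1 : y + z = 0
    · have e1 : z = -y := (neg_eq_of_add_eq_zero_right c1).symm
      have e2 : x + y + z = x := by rw [e1]; abel
      have : a x * a y * a z * a (x + y + z) = a x ^ 2 * a y ^ 2 := by
        rw [e2, e1, hneg]; ring
      rw [this, if_pos c1]
      have := hnn (x + z = 0) x y
      have := hnn (x + y = 0) x z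
      linarith
    · by_cases c2 : x + z = 0
      · have e1 : z = -x := (neg_eq_of_add_eq_zero_right c2).symm
        have e2 : x + y + z = y := by rw [e1]; abel
        have : a x * a y * a z * a (x + y + z) = a x ^ 2 * a y ^ 2 := by
          rw [e2, e1, hneg]; ring
        rw [this, if_pos c2]
        have := hnn (y + z = 0) x y
        have := hnn (x + y = 0) x z
        linarith
      · by_cases c3 : x + y = 0
        · have e1 : y = -x := (neg_eq_of_add_eq_zero_right c3).symm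
          have e2 : x + y + z = z := by rw [e1]; abel
          have : a x * a y * a z * a (x + y + z) = a x ^ 2 * a z ^ 2 := by
            rw [e2, e1, hneg]; ring
          rw [this, if_pos c3]
          have := hnn (y + z = 0) x y
          have := hnn (x + z = 0) x y
          linarith
        · have : XX a x y z = a x * a y * a z * a (x + y + z) := by
            unfold XX; rw [if_neg]; tauto
          rw [this, if_neg c1, if_neg c2, if_neg c3]
          linarith
  have hd1 : ∑ x ∈ S, ∑ y ∈ S, ∑ z ∈ S, (if y + z = 0 then a x ^ 2 * a y ^ 2 else 0) ≤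
      (∑ x ∈ S, a x ^ 2) ^ 2 := by
    rw [pow_two (∑ x ∈ S, a x ^ 2), Finset.sum_mul_sum]
    refine Finset.sum_le_sum fun x _ => Finset.sum_le_sum fun y _ => ?_
    have : ∀ z, (if y + z = 0 then a x ^ 2 * a y ^ 2 else 0) =
        (if -y = z then a x ^ 2 * a y ^ 2 else 0) := by
      intro z
      have : y + z = 0 ↔ -y = z := by
        constructor
        · intro h; exact neg_eq_of_add_eq_zero_right h
        · rintro rfl; abel
      simp only [this]
    rw [Finset.sum_congr rfl (fun z _ => this z), Finset.sum_ite_eq]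
    split_ifs
    · exact le_rfl
    · positivity
  have hd2 : ∑ x ∈ S, ∑ y ∈ S, ∑ z ∈ S, (if x + z = 0 then a x ^ 2 * a y ^ 2 else 0) ≤
      (∑ x ∈ S, a x ^ 2) ^ 2 := by
    rw [pow_two (∑ x ∈ S, a x ^ 2), Finset.sum_mul_sum]
    refine Finset.sum_le_sum fun x _ => Finset.sum_le_sum fun y _ => ?_
    have : ∀ z, (if x + z = 0 then a x ^ 2 * a y ^ 2 else 0) =
        (if -x = z then a x ^ 2 * a y ^ 2 else 0) := by
      intro z
      have : x + z = 0 ↔ -x = z := by
        constructor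
        · intro h; exact neg_eq_of_add_eq_zero_right h
        · rintro rfl; abel
      simp only [this]
    rw [Finset.sum_congr rfl (fun z _ => this z), Finset.sum_ite_eq]
    split_ifs
    · exact le_rfl
    · positivity
  have hd3 : ∑ x ∈ S, ∑ y ∈ S, ∑ z ∈ S, (if x + y = 0 then a x ^ 2 * a z ^ 2 else 0) ≤
      (∑ x ∈ S, a x ^ 2) ^ 2 := by
    rw [pow_two (∑ x ∈ S, a x ^ 2), Finset.sum_mul_sum]
    refine Finset.sum_le_sum fun x _ => ?_
    rw [Finset.sum_comm]
    refine Finset.sum_le_sum fun z _ => ?_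
    have : ∀ y, (if x + y = 0 then a x ^ 2 * a z ^ 2 else 0) =
        (if -x = y then a x ^ 2 * a z ^ 2 else 0) := by
      intro y
      have : x + y = 0 ↔ -x = y := by
        constructor
        · intro h; exact neg_eq_of_add_eq_zero_right h
        · rintro rfl; abel
      simp only [this]
    rw [Finset.sum_congr rfl (fun z _ => this z), Finset.sum_ite_eq]
    split_ifs
    · exact le_rfl
    · positivity
  have h2 : EE S a ≤ ∑ x ∈ S, ∑ y ∈ S, ∑ z ∈ S,
      ((if y + z = 0 then a x ^ 2 * a y ^ 2 else 0) + (if x + z = 0 then a x ^ 2 * a y ^ 2 else 0)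
      + (if x + y = 0 then a x ^ 2 * a z ^ 2 else 0) + XX a x y z) :=
    Finset.sum_le_sum fun x _ => Finset.sum_le_sum fun y _ => Finset.sum_le_sum fun z _ =>
      h1 x y z
  simp only [Finset.sum_add_distrib] at h2
  linarith

/-- The upper bound for the weighted energy. -/
theorem upper (S : Finset ℍ[ℤ]) (n : ℤ) (hn : 0 < n) (a : ℍ[ℤ] → ℝ)
    (hS0 : ∀ x ∈ S, x.re = 0) (hSn : ∀ x ∈ S, normSq x = n) (haS : ∀ x, x ∉ S → a x = 0)
    (hneg : ∀ x, a (-x) = a x) :
    ∑ x ∈ S, ∑ y ∈ S, ∑ z ∈ S, XX a x y z * FF (x + z) (x + y) ≤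
      4 * Real.log (4 * n) * (∑ x ∈ S, a x ^ 2) ^ 2 := by
  classical
  have hlog : 0 ≤ Real.log (4 * (n : ℝ)) := by
    apply Real.log_nonneg
    have : (1 : ℝ) ≤ n := by exact_mod_cast hn
    linarith
  -- the inner function
  let t : ℍ[ℤ] → ℍ[ℤ] → ℍ[ℤ] → ℝ := fun D x y => if x = y ∨ x + y = D then 0 else
      (a x * a (D - x)) * (a y * a (D - y)) * FF (x - y) (x + y - D)
  set T : Finset ℍ[ℤ] := ((S ×ˢ S).image (fun p => p.1 + p.2)).erase 0 with hT
  have step1 : ∀ y z, ∑ x ∈ S, XX a x y z * FF (x + z) (x + y) =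
      if y + z = 0 then 0 else ∑ x ∈ S, t (y + z) x y := by
    intro y z
    split_ifs with hyz
    · refine Finset.sum_eq_zero fun x _ => ?_
      unfold XX
      rw [if_pos (Or.inl hyz), zero_mul]
    · -- shift by y + z
      let g : ℍ[ℤ] → ℝ := fun x => if x ∈ S then XX a x y z * FF (x + z) (x + y) else 0
      have e1 : ∑ x ∈ S, XX a x y z * FF (x + z) (x + y) = ∑ x ∈ S, g x :=
        Finset.sum_congr rfl fun x hx => (if_pos hx).symm
      rw [e1, ← sum_shift S S (y + z) g (fun w hw => if_neg hw) (by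
        intro w hw
        by_cases h : w + (y + z) ∈ S
        · exact Or.inl h
        · right
          show (if w ∈ S then XX a w y z * FF (w + z) (w + y) else 0) = 0
          rw [if_pos hw]
          unfold XX
          rw [← add_assoc] at h
          rw [haS _ h, mul_zero]
          simp)]
      refine Finset.sum_congr rfl fun x hx => ?_
      show (if x - (y + z) ∈ S then XX a (x - (y + z)) y z *
        FF (x - (y + z) + z) (x - (y + z) + y) else 0) =
        (if x = y ∨ x + y = y + z then 0 else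
        (a x * a (y + z - x)) * (a y * a (y + z - y)) * FF (x - y) (x + y - (y + z)))
      have e2 : x - (y + z) + z = x - y := by abel
      have e3 : x - (y + z) + y = x - z := by abel
      have e4 : x + y - (y + z) = x - z := by abel
      have e5 : y + z - y = z := by abel
      have e6 : a (y + z - x) = a (x - (y + z)) := by rw [← hneg]; congr 1; abel
      have e7 : x - z + z = x := by abel
      have e8 : (x = y ∨ x + y = y + z) ↔ (x - y = 0 ∨ x - z = 0) := by
        rw [sub_eq_zero, sub_eq_zero]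
        constructor
        · rintro (h | h)
          · exact Or.inl h
          · right
            have : x + y = z + y := by rw [h]; abel
            exact add_right_cancel this
        · rintro (h | h)
          · exact Or.inl h
          · right; rw [h]; abel
      rw [e2, e3, e4, e5, e6]
      simp only [e8]
      by_cases hx' : x - (y + z) ∈ S
      · rw [if_pos hx']
        unfold XX
        rw [e2, e3, e7]
        by_cases h : x - y = 0 ∨ x - z = 0
        · rw [if_pos h, if_pos (Or.inr h), zero_mul]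
        · rw [if_neg h, if_neg (not_or.mpr ⟨hyz, h⟩)]
          ring
      · rw [if_neg hx', haS _ hx']
        split_ifs
        · rfl
        · ring
  have step2 : ∑ x ∈ S, ∑ y ∈ S, ∑ z ∈ S, XX a x y z * FF (x + z) (x + y) =
      ∑ y ∈ S, ∑ z ∈ S, (if y + z = 0 then 0 else ∑ x ∈ S, t (y + z) x y) := by
    rw [Finset.sum_comm]
    refine Finset.sum_congr rfl fun y _ => ?_
    rw [Finset.sum_comm]
    exact Finset.sum_congr rfl fun z _ => step1 y z
  have step3 : ∀ y ∈ S, ∑ z ∈ S, (if y + z = 0 then 0 else ∑ x ∈ S, t (y + z) x y) =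
      ∑ D ∈ T, ∑ x ∈ S, t D x y := by
    intro y hy
    have hzero : ∀ D, D - y ∉ S → ∑ x ∈ S, t D x y = 0 := by
      intro D hD
      refine Finset.sum_eq_zero fun x _ => ?_
      show (if x = y ∨ x + y = D then 0 else
        (a x * a (D - x)) * (a y * a (D - y)) * FF (x - y) (x + y - D)) = 0
      rw [haS _ hD]
      split_ifs
      · rfl
      · ring
    let g : ℍ[ℤ] → ℝ := fun z => if y + z = 0 then 0 else ∑ x ∈ S, t (y + z) x y
    have e1 := sum_shift T S y g (by
      intro z hz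
      show (if y + z = 0 then 0 else ∑ x ∈ S, t (y + z) x y) = 0
      rw [hzero (y + z) (by rwa [add_sub_cancel_left])]
      simp) (by
      intro z hz
      by_cases h : y + z = 0
      · right; exact if_pos h
      · left
        rw [hT, Finset.mem_erase]
        refine ⟨by rwa [add_comm z y], ?_⟩
        exact Finset.mem_image.mpr ⟨(z, y), Finset.mem_product.mpr ⟨hz, hy⟩, rfl⟩)
    show ∑ z ∈ S, g z = _
    rw [← e1]
    refine Finset.sum_congr rfl fun D hD => ?_
    show (if y + (D - y) = 0 then 0 else ∑ x ∈ S, t (y + (D - y)) x y) = _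
    have e2 : y + (D - y) = D := by abel
    rw [e2, if_neg (Finset.mem_erase.mp hD).1]
  rw [step2, Finset.sum_congr rfl step3, Finset.sum_comm]
  have step4 : ∀ D ∈ T, ∑ y ∈ S, ∑ x ∈ S, t D x y ≤
      4 * Real.log (4 * n) * ∑ x ∈ S, (a x * a (D - x)) ^ 2 := by
    intro D hD
    rw [Finset.sum_comm]
    have hD' := Finset.mem_erase.mp hD
    obtain ⟨p, hp, hpD⟩ := Finset.mem_image.mp hD'.2
    have hp' := Finset.mem_product.mp hp
    exact perD S n hn a hS0 hSn haS D (by
      rw [← hpD, re_add, hS0 _ hp'.1, hS0 _ hp'.2]; rfl) hD'.1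
  refine le_trans (Finset.sum_le_sum step4) ?_
  rw [← Finset.mul_sum]
  refine mul_le_mul_of_nonneg_left ?_ (mul_nonneg (by norm_num) hlog)
  rw [Finset.sum_comm, pow_two (∑ x ∈ S, a x ^ 2), Finset.sum_mul]
  refine Finset.sum_le_sum fun x _ => ?_
  have : ∀ D, (a x * a (D - x)) ^ 2 = a x ^ 2 * (fun w => a w ^ 2) (D - x) := by
    intro D; ring
  rw [Finset.sum_congr rfl (fun D _ => this D), ← Finset.mul_sum]
  refine mul_le_mul_of_nonneg_left ?_ (sq_nonneg _)
  exact sum_shift_le T S x (fun w => a w ^ 2) (fun w => sq_nonneg _)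
    (fun w hw => by
      show a w ^ 2 = 0
      rw [haS w hw]; ring)

/-- The energy bound from a separation constant. -/
theorem core_gen (S : Finset ℍ[ℤ]) (n : ℤ) (hn : 0 < n) (a : ℍ[ℤ] → ℝ)
    (hS0 : ∀ x ∈ S, x.re = 0) (hSn : ∀ x ∈ S, normSq x = n) (ha : ∀ x, 0 ≤ a x)
    (haS : ∀ x, x ∉ S → a x = 0) (hneg : ∀ x, a (-x) = a x) (Γ : ℝ) (hΓ : 0 < Γ)
    (hsep : ∀ x ∈ S, ∀ y ∈ S, ∀ z ∈ S, XX a x y z ≠ 0 →
      Γ ≤ FF (x + z) (x + y) + FF (y + z) (x + y) + FF (y + z) (x + z)) :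
    EE S a ≤ (3 + 12 * Real.log (4 * n) / Γ) * (∑ x ∈ S, a x ^ 2) ^ 2 := by
  have h1 := EE_le S a ha hneg
  have h2 := upper S n hn a hS0 hSn haS hneg
  have h3 : ∑ x ∈ S, ∑ y ∈ S, ∑ z ∈ S, XX a x y z * FF (y + z) (x + y) =
      ∑ x ∈ S, ∑ y ∈ S, ∑ z ∈ S, XX a x y z * FF (x + z) (x + y) := by
    rw [Finset.sum_comm]
    refine Finset.sum_congr rfl fun x _ => Finset.sum_congr rfl fun y _ =>
      Finset.sum_congr rfl fun z _ => ?_
    rw [XX_swap12, add_comm y x]
  have h4 : ∑ x ∈ S, ∑ y ∈ S, ∑ z ∈ S, XX a x y z * FF (y + z) (x + z) =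
      ∑ x ∈ S, ∑ y ∈ S, ∑ z ∈ S, XX a x y z * FF (x + z) (x + y) := by
    have e : ∀ f : ℍ[ℤ] → ℍ[ℤ] → ℍ[ℤ] → ℝ, ∑ x ∈ S, ∑ y ∈ S, ∑ z ∈ S, f x y z =
        ∑ x ∈ S, ∑ y ∈ S, ∑ z ∈ S, f z y x := by
      intro f
      calc ∑ x ∈ S, ∑ y ∈ S, ∑ z ∈ S, f x y z = ∑ y ∈ S, ∑ x ∈ S, ∑ z ∈ S, f x y z :=
            Finset.sum_comm
        _ = ∑ y ∈ S, ∑ z ∈ S, ∑ x ∈ S, f x y z :=
            Finset.sum_congr rfl fun y _ => Finset.sum_comm
        _ = ∑ z ∈ S, ∑ y ∈ S, ∑ x ∈ S, f x y z := Finset.sum_comm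
    rw [e]
    refine Finset.sum_congr rfl fun x _ => Finset.sum_congr rfl fun y _ =>
      Finset.sum_congr rfl fun z _ => ?_
    rw [XX_swap13, add_comm y x, add_comm z x, FF_symm]
  have hXnn : ∀ x y z, 0 ≤ XX a x y z := by
    intro x y z
    unfold XX
    split_ifs
    · exact le_rfl
    · exact mul_nonneg (mul_nonneg (mul_nonneg (ha _) (ha _)) (ha _)) (ha _)
  have h5 : ∀ x ∈ S, ∀ y ∈ S, ∀ z ∈ S, Γ * XX a x y z ≤
      XX a x y z * FF (x + z) (x + y) + XX a x y z * FF (y + z) (x + y)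
        + XX a x y z * FF (y + z) (x + z) := by
    intro x hx y hy z hz
    by_cases hX : XX a x y z = 0
    · rw [hX]; simp
    rw [← mul_add, ← mul_add, mul_comm]
    exact mul_le_mul_of_nonneg_left (hsep x hx y hy z hz hX) (hXnn x y z)
  have h6 : Γ * ∑ x ∈ S, ∑ y ∈ S, ∑ z ∈ S, XX a x y z ≤
      3 * ∑ x ∈ S, ∑ y ∈ S, ∑ z ∈ S, XX a x y z * FF (x + z) (x + y) := by
    have h7 : ∑ x ∈ S, ∑ y ∈ S, ∑ z ∈ S, Γ * XX a x y z ≤
        ∑ x ∈ S, ∑ y ∈ S, ∑ z ∈ S, (XX a x y z * FF (x + z) (x + y)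
          + XX a x y z * FF (y + z) (x + y) + XX a x y z * FF (y + z) (x + z)) :=
      Finset.sum_le_sum fun x hx => Finset.sum_le_sum fun y hy => Finset.sum_le_sum fun z hz =>
        h5 x hx y hy z hz
    simp only [Finset.sum_add_distrib] at h7
    rw [h3, h4] at h7
    simp only [← Finset.mul_sum] at h7
    linarith
  have h8 : ∑ x ∈ S, ∑ y ∈ S, ∑ z ∈ S, XX a x y z ≤
      12 * Real.log (4 * n) / Γ * (∑ x ∈ S, a x ^ 2) ^ 2 := by
    rw [div_mul_eq_mul_div, le_div_iff₀ hΓ]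
    linarith
  linarith

/-- Nonzero weight. -/
theorem XX_ne_zero {a : ℍ[ℤ] → ℝ} {x y z : ℍ[ℤ]} (h : XX a x y z ≠ 0) :
    y + z ≠ 0 ∧ x + z ≠ 0 ∧ x + y ≠ 0 ∧ a x ≠ 0 ∧ a y ≠ 0 ∧ a z ≠ 0 ∧ a (x + y + z) ≠ 0 := by
  unfold XX at h
  split_ifs at h with hc
  · exact absurd rfl h
  push Not at hc
  exact ⟨hc.1, hc.2.1, hc.2.2,
    left_ne_zero_of_mul (left_ne_zero_of_mul (left_ne_zero_of_mul h)),
    right_ne_zero_of_mul (left_ne_zero_of_mul (left_ne_zero_of_mul h)),
    right_ne_zero_of_mul (left_ne_zero_of_mul h), right_ne_zero_of_mul h⟩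

/-- The separation constant for frequencies in a cap of squared diameter `q`. -/
noncomputable def Gam (n q : ℝ) : ℝ :=
  max (8 * Real.log 2) (2 * Real.log 2 + 2 * Real.log (4 * n / (3 * q)))

/-- The final bound for the energy. -/
noncomputable def BB (n q : ℝ) : ℝ := 3 + 12 * Real.log (4 * n) / Gam n q

theorem Gam_pos (n q : ℝ) : 0 < Gam n q := by
  unfold Gam
  have : 0 < Real.log 2 := Real.log_pos (by norm_num)
  exact lt_of_lt_of_le (by linarith) (le_max_left _ _)

/-- The energy bound for coefficients in one class and in one cap (up to sign). -/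
theorem core (S : Finset ℍ[ℤ]) (n : ℤ) (hn : 0 < n) (hn4 : ¬ (4 : ℤ) ∣ n) (a : ℍ[ℤ] → ℝ)
    (hS0 : ∀ x ∈ S, x.re = 0) (hSn : ∀ x ∈ S, normSq x = n) (ha : ∀ x, 0 ≤ a x)
    (haS : ∀ x, x ∉ S → a x = 0) (hneg : ∀ x, a (-x) = a x)
    (hcl : ∀ x y, a x ≠ 0 → a y ≠ 0 → Cong8 x y) (q : ℝ) (hq : 0 < q)
    (hcap : ∀ x y, a x ≠ 0 → a y ≠ 0 → (nq (x - y) : ℝ) ≤ q ∨ (nq (x + y) : ℝ) ≤ q) :
    EE S a ≤ BB n q * (∑ x ∈ S, a x ^ 2) ^ 2 := by
  refine core_gen S n hn a hS0 hSn ha haS hneg (Gam n q) (Gam_pos _ _) ?_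
  intro x hx y hy z hz hX
  obtain ⟨c1, c2, c3, ax, ay, az, aP⟩ := XX_ne_zero hX
  have hPS : x + y + z ∈ S := by
    by_contra h; exact aP (haS _ h)
  have hnR : (0 : ℝ) < n := by exact_mod_cast hn
  -- the sides
  have hsum : (nq (y + z) : ℤ) + nq (x + z) + nq (x + y) = 4 * n := by
    have q1 := hSn x hx
    have q2 := hSn y hy
    have q3 := hSn z hz
    have qP := hSn _ hPS
    rw [normSq_def'] at q1 q2 q3 qP
    rw [nq_def', nq_def', nq_def']
    simp only [re_add, imI_add, imJ_add, imK_add] at qP ⊢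
    linear_combination q1 + q2 + q3 + qP
  have hlong : Real.log (4 * n / 3) ≤ Real.log (nq (y + z)) ∨
      Real.log (4 * n / 3) ≤ Real.log (nq (x + z)) ∨
      Real.log (4 * n / 3) ≤ Real.log (nq (x + y)) := by
    have h1 : (nq (y + z) : ℝ) + nq (x + z) + nq (x + y) = 4 * n := by exact_mod_cast hsum
    have hpos : (0 : ℝ) < 4 * n / 3 := by positivity
    by_contra hcon
    push Not at hcon
    obtain ⟨g1, g2, g3⟩ := hcon
    have f : ∀ m : ℝ, 0 < m → Real.log m < Real.log (4 * n / 3) → m < 4 * n / 3 :=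
      fun m hm h => (Real.log_lt_log_iff hm hpos).mp h
    have k1 := f _ (by exact_mod_cast nq_pos c1) g1
    have k2 := f _ (by exact_mod_cast nq_pos c2) g2
    have k3 := f _ (by exact_mod_cast nq_pos c3) g3
    linarith
  have hsp := fun s (hs : Real.log (nq (y + z)) ≤ s ∨ Real.log (nq (x + z)) ≤ s ∨
      Real.log (nq (x + y)) ≤ s) => sep hn4 (hS0 x hx) (hS0 y hy) (hS0 z hz) (hSn x hx) (hSn y hy)
        (hSn z hz) (hSn _ hPS) c1 c2 c3 (hcl _ _ aP ax) (hcl _ _ aP ay) (hcl _ _ aP az) hs hlong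
  have h8 := (hsp (Real.log (nq (y + z))) (Or.inl le_rfl)).1
  unfold Gam
  refine max_le h8 ?_
  by_cases hsmall : 16 * (n : ℝ) ≤ 9 * q
  · -- trivial case
    refine le_trans ?_ h8
    have h1 : Real.log (4 * n / (3 * q)) ≤ Real.log 1 := by
      apply Real.log_le_log (by positivity)
      rw [div_le_one (by positivity)]
      linarith
    rw [Real.log_one] at h1
    have : 0 < Real.log 2 := Real.log_pos (by norm_num)
    linarith
  · push Not at hsmall
    have hshort : (nq (y + z) : ℝ) ≤ q ∨ (nq (x + z) : ℝ) ≤ q ∨ (nq (x + y) : ℝ) ≤ q := by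
      by_contra hcon
      push Not at hcon
      obtain ⟨g1, g2, g3⟩ := hcon
      have e1 : x + y + z - x = y + z := by abel
      have e2 : x + y + z - y = x + z := by abel
      have e3 : x + y + z - z = x + y := by abel
      have k1 := (hcap _ _ aP ax).resolve_left (by rw [e1]; exact not_le.mpr g1)
      have k2 := (hcap _ _ aP ay).resolve_left (by rw [e2]; exact not_le.mpr g2)
      have k3 := (hcap _ _ aP az).resolve_left (by rw [e3]; exact not_le.mpr g3)
      have key : (16 * n : ℤ) ≤ 3 * (nq (x + y + z + x) + nq (x + y + z + y)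
          + nq (x + y + z + z)) := by
        have qP := hSn _ hPS
        rw [normSq_def'] at qP
        rw [nq_def', nq_def', nq_def', ← qP]
        simp only [re_add, imI_add, imJ_add, imK_add]
        nlinarith [sq_nonneg ((x.re) - y.re), sq_nonneg (x.re - z.re), sq_nonneg (y.re - z.re),
          sq_nonneg ((x.imI) - y.imI), sq_nonneg (x.imI - z.imI), sq_nonneg (y.imI - z.imI),
          sq_nonneg ((x.imJ) - y.imJ), sq_nonneg (x.imJ - z.imJ), sq_nonneg (y.imJ - z.imJ),
          sq_nonneg ((x.imK) - y.imK), sq_nonneg (x.imK - z.imK), sq_nonneg (y.imK - z.imK)]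
      have key' : (16 * n : ℝ) ≤ 3 * (nq (x + y + z + x) + nq (x + y + z + y)
          + nq (x + y + z + z)) := by exact_mod_cast key
      linarith
    have hs : Real.log (nq (y + z)) ≤ Real.log q ∨ Real.log (nq (x + z)) ≤ Real.log q ∨
        Real.log (nq (x + y)) ≤ Real.log q := by
      rcases hshort with h | h | h
      · left; exact Real.log_le_log (by exact_mod_cast nq_pos c1) h
      · right; left; exact Real.log_le_log (by exact_mod_cast nq_pos c2) h
      · right; right; exact Real.log_le_log (by exact_mod_cast nq_pos c3) h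
    refine le_trans (le_of_eq ?_) (hsp _ hs).2
    have : 4 * (n : ℝ) / (3 * q) = (4 * n / 3) / q := by rw [div_div]
    rw [this, Real.log_div (by positivity) hq.ne']

end Pool.Agent.TorusL4
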