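import Pool.Agent.TorusL4.Trace

/-! Collection of the results in the form of the hand-in. -/

namespace Pool.Agent.TorusL4

open MeasureTheory

theorem main_L4 (n : ℕ) (u : (Fin 3 → ℝ) → ℂ) (hn : 1 ≤ n) (hu : IsEigen n u) :
    ∫ x in cube, ‖u x‖ ^ 4 ≤ K0 * (1 + Real.log n) * (∫ x in cube, ‖u x‖ ^ 2) ^ 2 := by
  obtain ⟨s, c, hs, hu⟩ := hu
  have hn1 : (1 : ℝ) ≤ n := by exact_mod_cast hn
  rw [funext hu, ← Lam_full hn1]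
  exact L4_final n (by omega) s c hs (4 * n) (by linarith)
    (fun x hx y hy => dist_le n x y (hs x hx) (hs y hy))

theorem main_cap (n : ℕ) (s : Finset (Fin 3 → ℤ)) (c : (Fin 3 → ℤ) → ℂ) (ρ : ℝ) (hn : 1 ≤ n)
    (hρ : 1 ≤ ρ) (hs : ∀ k ∈ s, ∑ i, k i ^ 2 = (n : ℤ))
    (hcap : ∀ k ∈ s, ∀ l ∈ s, ((∑ i, (k i - l i) ^ 2 : ℤ) : ℝ) ≤ ρ ^ 2) :
    ∫ x in cube, ‖∑ k ∈ s, c k * ex k x‖ ^ 4 ≤
      K0 * ((1 + Real.log n) / (1 + max 0 (Real.log (n / ρ ^ 2)))) *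
        (∫ x in cube, ‖∑ k ∈ s, c k * ex k x‖ ^ 2) ^ 2 :=
  L4_final n (by omega) s c hs (ρ ^ 2) (one_le_pow₀ hρ) hcap

theorem main_low (n : ℕ) (u : (Fin 3 → ℝ) → ℂ) (R : ℝ) (F : Finset (Fin 3 → ℤ)) (hn : 1 ≤ n)
    (hR : 1 ≤ R) (hu : IsEigen n u) (hF : ∀ h ∈ F, ((∑ i, h i ^ 2 : ℤ) : ℝ) ≤ R ^ 2) :
    ∑ h ∈ F, ‖fc (fun x => ((‖u x‖ ^ 2 : ℝ) : ℂ)) h‖ ^ 2 ≤
      K0 * ((1 + Real.log n) / (1 + max 0 (Real.log (n / R ^ 2)))) *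
        (∫ x in cube, ‖u x‖ ^ 2) ^ 2 := by
  obtain ⟨s, c, hs, hu⟩ := hu
  have hn1 : (1 : ℝ) ≤ n := by exact_mod_cast hn
  rw [funext hu]
  simp_rw [fc_sq]
  refine le_trans (low_freq n (by omega) s c hs R hR F hF) ?_
  rw [int_L2]
  show K0 * Lam n (R ^ 2) * _ ≤ K0 * Lam n (R ^ 2) * _
  refine mul_le_mul_of_nonneg_left ?_ (mul_nonneg K0_pos.le (Lam_nonneg hn1 _))
  have h1 := two_pi_cube
  have h2 : 0 ≤ ∑ k ∈ s, ‖c k‖ ^ 2 := Finset.sum_nonneg fun _ _ => sq_nonneg _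
  exact pow_le_pow_left₀ h2 (by nlinarith) 2

/-- Logarithmic smoothness implies the tail condition. -/
theorem trace_log (f : (Fin 3 → ℝ) → ℝ) (hf : IntegrableOn f cube)
    (hS : Summable fun h : Fin 3 → ℤ =>
      ‖fc (fun x => (f x : ℂ)) h‖ ^ 2 * Real.log (2 + ((∑ i, h i ^ 2 : ℤ) : ℝ))) :
    ∃ C : ℝ, ∀ (n : ℕ) (u : (Fin 3 → ℝ) → ℂ), IsEigen n u →
      ∫ x in cube, f x * ‖u x‖ ^ 2 ≤ C * ∫ x in cube, ‖u x‖ ^ 2 := by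
  refine trace f hf (∑' h : Fin 3 → ℤ,
      ‖fc (fun x => (f x : ℂ)) h‖ ^ 2 * Real.log (2 + ((∑ i, h i ^ 2 : ℤ) : ℝ))) ?_
  intro R hR F hF
  have hlR : 0 < Real.log R := Real.log_pos (by linarith)
  rw [le_div_iff₀ hlR, Finset.sum_mul]
  have hnn : ∀ h : Fin 3 → ℤ, 0 ≤ ((∑ i, h i ^ 2 : ℤ) : ℝ) := by
    intro h
    exact_mod_cast Finset.sum_nonneg fun i _ => sq_nonneg (h i)
  have hterm : ∀ h : Fin 3 → ℤ, 0 ≤ ‖fc (fun x => (f x : ℂ)) h‖ ^ 2 *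
      Real.log (2 + ((∑ i, h i ^ 2 : ℤ) : ℝ)) := by
    intro h
    refine mul_nonneg (sq_nonneg _) (Real.log_nonneg ?_)
    linarith [hnn h]
  refine le_trans ?_ (hS.sum_le_tsum F (fun h _ => hterm h))
  refine Finset.sum_le_sum fun h hh => ?_
  refine mul_le_mul_of_nonneg_left ?_ (sq_nonneg _)
  apply Real.log_le_log (by linarith)
  have h1 := hF h hh
  nlinarith

end Pool.Agent.TorusL4
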