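import Pool.Agent.TorusL4.Signs

/-! The inequality for one difference `D`. -/

namespace Pool.Agent.TorusL4

open Quaternion

/-- The weight function of a box. -/
noncomputable def FF (u v : ℍ[ℤ]) : ℝ := ell (u * (u + v)) + ell (v * (u + v)) - ell u - ell v

theorem FF_symm (u v : ℍ[ℤ]) : FF v u = FF u v := by
  unfold FF; rw [add_comm v u]; ring

theorem FF_neg (u v : ℍ[ℤ]) : FF (-u) (-v) = FF u v := by
  unfold FF
  have h1 : -u * (-u + -v) = u * (u + v) := by rw [← neg_add, neg_mul_neg]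
  have h2 : -v * (-u + -v) = v * (u + v) := by rw [← neg_add, neg_mul_neg]
  rw [h1, h2, ell_neg, ell_neg]

theorem anticomm {u v : ℍ[ℤ]} (hu : u.re = 0) (hv : v.re = 0) (h : dot u v = 0) :
    u * v = -(v * u) := by
  unfold dot at h
  ext
  · simp only [re_mul, re_neg, hu, hv]; linear_combination (-2) * h
  · simp only [imI_mul, imI_neg, hu, hv]; ring
  · simp only [imJ_mul, imJ_neg, hu, hv]; ring
  · simp only [imK_mul, imK_neg, hu, hv]; ring

theorem half_sum (A : Finset ℍ[ℤ]) (D : ℍ[ℤ]) (hA : ∀ x ∈ A, D - x ∈ A)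
    (hA2 : ∀ x ∈ A, x + x ≠ D) (r : ℍ[ℤ] → ℍ[ℤ] → Prop) [DecidableRel r]
    (hr1 : ∀ x y, r x y → ¬ r y x) (hr2 : ∀ x y, x ≠ y → r x y ∨ r y x)
    (f : ℍ[ℤ] → ℝ) (hf : ∀ x ∈ A, f (D - x) = f x) :
    ∑ x ∈ A, f x = 2 * ∑ x ∈ A.filter (fun x => r x (D - x)), f x := by
  rw [← Finset.sum_filter_add_sum_filter_not A (fun x => r x (D - x)), two_mul]
  congr 1
  refine Finset.sum_nbij' (fun x => D - x) (fun x => D - x) ?_ ?_ ?_ ?_ ?_
  · intro x hx
    rw [Finset.mem_filter] at hx ⊢
    refine ⟨hA x hx.1, ?_⟩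
    have h1 : x ≠ D - x := fun h => hA2 x hx.1 (by nth_rewrite 2 [h]; abel)
    have := (hr2 x (D - x) h1).resolve_left hx.2
    rw [sub_sub_cancel]
    exact this
  · intro x hx
    rw [Finset.mem_filter] at hx ⊢
    refine ⟨hA x hx.1, ?_⟩
    rw [sub_sub_cancel]
    exact hr1 _ _ hx.2
  · intro x _; exact sub_sub_cancel D x
  · intro x _; exact sub_sub_cancel D x
  · intro x hx
    rw [Finset.mem_filter] at hx
    exact (hf x hx.1).symm

/-- The translation of the symmetrised kernel. -/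
theorem FF_eq {x y D : ℍ[ℤ]} {N n : ℤ} (hx0 : x.re = 0) (hy0 : y.re = 0) (hD0 : D.re = 0)
    (hx : normSq x = n) (hy : normSq y = n) (hxD : normSq (D - x) = n)
    (hyD : normSq (D - y) = n) (hN : N = 4 * n - normSq D) (hxy : x ≠ y) (hxy' : x + y ≠ D) :
    ell (N • (1 : ℍ[ℤ]) - (x + x - D) * (y + y - D))
      + ell (N • (1 : ℍ[ℤ]) + (x + x - D) * (y + y - D))
      - ell ((x + x - D) + (y + y - D)) - ell ((x + x - D) - (y + y - D)) =
      FF (x - y) (x + y - D) := by
  obtain ⟨u, hu⟩ : ∃ u, u = x - y := ⟨_, rfl⟩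
  obtain ⟨v, hv⟩ : ∃ v, v = x + y - D := ⟨_, rfl⟩
  have hu0 : u.re = 0 := by rw [hu, re_sub, hx0, hy0]; rfl
  have hv0 : v.re = 0 := by rw [hv, re_sub, re_add, hx0, hy0, hD0]; rfl
  have hune : u ≠ 0 := by rw [hu]; exact sub_ne_zero.mpr hxy
  have hvne : v ≠ 0 := by rw [hv]; exact sub_ne_zero.mpr hxy'
  rw [normSq_def'] at hx hy hxD hyD
  simp only [re_sub, imI_sub, imJ_sub, imK_sub, hx0, hy0, hD0] at hx hy hxD hyD
  have huv : dot u v = 0 := by
    rw [hu, hv]
    unfold dot
    simp only [imI_sub, imJ_sub, imK_sub, imI_add, imJ_add, imK_add]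
    have : 2 * ((x.imI - y.imI) * (x.imI + y.imI - D.imI) + (x.imJ - y.imJ) *
      (x.imJ + y.imJ - D.imJ) + (x.imK - y.imK) * (x.imK + y.imK - D.imK)) = 0 := by
      linear_combination hx - hy + hxD - hyD
    linarith
  have hac := anticomm hu0 hv0 huv
  have e1 : x + x - D = u + v := by rw [hu, hv]; abel
  have e2 : y + y - D = v - u := by rw [hu, hv]; abel
  have hNuv : N = normSq u + normSq v := by
    rw [hN, normSq_def', normSq_def', normSq_def', hu0, hv0, hD0, hu, hv]
    simp only [imI_sub, imJ_sub, imK_sub, imI_add, imJ_add, imK_add]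
    linear_combination (-1) * hx + (-1) * hy + (-1) * hxD + (-1) * hyD
  have hNq : N • (1 : ℍ[ℤ]) = -(u * u) - v * v := by
    rw [mul_self_pure hu0, mul_self_pure hv0, hNuv, add_smul, neg_smul, neg_smul]
    abel
  have hmul : (u + v) * (v - u) = u * v + v * v - u * u - v * u := by noncomm_ring
  have f1 : N • (1 : ℍ[ℤ]) - (u + v) * (v - u) = (-2 : ℤ) • (v * (v - u)) := by
    rw [hNq, hmul, hac, mul_sub, neg_smul, two_smul]
    abel
  have f2 : N • (1 : ℍ[ℤ]) + (u + v) * (v - u) = (-2 : ℤ) • (u * (u - v)) := by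
    rw [hNq, hmul, mul_sub, neg_smul, two_smul]
    have : v * u = -(u * v) := by rw [hac, neg_neg]
    rw [this]
    abel
  have f3 : u + v + (v - u) = (2 : ℤ) • v := by rw [two_smul]; abel
  have f4 : u + v - (v - u) = (2 : ℤ) • u := by rw [two_smul]; abel
  have hstar1 : star (v * (v - u)) = v * (u + v) := by
    rw [star_mul, star_pure hv0, star_pure (by rw [re_sub, hu0, hv0]; rfl), neg_mul_neg,
      sub_mul, mul_add, hac]
    abel
  have hstar2 : star (u * (u - v)) = u * (u + v) := by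
    rw [star_mul, star_pure hu0, star_pure (by rw [re_sub, hu0, hv0]; rfl), neg_mul_neg,
      sub_mul, mul_add, hac]
    abel
  have hsq : u + v ≠ 0 := by
    intro h
    have h1 : normSq u + normSq v = 0 := by
      have h2 : normSq (u + v) = 0 := by rw [h, map_zero]
      rw [normSq_def'] at h2 ⊢
      rw [normSq_def']
      unfold dot at huv
      simp only [re_add, imI_add, imJ_add, imK_add] at h2
      rw [hu0, hv0] at *
      linear_combination h2 - 2 * huv
    have h2 : 0 < normSq u := lt_of_le_of_ne normSq_nonneg (Ne.symm (normSq_ne_zero.mpr hune))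
    have h3 : 0 ≤ normSq v := normSq_nonneg
    linarith
  have g1 : v * (v - u) ≠ 0 := by
    intro h
    have := congrArg star h
    rw [hstar1, star_zero] at this
    exact mul_ne_zero hvne hsq this
  have g2 : u * (u - v) ≠ 0 := by
    intro h
    have := congrArg star h
    rw [hstar2, star_zero] at this
    exact mul_ne_zero hune hsq this
  rw [e1, e2, f1, f2, f3, f4, ell_smul (by norm_num) g1, ell_smul (by norm_num) g2,
    ell_smul two_ne_zero hvne, ell_smul two_ne_zero hune, ← ell_star (v * (v - u)),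
    ← ell_star (u * (u - v)), hstar1, hstar2, ← hu, ← hv]
  unfold FF
  ring

end Pool.Agent.TorusL4
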