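import Pool.Agent.TorusL4.PerD

/-! The inequality for one difference `D`, in terms of the coefficients. -/

namespace Pool.Agent.TorusL4

open Quaternion

theorem normSq_double_sub {x D : ℍ[ℤ]} {n : ℤ} (hx0 : x.re = 0) (hD0 : D.re = 0)
    (hx : normSq x = n) (hxD : normSq (D - x) = n) :
    normSq (x + x - D) = 4 * n - normSq D := by
  rw [normSq_def'] at *
  rw [normSq_def'] at *
  simp only [re_sub, imI_sub, imJ_sub, imK_sub, re_add, imI_add, imJ_add, imK_add, hx0, hD0]
    at *
  linear_combination 2 * hx + 2 * hxD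

theorem dot_double_sub {x D : ℍ[ℤ]} {n : ℤ} (hx0 : x.re = 0) (hD0 : D.re = 0)
    (hx : normSq x = n) (hxD : normSq (D - x) = n) : dot D (x + x - D) = 0 := by
  rw [normSq_def'] at *
  unfold dot
  simp only [re_sub, imI_sub, imJ_sub, imK_sub, re_add, imI_add, imJ_add, imK_add, hx0, hD0]
    at *
  linear_combination hx - hxD

theorem perD (S : Finset ℍ[ℤ]) (n : ℤ) (hn : 0 < n) (a : ℍ[ℤ] → ℝ)
    (hS0 : ∀ x ∈ S, x.re = 0) (hSn : ∀ x ∈ S, normSq x = n) (haS : ∀ x, x ∉ S → a x = 0)
    (D : ℍ[ℤ]) (hD0 : D.re = 0) (hD : D ≠ 0) :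
    ∑ x ∈ S, ∑ y ∈ S, (if x = y ∨ x + y = D then 0 else
      (a x * a (D - x)) * (a y * a (D - y)) * FF (x - y) (x + y - D)) ≤
      4 * Real.log (4 * n) * ∑ x ∈ S, (a x * a (D - x)) ^ 2 := by
  classical
  have hlog : 0 ≤ Real.log (4 * (n : ℝ)) := by
    apply Real.log_nonneg
    have : (1 : ℝ) ≤ n := by exact_mod_cast hn
    linarith
  have hsq : ∀ T : Finset ℍ[ℤ], 0 ≤ ∑ x ∈ T, (a x * a (D - x)) ^ 2 :=
    fun T => Finset.sum_nonneg fun x _ => sq_nonneg _
  by_cases hdeg : ∃ x ∈ S, D - x ∈ S ∧ x + x = D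
  · obtain ⟨x0, hx0, hx0', hx0''⟩ := hdeg
    have hN : 4 * n - normSq D = 0 := by
      rw [← normSq_double_sub (hS0 x0 hx0) hD0 (hSn x0 hx0) (hSn _ hx0'), hx0'', sub_self,
        map_zero]
    have h1 : ∀ x ∈ S, D - x ∈ S → x + x = D := by
      intro x hx hx'
      have := normSq_double_sub (hS0 x hx) hD0 (hSn x hx) (hSn _ hx')
      rw [hN] at this
      exact sub_eq_zero.mp (normSq_eq_zero.mp this)
    have h2 : ∑ x ∈ S, ∑ y ∈ S, (if x = y ∨ x + y = D then 0 else
      (a x * a (D - x)) * (a y * a (D - y)) * FF (x - y) (x + y - D)) = 0 := by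
      refine Finset.sum_eq_zero fun x hx => Finset.sum_eq_zero fun y hy => ?_
      split_ifs with h
      · rfl
      · by_cases hx' : D - x ∈ S
        · by_cases hy' : D - y ∈ S
          · exfalso
            apply h
            left
            have e1 := h1 x hx hx'
            have e2 := h1 y hy hy'
            have e3 : (2 : ℤ) • x = (2 : ℤ) • y := by rw [two_smul, two_smul, e1, e2]
            exact smul_right_injective _ (two_ne_zero) e3
          · rw [haS _ hy']; ring
        · rw [haS _ hx']; ring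
    rw [h2]
    exact mul_nonneg (mul_nonneg (by norm_num) hlog) (hsq S)
  · push Not at hdeg
    set A := S.filter (fun x => D - x ∈ S) with hAdef
    have hAS : A ⊆ S := Finset.filter_subset _ _
    have hA : ∀ x ∈ A, D - x ∈ A := by
      intro x hx
      rw [hAdef, Finset.mem_filter] at hx ⊢
      exact ⟨hx.2, by rw [sub_sub_cancel]; exact hx.1⟩
    have hA2 : ∀ x ∈ A, x + x ≠ D := by
      intro x hx
      rw [hAdef, Finset.mem_filter] at hx
      exact hdeg x hx.1 hx.2
    have hAout : ∀ x ∈ S, x ∉ A → a (D - x) = 0 := by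
      intro x hx hx'
      apply haS
      intro h
      exact hx' (Finset.mem_filter.mpr ⟨hx, h⟩)
    let r : ℍ[ℤ] → ℍ[ℤ] → Prop := WellOrderingRel
    have hr1 : ∀ x y, r x y → ¬ r y x := fun x y => asymm
    have hr2 : ∀ x y, x ≠ y → r x y ∨ r y x := by
      intro x y hxy
      rcases trichotomous_of (WellOrderingRel (α := ℍ[ℤ])) x y with h | h | h
      · exact Or.inl h
      · exact absurd h hxy
      · exact Or.inr h
    set P := A.filter (fun x => r x (D - x)) with hPdef
    let t : ℍ[ℤ] → ℍ[ℤ] → ℝ := fun x y => if x = y ∨ x + y = D then 0 else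
      (a x * a (D - x)) * (a y * a (D - y)) * FF (x - y) (x + y - D)
    have tx : ∀ x y, t (D - x) y = t x y := by
      intro x y
      show (if D - x = y ∨ D - x + y = D then 0 else
        (a (D - x) * a (D - (D - x))) * (a y * a (D - y)) * FF (D - x - y) (D - x + y - D)) = _
      have e1 : (D - x = y ∨ D - x + y = D) ↔ (x = y ∨ x + y = D) := by
        constructor
        · rintro (h | h)
          · right; rw [← h]; abel
          · left
            have : D - x + y = D - x + x := by rw [h]; abel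
            exact (add_left_cancel this).symm
        · rintro (h | h)
          · right; rw [h]; abel
          · left; rw [← h]; abel
      have e2 : D - x - y = -(x + y - D) := by abel
      have e3 : D - x + y - D = -(x - y) := by abel
      rw [sub_sub_cancel, e2, e3, FF_neg, FF_symm]
      simp only [t, e1]
      split_ifs
      · rfl
      · ring
    have ty : ∀ x y, t x (D - y) = t x y := by
      intro x y
      show (if x = D - y ∨ x + (D - y) = D then 0 else
        (a x * a (D - x)) * (a (D - y) * a (D - (D - y))) *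
          FF (x - (D - y)) (x + (D - y) - D)) = _
      have e1 : (x = D - y ∨ x + (D - y) = D) ↔ (x = y ∨ x + y = D) := by
        constructor
        · rintro (h | h)
          · right; rw [h]; abel
          · left
            have : x + (D - y) = y + (D - y) := by rw [h]; abel
            exact add_right_cancel this
        · rintro (h | h)
          · right; rw [h]; abel
          · left; rw [← h]; abel
      have e2 : x - (D - y) = x + y - D := by abel
      have e3 : x + (D - y) - D = x - y := by abel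
      rw [sub_sub_cancel, e2, e3, FF_symm]
      simp only [t, e1]
      split_ifs
      · rfl
      · ring
    -- restrict to A
    have s1 : ∑ x ∈ S, ∑ y ∈ S, t x y = ∑ x ∈ A, ∑ y ∈ A, t x y := by
      have t0 : ∀ x ∈ S, x ∉ A → ∀ y, t x y = 0 := by
        intro x hx hx' y
        show (if x = y ∨ x + y = D then 0 else _) = _
        rw [hAout x hx hx']
        split_ifs
        · rfl
        · ring
      have t0' : ∀ y ∈ S, y ∉ A → ∀ x, t x y = 0 := by
        intro y hy hy' x
        show (if x = y ∨ x + y = D then 0 else _) = _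
        rw [hAout y hy hy']
        split_ifs
        · rfl
        · ring
      rw [← Finset.sum_subset hAS (fun x hx hx' => Finset.sum_eq_zero fun y _ => t0 x hx hx' y)]
      refine Finset.sum_congr rfl fun x _ => ?_
      exact (Finset.sum_subset hAS (fun y hy hy' => t0' y hy hy' x)).symm
    have s2 : ∑ x ∈ A, ∑ y ∈ A, t x y = 4 * ∑ x ∈ P, ∑ y ∈ P, t x y := by
      rw [half_sum A D hA hA2 r hr1 hr2 (fun x => ∑ y ∈ A, t x y)
        (fun x _ => Finset.sum_congr rfl fun y _ => tx x y)]
      rw [Finset.sum_congr rfl (fun x _ => half_sum A D hA hA2 r hr1 hr2 (fun y => t x y)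
        (fun y _ => ty x y)), ← Finset.mul_sum]
      ring
    have s3 : ∑ x ∈ A, (a x * a (D - x)) ^ 2 = 2 * ∑ x ∈ P, (a x * a (D - x)) ^ 2 :=
      half_sum A D hA hA2 r hr1 hr2 (fun x => (a x * a (D - x)) ^ 2)
        (fun x _ => by rw [sub_sub_cancel, mul_comm])
    have s4 : ∑ x ∈ A, (a x * a (D - x)) ^ 2 ≤ ∑ x ∈ S, (a x * a (D - x)) ^ 2 :=
      Finset.sum_le_sum_of_subset_of_nonneg hAS fun x _ _ => sq_nonneg _
    have s5 : ∑ x ∈ P, ∑ y ∈ P, t x y ≤
        2 * Real.log (4 * n) * ∑ x ∈ P, (a x * a (D - x)) ^ 2 := by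
      rcases P.eq_empty_or_nonempty with hP | ⟨x0, hx0⟩
      · rw [hP]; simp
      have hPA : ∀ x ∈ P, x ∈ S ∧ D - x ∈ S ∧ r x (D - x) := by
        intro x hx
        rw [hPdef, Finset.mem_filter, hAdef, Finset.mem_filter] at hx
        exact ⟨hx.1.1, hx.1.2, hx.2⟩
      set N : ℤ := 4 * n - normSq D with hNdef
      have hVn : ∀ x ∈ P, normSq (x + x - D) = N := fun x hx =>
        normSq_double_sub (hS0 x (hPA x hx).1) hD0 (hSn x (hPA x hx).1) (hSn _ (hPA x hx).2.1)
      have hVne : ∀ x ∈ P, x + x - D ≠ 0 := fun x hx =>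
        sub_ne_zero.mpr (hA2 x (Finset.mem_filter.mp hx).1)
      have hNpos : 0 < N := by
        rw [← hVn x0 hx0]
        exact lt_of_le_of_ne normSq_nonneg (Ne.symm (normSq_ne_zero.mpr (hVne x0 hx0)))
      have hN4 : N ≤ 4 * n := by
        have : 0 ≤ normSq D := normSq_nonneg
        omega
      have hxyD : ∀ x ∈ P, ∀ y ∈ P, x + y ≠ D := by
        intro x hx y hy h
        have e1 : D - x = y := by rw [← h]; abel
        have e2 : D - y = x := by rw [← h]; abel
        have h1 := (hPA x hx).2.2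
        have h2 := (hPA y hy).2.2
        rw [e1] at h1
        rw [e2] at h2
        exact hr1 _ _ h1 h2
      have key := plane_sym (ι := P) (fun x => (x : ℍ[ℤ]) + x - D)
        (fun x => a x * a (D - x)) N D hNpos hD0 hD
        (fun x => by
          rw [re_sub, re_add, hS0 x (hPA x x.2).1, hD0]; rfl)
        (fun x => hVn x x.2)
        (fun x => dot_double_sub (hS0 x (hPA x x.2).1) hD0 (hSn x (hPA x x.2).1)
          (hSn _ (hPA x x.2).2.1))
        (fun x y hxy h => by
          have e1 : (x : ℍ[ℤ]) + x - D + ((y : ℍ[ℤ]) + y - D) = (2 : ℤ) • ((x : ℍ[ℤ]) + y - D) := by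
            rw [two_smul]; abel
          rw [e1] at h
          exact smul_ne_zero two_ne_zero (sub_ne_zero.mpr (hxyD x x.2 y y.2)) h)
        (fun x y hxy h => by
          have e1 : (x : ℍ[ℤ]) + x - D - ((y : ℍ[ℤ]) + y - D) = (2 : ℤ) • ((x : ℍ[ℤ]) - y) := by
            rw [two_smul]; abel
          rw [e1] at h
          exact smul_ne_zero two_ne_zero (sub_ne_zero.mpr (fun h' => hxy (Subtype.ext h'))) h)
      have e1 : ∑ x ∈ P, ∑ y ∈ P, t x y = ∑ x : P, ∑ y : P, (if x = y then 0 else
          a x * a (D - x) * (a y * a (D - y)) *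
          (ell (N • (1 : ℍ[ℤ]) - ((x : ℍ[ℤ]) + x - D) * ((y : ℍ[ℤ]) + y - D))
            + ell (N • (1 : ℍ[ℤ]) + ((x : ℍ[ℤ]) + x - D) * ((y : ℍ[ℤ]) + y - D))
            - ell ((x : ℍ[ℤ]) + x - D + ((y : ℍ[ℤ]) + y - D))
            - ell ((x : ℍ[ℤ]) + x - D - ((y : ℍ[ℤ]) + y - D)))) := by
        rw [← Finset.sum_coe_sort P]
        refine Finset.sum_congr rfl fun x _ => ?_
        rw [← Finset.sum_coe_sort P]
        refine Finset.sum_congr rfl fun y _ => ?_
        show (if (x : ℍ[ℤ]) = y ∨ (x : ℍ[ℤ]) + y = D then 0 else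
          (a x * a (D - x)) * (a y * a (D - y)) * FF ((x : ℍ[ℤ]) - y) ((x : ℍ[ℤ]) + y - D)) = _
        by_cases hxy : x = y
        · rw [if_pos hxy, if_pos (Or.inl (congrArg Subtype.val hxy))]
        · have hxy' : (x : ℍ[ℤ]) ≠ y := fun h => hxy (Subtype.ext h)
          have hxy'' := hxyD x x.2 y y.2
          rw [if_neg hxy, if_neg (not_or.mpr ⟨hxy', hxy''⟩),
            FF_eq (hS0 x (hPA x x.2).1) (hS0 y (hPA y y.2).1) hD0 (hSn x (hPA x x.2).1)
              (hSn y (hPA y y.2).1) (hSn _ (hPA x x.2).2.1) (hSn _ (hPA y y.2).2.1) hNdef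
              hxy' hxy'']
      rw [e1]
      refine le_trans key ?_
      rw [mul_assoc]
      refine mul_le_mul_of_nonneg_left ?_ (by norm_num)
      rw [← Finset.sum_coe_sort P, Finset.mul_sum]
      refine Finset.sum_le_sum fun x _ => ?_
      rw [mul_comm (Real.log _)]
      refine mul_le_mul_of_nonneg_left ?_ (sq_nonneg _)
      refine le_trans (ell_le _) ?_
      apply Real.log_le_log
      · exact_mod_cast nq_pos (hVne x x.2)
      · have : (nq ((x : ℍ[ℤ]) + x - D) : ℤ) ≤ 4 * n := by
          rw [nq_cast, hVn x x.2]; exact hN4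
        exact_mod_cast this
    show ∑ x ∈ S, ∑ y ∈ S, t x y ≤ _
    rw [s1, s2]
    calc 4 * ∑ x ∈ P, ∑ y ∈ P, t x y
        ≤ 4 * (2 * Real.log (4 * n) * ∑ x ∈ P, (a x * a (D - x)) ^ 2) := by linarith
      _ = 4 * Real.log (4 * n) * ∑ x ∈ A, (a x * a (D - x)) ^ 2 := by rw [s3]; ring
      _ ≤ _ := mul_le_mul_of_nonneg_left s4 (mul_nonneg (by norm_num) hlog)

end Pool.Agent.TorusL4
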