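import Pool.Agent.TorusL4.Psd

/-! The main inequality for vectors of one length in a plane. -/

namespace Pool.Agent.TorusL4

open Quaternion

/-- Dot product of the vector parts. -/
def dot (x y : ℍ[ℤ]) : ℤ := x.imI * y.imI + x.imJ * y.imJ + x.imK * y.imK

/-- Determinant of the vector parts. -/
def det3 (a b c : ℍ[ℤ]) : ℤ :=
  a.imI * (b.imJ * c.imK - b.imK * c.imJ) - a.imJ * (b.imI * c.imK - b.imK * c.imI)
    + a.imK * (b.imI * c.imJ - b.imJ * c.imI)

theorem det3_eq_zero {D a b c : ℍ[ℤ]} (hre : D.re = 0) (hD : D ≠ 0) (ha : dot D a = 0)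
    (hb : dot D b = 0) (hc : dot D c = 0) : det3 a b c = 0 := by
  unfold dot at ha hb hc
  unfold det3
  have h1 : D.imI * (a.imI * (b.imJ * c.imK - b.imK * c.imJ) - a.imJ * (b.imI * c.imK -
      b.imK * c.imI) + a.imK * (b.imI * c.imJ - b.imJ * c.imI)) = 0 := by
    linear_combination (b.imJ * c.imK - b.imK * c.imJ) * ha + (c.imJ * a.imK - c.imK * a.imJ) * hb
      + (a.imJ * b.imK - a.imK * b.imJ) * hc
  have h2 : D.imJ * (a.imI * (b.imJ * c.imK - b.imK * c.imJ) - a.imJ * (b.imI * c.imK -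
      b.imK * c.imI) + a.imK * (b.imI * c.imJ - b.imJ * c.imI)) = 0 := by
    linear_combination (b.imK * c.imI - b.imI * c.imK) * ha + (c.imK * a.imI - c.imI * a.imK) * hb
      + (a.imK * b.imI - a.imI * b.imK) * hc
  have h3 : D.imK * (a.imI * (b.imJ * c.imK - b.imK * c.imJ) - a.imJ * (b.imI * c.imK -
      b.imK * c.imI) + a.imK * (b.imI * c.imJ - b.imJ * c.imI)) = 0 := by
    linear_combination (b.imI * c.imJ - b.imJ * c.imI) * ha + (c.imI * a.imJ - c.imJ * a.imI) * hb
      + (a.imI * b.imJ - a.imJ * b.imI) * hc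
  by_contra h
  apply hD
  ext
  · exact hre
  · exact (mul_eq_zero.mp h1).resolve_right h
  · exact (mul_eq_zero.mp h2).resolve_right h
  · exact (mul_eq_zero.mp h3).resolve_right h

theorem plane_id1 {a b c : ℍ[ℤ]} {N : ℤ} (ha0 : a.re = 0) (hb0 : b.re = 0) (hc0 : c.re = 0)
    (ha : dot a a = N) (hb : dot b b = N) (hc : dot c c = N) (hdet : det3 a b c = 0) :
    (N + dot a b) • ((a + c) * (b + c)) =
      (-(N + dot a b + dot a c + dot b c)) • (N • (1 : ℍ[ℤ]) - a * b) := by
  unfold dot at *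
  unfold det3 at hdet
  ext
  · simp only [re_smul, re_mul, re_add, imI_add, imJ_add, imK_add, re_sub, re_one, smul_eq_mul,
      ha0, hb0, hc0]
    linear_combination (-(N + (a.imI * b.imI + a.imJ * b.imJ + a.imK * b.imK))) * hc
  · simp only [imI_smul, imI_mul, re_add, imI_add, imJ_add, imK_add, imI_sub, imI_one,
      smul_eq_mul, ha0, hb0, hc0]
    linear_combination (-(a.imI + b.imI)) * hdet + (b.imJ * c.imK - b.imK * c.imJ) * ha
      - (a.imJ * c.imK - a.imK * c.imJ) * hb
  · simp only [imJ_smul, imJ_mul, re_add, imI_add, imJ_add, imK_add, imJ_sub, imJ_one,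
      smul_eq_mul, ha0, hb0, hc0]
    linear_combination (-(a.imJ + b.imJ)) * hdet + (b.imK * c.imI - b.imI * c.imK) * ha
      - (a.imK * c.imI - a.imI * c.imK) * hb
  · simp only [imK_smul, imK_mul, re_add, imI_add, imJ_add, imK_add, imK_sub, imK_one,
      smul_eq_mul, ha0, hb0, hc0]
    linear_combination (-(a.imK + b.imK)) * hdet + (b.imI * c.imJ - b.imJ * c.imI) * ha
      - (a.imI * c.imJ - a.imJ * c.imI) * hb

theorem plane_id2 {a b c : ℍ[ℤ]} {N : ℤ} (ha0 : a.re = 0) (hb0 : b.re = 0) (hc0 : c.re = 0)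
    (ha : dot a a = N) (hb : dot b b = N) (hc : dot c c = N) (hdet : det3 a b c = 0) :
    (N + dot a b) • ((a + c) * c * (b + c)) =
      (-(N * (N + dot a b + dot a c + dot b c))) • (a + b) := by
  unfold dot at *
  unfold det3 at hdet
  ext
  · simp only [re_smul, re_mul, imI_mul, imJ_mul, imK_mul, re_add, imI_add, imJ_add, imK_add,
      smul_eq_mul, ha0, hb0, hc0]
    linear_combination (N + (a.imI * b.imI + a.imJ * b.imJ + a.imK * b.imK)) * hdet
  · simp only [imI_smul, re_mul, imI_mul, imJ_mul, imK_mul, re_add, imI_add, imJ_add, imK_add,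
      smul_eq_mul, ha0, hb0, hc0]
    linear_combination (-(a.imJ * b.imK - a.imK * b.imJ)) * hdet
      + ((b.imI * b.imI + b.imJ * b.imJ + b.imK * b.imK) * c.imI
        - (b.imI * c.imI + b.imJ * c.imJ + b.imK * c.imK) * b.imI) * ha
      + (N * c.imI - (a.imI * c.imI + a.imJ * c.imJ + a.imK * c.imK) * a.imI) * hb
      - (N + (a.imI * b.imI + a.imJ * b.imJ + a.imK * b.imK)) * (a.imI + b.imI + c.imI) * hc
  · simp only [imJ_smul, re_mul, imI_mul, imJ_mul, imK_mul, re_add, imI_add, imJ_add, imK_add,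
      smul_eq_mul, ha0, hb0, hc0]
    linear_combination (-(a.imK * b.imI - a.imI * b.imK)) * hdet
      + ((b.imI * b.imI + b.imJ * b.imJ + b.imK * b.imK) * c.imJ
        - (b.imI * c.imI + b.imJ * c.imJ + b.imK * c.imK) * b.imJ) * ha
      + (N * c.imJ - (a.imI * c.imI + a.imJ * c.imJ + a.imK * c.imK) * a.imJ) * hb
      - (N + (a.imI * b.imI + a.imJ * b.imJ + a.imK * b.imK)) * (a.imJ + b.imJ + c.imJ) * hc
  · simp only [imK_smul, re_mul, imI_mul, imJ_mul, imK_mul, re_add, imI_add, imJ_add, imK_add,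
      smul_eq_mul, ha0, hb0, hc0]
    linear_combination (-(a.imI * b.imJ - a.imJ * b.imI)) * hdet
      + ((b.imI * b.imI + b.imJ * b.imJ + b.imK * b.imK) * c.imK
        - (b.imI * c.imI + b.imJ * c.imJ + b.imK * c.imK) * b.imK) * ha
      + (N * c.imK - (a.imI * c.imI + a.imJ * c.imJ + a.imK * c.imK) * a.imK) * hb
      - (N + (a.imI * b.imI + a.imJ * b.imJ + a.imK * b.imK)) * (a.imK + b.imK + c.imK) * hc

theorem dot_self_eq {a : ℍ[ℤ]} (ha : a.re = 0) : dot a a = normSq a := by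
  unfold dot
  rw [normSq_def', ha]
  ring

theorem star_pure {a : ℍ[ℤ]} (ha : a.re = 0) : star a = -a := by
  ext
  · rw [re_star, re_neg, ha, neg_zero]
  · rw [imI_star, imI_neg]
  · rw [imJ_star, imJ_neg]
  · rw [imK_star, imK_neg]

theorem mul_self_pure {a : ℍ[ℤ]} (ha : a.re = 0) : a * a = (-normSq a) • (1 : ℍ[ℤ]) := by
  ext
  · simp only [re_mul, re_smul, re_one, normSq_def', smul_eq_mul, ha]; ring
  · simp only [imI_mul, imI_smul, imI_one, smul_eq_mul, ha]; ring
  · simp only [imJ_mul, imJ_smul, imJ_one, smul_eq_mul, ha]; ring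
  · simp only [imK_mul, imK_smul, imK_one, smul_eq_mul, ha]; ring

theorem normSq_add_pure {a b : ℍ[ℤ]} {N : ℤ} (ha0 : a.re = 0) (hb0 : b.re = 0)
    (ha : normSq a = N) (hb : normSq b = N) : normSq (a + b) = 2 * (N + dot a b) := by
  rw [← dot_self_eq (by rw [re_add, ha0, hb0]; rfl)]
  rw [← dot_self_eq ha0] at ha
  rw [← dot_self_eq hb0] at hb
  unfold dot at *
  simp only [imI_add, imJ_add, imK_add]
  linear_combination ha + hb

/-- For coplanar vectors of the same length, no two of which are opposite, the kernel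
`ell (N - V V') - ell (V + V')` is negative semidefinite. -/
theorem plane_ineq {ι : Type*} (s : Finset ι) (V : ι → ℍ[ℤ]) (b : ι → ℝ) (N : ℤ) (D : ℍ[ℤ])
    (hN : 0 < N) (hD0 : D.re = 0) (hD : D ≠ 0)
    (hre : ∀ i ∈ s, (V i).re = 0) (hnorm : ∀ i ∈ s, normSq (V i) = N)
    (horth : ∀ i ∈ s, dot D (V i) = 0) (hne : ∀ i ∈ s, ∀ j ∈ s, V i + V j ≠ 0) :
    ∑ i ∈ s, ∑ j ∈ s, b i * b j *
      (ell (N • (1 : ℍ[ℤ]) - V i * V j) - ell (V i + V j)) ≤ 0 := by
  classical
  rcases s.eq_empty_or_nonempty with rfl | ⟨i0, hi0⟩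
  · simp
  obtain ⟨c, hc⟩ : ∃ c, c = V i0 := ⟨_, rfl⟩
  have hc0 : c.re = 0 := hc ▸ hre i0 hi0
  have hcN : normSq c = N := hc ▸ hnorm i0 hi0
  have hcD : dot D c = 0 := hc ▸ horth i0 hi0
  have hcne : ∀ i ∈ s, V i + c ≠ 0 := fun i hi => hc ▸ hne i hi i0 hi0
  have hc00 : c ≠ 0 := by
    rintro h
    rw [h, map_zero] at hcN
    exact hN.ne hcN
  have hstarc : star c = -c := star_pure hc0
  let z : ι × Bool → ℍ[ℤ] := fun p => if p.2 then (V p.1 + c) * c else (V p.1 + c)
  let w : ι × Bool → ℝ := fun p => if p.2 then b p.1 else - b p.1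
  have key := cnd_ell (s ×ˢ (Finset.univ : Finset Bool)) z (by
      rintro ⟨i, t⟩ hi
      rw [Finset.mem_product] at hi
      cases t
      · exact hcne i hi.1
      · exact mul_ne_zero (hcne i hi.1) hc00) w (by
      rw [Finset.sum_product]
      simp [w])
  rw [Finset.sum_product] at key
  have h2 : ∀ i ∈ s, ∀ j ∈ s, ∑ t : Bool, ∑ t' : Bool,
      w (i, t) * w (j, t') * ell (z (i, t) * star (z (j, t'))) =
      2 * (b i * b j * (ell (N • (1 : ℍ[ℤ]) - V i * V j) - ell (V i + V j))) := by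
    intro i hi j hj
    have hi0 := hre i hi
    have hj0 := hre j hj
    have hsum : (V i + c).re = 0 := by rw [re_add, hi0, hc0]; rfl
    have hsum' : (V j + c).re = 0 := by rw [re_add, hj0, hc0]; rfl
    have hr : N + dot (V i) (V j) ≠ 0 := by
      intro h
      have h3 := normSq_add_pure hi0 hj0 (hnorm i hi) (hnorm j hj)
      rw [h, mul_zero] at h3
      exact hne i hi j hj (normSq_eq_zero.mp h3)
    have hdet : det3 (V i) (V j) c = 0 :=
      det3_eq_zero hD0 hD (horth i hi) (horth j hj) hcD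
    have hA : (V i + c) * (V j + c) ≠ 0 := mul_ne_zero (hcne i hi) (hcne j hj)
    have hB : (V i + c) * c * (V j + c) ≠ 0 :=
      mul_ne_zero (mul_ne_zero (hcne i hi) hc00) (hcne j hj)
    have hdi : dot (V i) (V i) = N := by rw [dot_self_eq hi0]; exact hnorm i hi
    have hdj : dot (V j) (V j) = N := by rw [dot_self_eq hj0]; exact hnorm j hj
    have hdc : dot c c = N := by rw [dot_self_eq hc0]; exact hcN
    have id1 := plane_id1 hi0 hj0 hc0 hdi hdj hdc hdet
    have id2 := plane_id2 hi0 hj0 hc0 hdi hdj hdc hdet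
    have hne1 : N • (1 : ℍ[ℤ]) - V i * V j ≠ 0 := by
      intro h
      rw [h, smul_zero] at id1
      exact (smul_ne_zero hr hA) id1
    have e1 : ell ((V i + c) * (V j + c)) = ell (N • (1 : ℍ[ℤ]) - V i * V j) :=
      ell_prop hr hA hne1 id1
    have e2 : ell ((V i + c) * c * (V j + c)) = ell (V i + V j) :=
      ell_prop hr hB (hne i hi j hj) id2
    have f11 : (V i + c) * c * star ((V j + c) * c) = (-N) • ((V i + c) * (V j + c)) := by
      rw [star_mul, hstarc, star_pure hsum']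
      have : (V i + c) * c * (-c * -(V j + c)) = (V i + c) * (c * c) * (V j + c) := by
        rw [neg_mul_neg]; simp only [mul_assoc]
      rw [this, mul_self_pure hc0, hcN, mul_smul_comm, mul_one, smul_mul_assoc]
    have f12 : (V i + c) * c * star (V j + c) = -((V i + c) * c * (V j + c)) := by
      rw [star_pure hsum', mul_neg]
    have f21 : (V i + c) * star ((V j + c) * c) = (V i + c) * c * (V j + c) := by
      rw [star_mul, hstarc, star_pure hsum', neg_mul_neg, mul_assoc]
    have f22 : (V i + c) * star (V j + c) = -((V i + c) * (V j + c)) := by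
      rw [star_pure hsum', mul_neg]
    rw [Fintype.sum_bool, Fintype.sum_bool, Fintype.sum_bool]
    simp only [z, w, if_true, if_false, Bool.false_eq_true]
    rw [f11, f12, f21, f22, ell_neg, ell_neg, ell_smul (neg_ne_zero.mpr hN.ne') hA, e1, e2]
    ring
  have h3 : ∑ i ∈ s, ∑ t : Bool, ∑ p ∈ s ×ˢ (Finset.univ : Finset Bool),
      w (i, t) * w p * ell (z (i, t) * star (z p)) =
      2 * ∑ i ∈ s, ∑ j ∈ s, b i * b j *
        (ell (N • (1 : ℍ[ℤ]) - V i * V j) - ell (V i + V j)) := by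
    rw [Finset.mul_sum]
    refine Finset.sum_congr rfl fun i hi => ?_
    rw [Finset.mul_sum]
    have : ∀ t : Bool, ∑ p ∈ s ×ˢ (Finset.univ : Finset Bool),
        w (i, t) * w p * ell (z (i, t) * star (z p)) =
        ∑ j ∈ s, ∑ t' : Bool, w (i, t) * w (j, t') * ell (z (i, t) * star (z (j, t'))) :=
      fun t => Finset.sum_product _ _ _
    simp_rw [this]
    rw [Finset.sum_comm]
    refine Finset.sum_congr rfl fun j hj => ?_
    exact h2 i hi j hj
  rw [h3] at key
  linarith

end Pool.Agent.TorusL4
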