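import Pool.Agent.TorusL4.Basic

/-! The logarithm of the odd part of the content of `p * star q` is a positive semidefinite
kernel on primitive integer quaternions. -/

namespace Pool.Agent.TorusL4

open Quaternion

/-- The indicator of a symmetric and transitive relation is positive semidefinite. -/
theorem psd_per {ι : Type*} (s : Finset ι) (r : ι → ι → Prop) [DecidableRel r]
    (hs : ∀ i ∈ s, ∀ j ∈ s, r i j → r j i)
    (ht : ∀ i ∈ s, ∀ j ∈ s, ∀ k ∈ s, r i j → r j k → r i k) (c : ι → ℝ) :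
    0 ≤ ∑ i ∈ s, ∑ j ∈ s, if r i j then c i * c j else 0 := by
  classical
  let cls : ι → Finset ι := fun i => s.filter (r i)
  have h1 : ∑ i ∈ s, ∑ j ∈ s, (if r i j then c i * c j else 0)
      = ∑ t ∈ s.image cls, ∑ i ∈ s.filter (fun i => cls i = t), c i * ∑ j ∈ t, c j := by
    rw [← Finset.sum_fiberwise_of_maps_to (s := s) (t := s.image cls) (g := cls)
      (fun i hi => Finset.mem_image_of_mem _ hi)]
    refine Finset.sum_congr rfl fun t _ => Finset.sum_congr rfl fun i hi => ?_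
    rw [Finset.mem_filter] at hi
    rw [← hi.2, Finset.mul_sum, Finset.sum_filter]
  rw [h1]
  refine Finset.sum_nonneg fun t ht' => ?_
  rcases t.eq_empty_or_nonempty with rfl | hne
  · simp
  · obtain ⟨i, hi, rfl⟩ := Finset.mem_image.mp ht'
    have h2 : s.filter (fun k => cls k = cls i) = cls i := by
      ext k
      simp only [Finset.mem_filter]
      constructor
      · rintro ⟨hk, he⟩
        obtain ⟨j, hj⟩ := hne
        have hj' := hj
        rw [← he] at hj
        rw [Finset.mem_filter] at hj hj'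
        exact Finset.mem_filter.mpr ⟨hk, ht i hi j hj.1 k hk hj'.2 (hs k hk j hj.1 hj.2)⟩
      · intro hk
        rw [Finset.mem_filter] at hk
        refine ⟨hk.1, ?_⟩
        ext j
        simp only [cls, Finset.mem_filter]
        constructor
        · rintro ⟨hj, hkj⟩
          exact ⟨hj, ht i hi k hk.1 j hj hk.2 hkj⟩
        · rintro ⟨hj, hij⟩
          exact ⟨hj, ht k hk.1 i hi j hj (hs i hi k hk.1 hk.2) hij⟩
    rw [h2, ← Finset.sum_mul]
    exact mul_self_nonneg _

/-- Divisibility of `p * star q` by an odd number is transitive, when the middle quaternion is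
primitive. -/
theorem dvd_trans_star {d : ℕ} (hd : Odd d) {p q s : ℍ[ℤ]} (hq : ct q = 1)
    (h1 : d ∣ ct (p * star q)) (h2 : d ∣ ct (q * star s)) : d ∣ ct (p * star s) := by
  -- Bezout
  have hb : ∃ w : ℍ[ℤ], q.re * w.re + q.imI * w.imI + q.imJ * w.imJ + q.imK * w.imK = 1 := by
    have e1 := Int.gcd_eq_gcd_ab q.re q.imI
    have e2 := Int.gcd_eq_gcd_ab q.imJ q.imK
    have e3 := Int.gcd_eq_gcd_ab (Int.gcd q.re q.imI) (Int.gcd q.imJ q.imK)
    have e4 : (Int.gcd (Int.gcd q.re q.imI) (Int.gcd q.imJ q.imK) : ℤ) = 1 := by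
      have : Int.gcd (Int.gcd q.re q.imI) (Int.gcd q.imJ q.imK) = ct q := by
        unfold ct Int.gcd
        simp
      rw [this, hq]; rfl
    rw [e4] at e3
    generalize Int.gcdA (Int.gcd q.re q.imI) (Int.gcd q.imJ q.imK) = u at e3
    generalize Int.gcdB (Int.gcd q.re q.imI) (Int.gcd q.imJ q.imK) = v at e3
    obtain ⟨w, h1, h2, h3, h4⟩ : ∃ w : ℍ[ℤ], w.re = Int.gcdA q.re q.imI * u ∧
        w.imI = Int.gcdB q.re q.imI * u ∧ w.imJ = Int.gcdA q.imJ q.imK * v ∧
        w.imK = Int.gcdB q.imJ q.imK * v := ⟨⟨_, _, _, _⟩, rfl, rfl, rfl, rfl⟩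
    refine ⟨w, ?_⟩
    rw [h1, h2, h3, h4]
    linear_combination (-1) * e3 - u * e1 - v * e2
  obtain ⟨w, hw⟩ := hb
  obtain ⟨e, he⟩ := hd
  -- identity 2 p sbar = (p qbar) w sbar + p wbar (q sbar)
  have hid : (2 : ℤ) • (p * star s) =
      (p * star q) * (w * star s) + (p * star w) * (q * star s) := by
    have h3 : star q * w + star w * q = (2 : ℤ) • (1 : ℍ[ℤ]) := by
      ext
      · simp only [re_add, re_mul, re_star, imI_star, imJ_star, imK_star, re_smul, re_one,
          smul_eq_mul]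
        linarith
      · simp only [imI_add, imI_mul, re_star, imI_star, imJ_star, imK_star, imI_smul, imI_one,
          smul_eq_mul]
        ring
      · simp only [imJ_add, imJ_mul, re_star, imI_star, imJ_star, imK_star, imJ_smul, imJ_one,
          smul_eq_mul]
        ring
      · simp only [imK_add, imK_mul, re_star, imI_star, imJ_star, imK_star, imK_smul, imK_one,
          smul_eq_mul]
        ring
    calc (2 : ℤ) • (p * star s) = p * ((2 : ℤ) • (1 : ℍ[ℤ])) * star s := by
          rw [mul_smul_comm, mul_one, smul_mul_assoc]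
      _ = p * (star q * w + star w * q) * star s := by rw [h3]
      _ = _ := by rw [mul_add, add_mul]; simp only [mul_assoc]
  rw [dvd_ct_iff] at h1 h2 ⊢
  obtain ⟨a1, a2, a3, a4⟩ := h1
  obtain ⟨b1, b2, b3, b4⟩ := h2
  have hcop : IsCoprime (d : ℤ) 2 := ⟨1, -e, by rw [he]; push_cast; ring⟩
  have key : ∀ x y : ℤ, (2 : ℤ) * x = y → (d : ℤ) ∣ y → (d : ℤ) ∣ x := by
    intro x y hxy hy
    rw [← hxy] at hy
    exact hcop.dvd_of_dvd_mul_left hy
  refine ⟨key _ _ (congrArg QuaternionAlgebra.re hid) ?_,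
    key _ _ (congrArg QuaternionAlgebra.imI hid) ?_,
    key _ _ (congrArg QuaternionAlgebra.imJ hid) ?_,
    key _ _ (congrArg QuaternionAlgebra.imK hid) ?_⟩
  · rw [re_add, re_mul (p * star q), re_mul (p * star w)]
    exact dvd_add
      (dvd_sub (dvd_sub (dvd_sub (a1.mul_right _) (a2.mul_right _)) (a3.mul_right _))
        (a4.mul_right _))
      (dvd_sub (dvd_sub (dvd_sub (b1.mul_left _) (b2.mul_left _)) (b3.mul_left _))
        (b4.mul_left _))
  · rw [imI_add, imI_mul (p * star q), imI_mul (p * star w)]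
    exact dvd_add
      (dvd_sub (dvd_add (dvd_add (a1.mul_right _) (a2.mul_right _)) (a3.mul_right _))
        (a4.mul_right _))
      (dvd_sub (dvd_add (dvd_add (b2.mul_left _) (b1.mul_left _)) (b4.mul_left _))
        (b3.mul_left _))
  · rw [imJ_add, imJ_mul (p * star q), imJ_mul (p * star w)]
    exact dvd_add
      (dvd_add (dvd_add (dvd_sub (a1.mul_right _) (a2.mul_right _)) (a3.mul_right _))
        (a4.mul_right _))
      (dvd_add (dvd_add (dvd_sub (b3.mul_left _) (b4.mul_left _)) (b1.mul_left _))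
        (b2.mul_left _))
  · rw [imK_add, imK_mul (p * star q), imK_mul (p * star w)]
    exact dvd_add
      (dvd_add (dvd_sub (dvd_add (a1.mul_right _) (a2.mul_right _)) (a3.mul_right _))
        (a4.mul_right _))
      (dvd_add (dvd_sub (dvd_add (b4.mul_left _) (b3.mul_left _)) (b2.mul_left _))
        (b1.mul_left _))

theorem lodd_two_pow (k : ℕ) : lodd (2 ^ k) = 0 := by
  unfold lodd
  have : Fact (Nat.Prime 2) := ⟨Nat.prime_two⟩
  rw [padicValNat.prime_pow]
  push_cast
  rw [Real.log_pow]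
  ring

theorem lodd_odd {m : ℕ} (h : Odd m) : lodd m = Real.log m := by
  unfold lodd
  have h2 : ¬ 2 ∣ m := by
    rw [← even_iff_two_dvd, Nat.not_even_iff_odd]; exact h
  rw [padicValNat.eq_zero_of_not_dvd h2]
  simp

/-- The logarithm of the odd part is the sum of the von Mangoldt function over odd divisors. -/
theorem lodd_eq_sum {m B : ℕ} (hm : m ≠ 0) (hB : m < B) :
    lodd m = ∑ d ∈ Finset.range B,
      if Odd d ∧ d ∣ m then ArithmeticFunction.vonMangoldt d else 0 := by
  obtain ⟨k, m', hodd, rfl⟩ := Nat.exists_eq_two_pow_mul_odd hm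
  have hm' : m' ≠ 0 := by rintro rfl; simp at hm
  rw [lodd_mul (by positivity) hm', lodd_two_pow, zero_add, lodd_odd hodd,
    ← ArithmeticFunction.vonMangoldt_sum, ← Finset.sum_filter]
  refine Finset.sum_congr ?_ fun _ _ => rfl
  ext d
  simp only [Nat.mem_divisors, Finset.mem_filter, Finset.mem_range]
  constructor
  · rintro ⟨h1, _⟩
    refine ⟨lt_of_le_of_lt ?_ hB, Odd.of_dvd_nat hodd h1, h1.mul_left _⟩
    exact Nat.le_of_dvd (Nat.pos_of_ne_zero hm) (h1.mul_left _)
  · rintro ⟨_, h1, h2⟩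
    refine ⟨?_, hm'⟩
    have hc : Nat.Coprime d (2 ^ k) := by
      apply Nat.Coprime.pow_right
      exact (Nat.coprime_two_right).mpr h1
    exact hc.dvd_of_dvd_mul_left h2

/-- The kernel `log (odd part of the content of p * star q)` is positive semidefinite on
primitive quaternions. -/
theorem psd_lodd {ι : Type*} (s : Finset ι) (p : ι → ℍ[ℤ]) (hp : ∀ i ∈ s, ct (p i) = 1)
    (c : ι → ℝ) :
    0 ≤ ∑ i ∈ s, ∑ j ∈ s, c i * c j * lodd (ct (p i * star (p j))) := by
  classical
  have hne : ∀ i ∈ s, p i ≠ 0 := by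
    intro i hi h
    have := hp i hi
    rw [h, ct_zero] at this
    exact zero_ne_one this
  obtain ⟨B, hB⟩ : ∃ B : ℕ, ∀ i ∈ s, ∀ j ∈ s, ct (p i * star (p j)) < B := by
    refine ⟨(∑ i ∈ s, ∑ j ∈ s, ct (p i * star (p j))) + 1, fun i hi j hj => ?_⟩
    rw [Nat.lt_succ_iff]
    calc ct (p i * star (p j)) ≤ ∑ j ∈ s, ct (p i * star (p j)) :=
          Finset.single_le_sum (f := fun j => ct (p i * star (p j))) (fun _ _ => Nat.zero_le _) hj
      _ ≤ _ := Finset.single_le_sum (f := fun i => ∑ j ∈ s, ct (p i * star (p j)))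
          (fun _ _ => Nat.zero_le _) hi
  have h1 : ∑ i ∈ s, ∑ j ∈ s, c i * c j * lodd (ct (p i * star (p j)))
      = ∑ d ∈ Finset.range B, ∑ i ∈ s, ∑ j ∈ s,
        (if Odd d ∧ d ∣ ct (p i * star (p j)) then c i * c j else 0)
          * ArithmeticFunction.vonMangoldt d := by
    rw [Finset.sum_comm (s := Finset.range B)]
    refine Finset.sum_congr rfl fun i hi => ?_
    rw [Finset.sum_comm (s := Finset.range B)]
    refine Finset.sum_congr rfl fun j hj => ?_
    rw [lodd_eq_sum (ct_pos (mul_ne_zero (hne i hi) (star_ne_zero.mpr (hne j hj)))).ne'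
      (hB i hi j hj), Finset.mul_sum]
    refine Finset.sum_congr rfl fun d _ => ?_
    split_ifs <;> ring
  rw [h1]
  refine Finset.sum_nonneg fun d _ => ?_
  simp_rw [← Finset.sum_mul]
  refine mul_nonneg ?_ ArithmeticFunction.vonMangoldt_nonneg
  refine psd_per s (fun i j => Odd d ∧ d ∣ ct (p i * star (p j))) ?_ ?_ c
  · rintro i _ j _ ⟨h, h'⟩
    refine ⟨h, ?_⟩
    rw [← ct_star, star_mul, star_star] at h'
    exact h'
  · rintro i _ j hj k _ ⟨h, h'⟩ ⟨_, h''⟩
    exact ⟨h, dvd_trans_star h (hp j hj) h' h''⟩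

/-- Conditional negative definiteness of `ell (z * star w)`. -/
theorem cnd_ell {ι : Type*} (s : Finset ι) (z : ι → ℍ[ℤ]) (hz : ∀ i ∈ s, z i ≠ 0)
    (c : ι → ℝ) (hc : ∑ i ∈ s, c i = 0) :
    ∑ i ∈ s, ∑ j ∈ s, c i * c j * ell (z i * star (z j)) ≤ 0 := by
  classical
  have hex : ∀ i, ∃ p : ℍ[ℤ], i ∈ s → ct p = 1 ∧ z i = (ct (z i) : ℤ) • p := by
    intro i
    by_cases hi : i ∈ s
    · obtain ⟨p, hp⟩ := exists_prim (hz i hi)
      exact ⟨p, fun _ => hp⟩
    · exact ⟨0, fun h => absurd h hi⟩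
  choose p hp using hex
  have hne : ∀ i ∈ s, p i ≠ 0 := by
    intro i hi h
    have := (hp i hi).1
    rw [h, ct_zero] at this
    exact zero_ne_one this
  have h1 : ∀ i ∈ s, ∀ j ∈ s, ell (z i * star (z j)) =
      lodd (nq (p i)) + lodd (nq (p j)) - 2 * lodd (ct (p i * star (p j))) := by
    intro i hi j hj
    rw [← ell_mul_star (hne i hi) (hne j hj)]
    have hi' : (ct (z i) : ℤ) ≠ 0 := by exact_mod_cast (ct_pos (hz i hi)).ne'
    have hj' : (ct (z j) : ℤ) ≠ 0 := by exact_mod_cast (ct_pos (hz j hj)).ne'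
    have h2 : z i * star (z j) = (ct (z i) * ct (z j) : ℤ) • (p i * star (p j)) := by
      conv_lhs => rw [(hp i hi).2, (hp j hj).2, Quaternion.star_smul, smul_mul_smul_comm]
    rw [h2, ell_smul (mul_ne_zero hi' hj')
      (mul_ne_zero (hne i hi) (star_ne_zero.mpr (hne j hj)))]
  have h2 : ∑ i ∈ s, ∑ j ∈ s, c i * c j * ell (z i * star (z j)) =
      (∑ i ∈ s, c i * lodd (nq (p i))) * (∑ j ∈ s, c j)
      + (∑ i ∈ s, c i) * (∑ j ∈ s, c j * lodd (nq (p j)))
      - 2 * ∑ i ∈ s, ∑ j ∈ s, c i * c j * lodd (ct (p i * star (p j))) := by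
    rw [Finset.sum_mul_sum, Finset.sum_mul_sum, Finset.mul_sum, ← Finset.sum_add_distrib,
      ← Finset.sum_sub_distrib]
    refine Finset.sum_congr rfl fun i hi => ?_
    rw [Finset.mul_sum, ← Finset.sum_add_distrib, ← Finset.sum_sub_distrib]
    refine Finset.sum_congr rfl fun j hj => ?_
    rw [h1 i hi j hj]
    ring
  rw [h2, hc]
  have h3 := psd_lodd s p (fun i hi => (hp i hi).1) c
  linarith

end Pool.Agent.TorusL4
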