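import Pool.Agent.TorusL4.Plane

/-! Averaging over signs. -/

namespace Pool.Agent.TorusL4

open Quaternion

theorem sign_avg {ι : Type*} [Fintype ι] [DecidableEq ι] (b : ι → ℝ) (g : ι → ι → ℤˣ → ℝ)
    (h : ∀ σ : ι → ℤˣ, ∑ i, ∑ j, b i * b j * g i j (σ i * σ j) ≤ 0) :
    ∑ i, ∑ j, (if i = j then 2 * (b i * b i * g i i 1)
      else b i * b j * (g i j 1 + g i j (-1))) ≤ 0 := by
  have h1 : ∑ σ : ι → ℤˣ, ∑ i, ∑ j, b i * b j * g i j (σ i * σ j) ≤ 0 :=
    Finset.sum_nonpos fun σ _ => h σ
  rw [Finset.sum_comm] at h1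
  have h2 : ∀ i, ∑ σ : ι → ℤˣ, ∑ j, b i * b j * g i j (σ i * σ j) =
      (Fintype.card (ι → ℤˣ) : ℝ) / 2 * ∑ j, (if i = j then 2 * (b i * b i * g i i 1)
      else b i * b j * (g i j 1 + g i j (-1))) := by
    intro i
    rw [Finset.sum_comm, Finset.mul_sum]
    refine Finset.sum_congr rfl fun j _ => ?_
    split_ifs with hij
    · subst hij
      have : ∀ σ : ι → ℤˣ, b i * b i * g i i (σ i * σ i) = b i * b i * g i i 1 := by
        intro σ; rw [Int.units_mul_self]
      rw [Finset.sum_congr rfl (fun σ _ => this σ), Finset.sum_const, Finset.card_univ,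
        nsmul_eq_mul]
      ring
    · -- involution
      let δ : ι → ℤˣ := fun k => if k = i then -1 else 1
      have h3 : ∑ σ : ι → ℤˣ, b i * b j * g i j (σ i * σ j) =
          ∑ σ : ι → ℤˣ, b i * b j * g i j (-(σ i * σ j)) := by
        rw [← Equiv.sum_comp (Equiv.mulRight δ)]
        refine Finset.sum_congr rfl fun σ _ => ?_
        have h4 : δ i = -1 := if_pos rfl
        have h5 : δ j = 1 := if_neg (fun h => hij h.symm)
        simp only [Equiv.coe_mulRight, Pi.mul_apply, h4, h5, mul_one, mul_neg, neg_mul]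
      have h6 : 2 * ∑ σ : ι → ℤˣ, b i * b j * g i j (σ i * σ j) =
          (Fintype.card (ι → ℤˣ) : ℝ) * (b i * b j * (g i j 1 + g i j (-1))) := by
        rw [two_mul]
        nth_rewrite 2 [h3]
        rw [← Finset.sum_add_distrib]
        have : ∀ σ : ι → ℤˣ, b i * b j * g i j (σ i * σ j) + b i * b j * g i j (-(σ i * σ j)) =
            b i * b j * (g i j 1 + g i j (-1)) := by
          intro σ
          rcases Int.units_eq_one_or (σ i * σ j) with h7 | h7
          · rw [h7]; ring
          · rw [h7, neg_neg]; ring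
        rw [Finset.sum_congr rfl (fun σ _ => this σ), Finset.sum_const, Finset.card_univ,
          nsmul_eq_mul]
      linarith
  rw [Finset.sum_congr rfl (fun i _ => h2 i), ← Finset.mul_sum] at h1
  have h3 : (0 : ℝ) < (Fintype.card (ι → ℤˣ) : ℝ) / 2 := by
    have : 0 < Fintype.card (ι → ℤˣ) := Fintype.card_pos
    positivity
  exact nonpos_of_mul_nonpos_right h1 h3

/-- The symmetrised inequality. -/
theorem plane_sym {ι : Type*} [Fintype ι] [DecidableEq ι] (V : ι → ℍ[ℤ]) (b : ι → ℝ) (N : ℤ)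
    (D : ℍ[ℤ]) (hN : 0 < N) (hD0 : D.re = 0) (hD : D ≠ 0)
    (hre : ∀ i, (V i).re = 0) (hnorm : ∀ i, normSq (V i) = N)
    (horth : ∀ i, dot D (V i) = 0) (hne : ∀ i j, i ≠ j → V i + V j ≠ 0)
    (hne' : ∀ i j, i ≠ j → V i - V j ≠ 0) :
    ∑ i, ∑ j, (if i = j then 0 else b i * b j *
      (ell (N • (1 : ℍ[ℤ]) - V i * V j) + ell (N • (1 : ℍ[ℤ]) + V i * V j)
        - ell (V i + V j) - ell (V i - V j))) ≤ 2 * ∑ i, b i ^ 2 * ell (V i) := by
  have hV : ∀ i, V i ≠ 0 := by
    intro i h
    have := hnorm i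
    rw [h, map_zero] at this
    exact hN.ne this
  let g : ι → ι → ℤˣ → ℝ := fun i j τ =>
    ell (N • (1 : ℍ[ℤ]) - (τ : ℤ) • (V i * V j)) - ell (V i + (τ : ℤ) • V j)
  have key := sign_avg b g (by
    intro σ
    have hun : ∀ i, ((σ i : ℤˣ) : ℤ) * (σ i : ℤ) = 1 := by
      intro i
      rw [← Units.val_mul, Int.units_mul_self, Units.val_one]
    have hunne : ∀ i, ((σ i : ℤˣ) : ℤ) ≠ 0 := by
      intro i h
      have := hun i
      rw [h] at this
      simp at this
    have h1 := plane_ineq (Finset.univ : Finset ι) (fun i => (σ i : ℤ) • V i) b N D hN hD0 hD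
      (fun i _ => by rw [re_smul, hre i, smul_zero])
      (fun i _ => by
        rw [normSq_smul, hnorm i, pow_two, hun i, one_mul])
      (fun i _ => by
        have := horth i
        unfold dot at this ⊢
        simp only [imI_smul, imJ_smul, imK_smul, smul_eq_mul]
        linear_combination (σ i : ℤ) * this)
      (fun i _ j _ h => by
        by_cases hij : i = j
        · subst hij
          rw [← two_smul ℤ, smul_smul] at h
          exact smul_ne_zero (mul_ne_zero two_ne_zero (hunne i)) (hV i) h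
        · rcases Int.units_eq_one_or (σ i) with h1 | h1 <;>
            rcases Int.units_eq_one_or (σ j) with h2 | h2
          · rw [h1, h2] at h
            simp only [Units.val_one, one_smul] at h
            exact hne i j hij h
          · rw [h1, h2] at h
            simp only [Units.val_one, one_smul, Units.val_neg, neg_smul] at h
            exact hne' i j hij (by rw [sub_eq_add_neg]; exact h)
          · rw [h1, h2] at h
            simp only [Units.val_one, one_smul, Units.val_neg, neg_smul] at h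
            exact hne' i j hij (by
              have : V i - V j = -(-V i + V j) := by abel
              rw [this, h, neg_zero])
          · rw [h1, h2] at h
            simp only [Units.val_one, one_smul, Units.val_neg, neg_smul] at h
            exact hne i j hij (by
              have : V i + V j = -(-V i + -V j) := by abel
              rw [this, h, neg_zero]))
    refine le_trans (le_of_eq ?_) h1
    refine Finset.sum_congr rfl fun i _ => Finset.sum_congr rfl fun j _ => ?_
    congr 1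
    show ell (N • (1 : ℍ[ℤ]) - ((σ i * σ j : ℤˣ) : ℤ) • (V i * V j))
      - ell (V i + ((σ i * σ j : ℤˣ) : ℤ) • V j) =
      ell (N • (1 : ℍ[ℤ]) - ((σ i : ℤ) • V i) * ((σ j : ℤ) • V j))
      - ell ((σ i : ℤ) • V i + (σ j : ℤ) • V j)
    rw [smul_mul_smul_comm, Units.val_mul]
    congr 1
    have e1 : (σ i : ℤ) • V i + (σ j : ℤ) • V j =
        (σ i : ℤ) • (V i + ((σ i : ℤ) * (σ j : ℤ)) • V j) := by
      rw [smul_add, smul_smul, ← mul_assoc, hun i, one_mul]
    rw [e1]
    rcases Int.units_eq_one_or (σ i) with h2 | h2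
    · rw [h2]; simp only [Units.val_one, one_smul]
    · rw [h2]; simp only [Units.val_neg, Units.val_one, neg_smul, one_smul]; rw [ell_neg])
  have h2 : ∀ i, g i i 1 = - ell (V i) := by
    intro i
    show ell (N • (1 : ℍ[ℤ]) - ((1 : ℤˣ) : ℤ) • (V i * V i)) - ell (V i + ((1 : ℤˣ) : ℤ) • V i) = _
    rw [Units.val_one, one_smul, one_smul, mul_self_pure (hre i), hnorm i]
    have e1 : N • (1 : ℍ[ℤ]) - (-N) • (1 : ℍ[ℤ]) = (2 * N) • (1 : ℍ[ℤ]) := by
      rw [← sub_smul]; congr 1; ring
    have e2 : V i + V i = (2 : ℤ) • V i := (two_smul ℤ (V i)).symm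
    rw [e1, e2, ell_smul (mul_ne_zero two_ne_zero hN.ne') one_ne_zero,
      ell_smul two_ne_zero (hV i)]
    have e3 : ell (1 : ℍ[ℤ]) = 0 := by
      unfold ell
      have : nq (1 : ℍ[ℤ]) = 1 := by unfold nq; rw [map_one]; rfl
      have h' : ct (1 : ℍ[ℤ]) = 1 := by
        unfold ct
        rw [re_one]; simp
      rw [this, h', lodd_one]; ring
    rw [e3]; ring
  have h3 : ∀ i j, g i j 1 + g i j (-1) =
      ell (N • (1 : ℍ[ℤ]) - V i * V j) + ell (N • (1 : ℍ[ℤ]) + V i * V j)
        - ell (V i + V j) - ell (V i - V j) := by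
    intro i j
    show ell (N • (1 : ℍ[ℤ]) - ((1 : ℤˣ) : ℤ) • (V i * V j))
      - ell (V i + ((1 : ℤˣ) : ℤ) • V j) + (ell (N • (1 : ℍ[ℤ]) - ((-1 : ℤˣ) : ℤ) • (V i * V j))
      - ell (V i + ((-1 : ℤˣ) : ℤ) • V j)) = _
    rw [Units.val_neg, Units.val_one, neg_smul, neg_smul, one_smul, one_smul, sub_neg_eq_add,
      ← sub_eq_add_neg]
    ring
  have h4 : ∑ i, ∑ j, (if i = j then 2 * (b i * b i * g i i 1)
      else b i * b j * (g i j 1 + g i j (-1))) =
      ∑ i, ∑ j, (if i = j then 0 else b i * b j *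
      (ell (N • (1 : ℍ[ℤ]) - V i * V j) + ell (N • (1 : ℍ[ℤ]) + V i * V j)
        - ell (V i + V j) - ell (V i - V j))) - 2 * ∑ i, b i ^ 2 * ell (V i) := by
    rw [Finset.mul_sum, ← Finset.sum_sub_distrib]
    refine Finset.sum_congr rfl fun i _ => ?_
    have h5 : 2 * (b i ^ 2 * ell (V i)) = ∑ j, if i = j then 2 * (b i ^ 2 * ell (V i)) else 0 := by
      rw [Finset.sum_ite_eq]; simp
    rw [h5, ← Finset.sum_sub_distrib]
    refine Finset.sum_congr rfl fun j _ => ?_
    split_ifs with hij
    · rw [h2 i]; ring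
    · rw [h3 i j]; ring
  rw [h4] at key
  linarith

end Pool.Agent.TorusL4
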