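import Mathlib

/-! Exponential sums on the torus, represented by the cube `[0, 2π]^3`. -/

namespace Pool.Agent.TorusL4

open MeasureTheory

/-- The fundamental cube of the torus. -/
def cube : Set (Fin 3 → ℝ) := Set.pi Set.univ fun _ => Set.Icc 0 (2 * Real.pi)

/-- The exponential with frequency `k`. -/
noncomputable def ex (k : Fin 3 → ℤ) (x : Fin 3 → ℝ) : ℂ :=
  Complex.exp (Complex.I * ∑ i, (k i : ℂ) * (x i : ℂ))

theorem ex_add (k l : Fin 3 → ℤ) (x : Fin 3 → ℝ) : ex (k + l) x = ex k x * ex l x := by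
  unfold ex
  rw [← Complex.exp_add, ← mul_add, ← Finset.sum_add_distrib]
  congr 2
  refine Finset.sum_congr rfl fun i _ => ?_
  rw [Pi.add_apply]; push_cast; ring

theorem ex_zero (x : Fin 3 → ℝ) : ex 0 x = 1 := by
  unfold ex; simp

theorem ex_conj (k : Fin 3 → ℤ) (x : Fin 3 → ℝ) :
    (starRingEnd ℂ) (ex k x) = ex (-k) x := by
  unfold ex
  rw [← Complex.exp_conj]
  congr 1
  simp only [map_mul, Complex.conj_I, map_sum, Complex.conj_ofReal, map_intCast, Pi.neg_apply,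
    Int.cast_neg, neg_mul, Finset.sum_neg_distrib, mul_neg]

theorem ex_norm (k : Fin 3 → ℤ) (x : Fin 3 → ℝ) : ‖ex k x‖ = 1 := by
  unfold ex
  have : Complex.I * ∑ i, (k i : ℂ) * (x i : ℂ) = ((∑ i, (k i : ℝ) * x i : ℝ) : ℂ) * Complex.I := by
    push_cast; ring
  rw [this, Complex.norm_exp_ofReal_mul_I]

theorem ex_cont (k : Fin 3 → ℤ) : Continuous (ex k) := by
  unfold ex; fun_prop

theorem cube_compact : IsCompact cube := isCompact_univ_pi fun _ => isCompact_Icc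

theorem cont_int {E : Type*} [NormedAddCommGroup E] {f : (Fin 3 → ℝ) → E}
    (hf : Continuous f) : IntegrableOn f cube :=
  hf.continuousOn.integrableOn_compact cube_compact

theorem int_one_dim (m : ℤ) :
    ∫ t in Set.Icc (0 : ℝ) (2 * Real.pi), Complex.exp (Complex.I * ((m : ℂ) * (t : ℂ))) =
      if m = 0 then ((2 * Real.pi : ℝ) : ℂ) else 0 := by
  have h2 : (0 : ℝ) ≤ 2 * Real.pi := by positivity
  rw [integral_Icc_eq_integral_Ioc, ← intervalIntegral.integral_of_le h2]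
  split_ifs with hm
  · subst hm
    simp
  · have hc : Complex.I * (m : ℂ) ≠ 0 := mul_ne_zero Complex.I_ne_zero (by exact_mod_cast hm)
    have h3 : ∀ t : ℝ, Complex.exp (Complex.I * ((m : ℂ) * (t : ℂ))) =
        Complex.exp ((Complex.I * (m : ℂ)) * (t : ℂ)) := by
      intro t; rw [mul_assoc]
    simp_rw [h3]
    rw [integral_exp_mul_complex hc]
    have h4 : Complex.exp (Complex.I * (m : ℂ) * ((2 * Real.pi : ℝ) : ℂ)) = 1 := by
      rw [Complex.exp_eq_one_iff]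
      exact ⟨m, by push_cast; ring⟩
    rw [h4]
    simp

theorem int_ex (k : Fin 3 → ℤ) :
    ∫ x in cube, ex k x = if k = 0 then (((2 * Real.pi) ^ 3 : ℝ) : ℂ) else 0 := by
  have h1 : ∀ x : Fin 3 → ℝ, ex k x =
      ∏ i, Complex.exp (Complex.I * ((k i : ℂ) * (x i : ℂ))) := by
    intro x
    unfold ex
    rw [Finset.mul_sum, Complex.exp_sum]
  simp_rw [h1]
  have h2 : (volume : Measure (Fin 3 → ℝ)).restrict cube =
      Measure.pi (fun _ : Fin 3 => (volume : Measure ℝ).restrict (Set.Icc 0 (2 * Real.pi))) := by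
    unfold cube
    rw [volume_pi, Measure.restrict_pi_pi]
  rw [h2, integral_fintype_prod_eq_prod (𝕜 := ℂ)
    (fun i t => Complex.exp (Complex.I * ((k i : ℂ) * ((t : ℝ) : ℂ))))]
  rw [Finset.prod_congr rfl (fun i _ => int_one_dim (k i))]
  split_ifs with hk
  · subst hk
    simp
  · obtain ⟨i, hi⟩ := Function.ne_iff.mp hk
    exact Finset.prod_eq_zero (Finset.mem_univ i) (if_neg hi)

/-- The general formula for the integral of the square of an exponential sum. -/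
theorem int_sq {ι : Type*} (s : Finset ι) (φ : ι → Fin 3 → ℤ) (b : ι → ℂ) :
    ((∫ x in cube, ‖∑ i ∈ s, b i * ex (φ i) x‖ ^ 2 : ℝ) : ℂ) =
      (((2 * Real.pi) ^ 3 : ℝ) : ℂ) *
        ∑ i ∈ s, ∑ j ∈ s, if φ i = φ j then b i * (starRingEnd ℂ) (b j) else 0 := by
  rw [← integral_complex_ofReal]
  have h1 : ∀ x : Fin 3 → ℝ, ((‖∑ i ∈ s, b i * ex (φ i) x‖ ^ 2 : ℝ) : ℂ) =
      ∑ i ∈ s, ∑ j ∈ s, b i * (starRingEnd ℂ) (b j) * ex (φ i - φ j) x := by
    intro x
    have : ((‖∑ i ∈ s, b i * ex (φ i) x‖ ^ 2 : ℝ) : ℂ) =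
        (∑ i ∈ s, b i * ex (φ i) x) * (starRingEnd ℂ) (∑ i ∈ s, b i * ex (φ i) x) := by
      rw [Complex.mul_conj, Complex.normSq_eq_norm_sq]
    rw [this, map_sum, Finset.sum_mul_sum]
    refine Finset.sum_congr rfl fun i _ => Finset.sum_congr rfl fun j _ => ?_
    rw [map_mul, ex_conj, sub_eq_add_neg, ex_add]
    ring
  simp_rw [h1]
  rw [integral_finsetSum _ (fun i _ => ?_)]
  · rw [Finset.mul_sum]
    refine Finset.sum_congr rfl fun i _ => ?_
    rw [integral_finsetSum _ (fun j _ => ?_)]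
    · rw [Finset.mul_sum]
      refine Finset.sum_congr rfl fun j _ => ?_
      rw [integral_const_mul, int_ex]
      simp only [sub_eq_zero]
      split_ifs <;> ring
    · exact cont_int (continuous_const.mul (ex_cont _))
  · exact cont_int (continuous_finsetSum _ fun j _ => continuous_const.mul (ex_cont _))

theorem int_L2 (s : Finset (Fin 3 → ℤ)) (c : (Fin 3 → ℤ) → ℂ) :
    ∫ x in cube, ‖∑ k ∈ s, c k * ex k x‖ ^ 2 = (2 * Real.pi) ^ 3 * ∑ k ∈ s, ‖c k‖ ^ 2 := by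
  have h := int_sq s (fun k => k) c
  have h2 : ∑ i ∈ s, ∑ j ∈ s, (if i = j then c i * (starRingEnd ℂ) (c j) else 0) =
      ((∑ k ∈ s, ‖c k‖ ^ 2 : ℝ) : ℂ) := by
    push_cast
    refine Finset.sum_congr rfl fun i hi => ?_
    rw [Finset.sum_ite_eq, if_pos hi, Complex.mul_conj, Complex.normSq_eq_norm_sq]
    push_cast; rfl
  rw [h2, ← Complex.ofReal_mul] at h
  exact_mod_cast h

/-- The additive energy with weights. -/
noncomputable def EV (s : Finset (Fin 3 → ℤ)) (c : (Fin 3 → ℤ) → ℂ) : ℝ :=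
  ∑ k ∈ s, ∑ l ∈ s, ∑ k' ∈ s, ∑ l' ∈ s,
    if k + l = k' + l' then ‖c k‖ * ‖c l‖ * (‖c k'‖ * ‖c l'‖) else 0

theorem int_L4 (s : Finset (Fin 3 → ℤ)) (c : (Fin 3 → ℤ) → ℂ) :
    ∫ x in cube, ‖∑ k ∈ s, c k * ex k x‖ ^ 4 ≤ (2 * Real.pi) ^ 3 * EV s c := by
  have h := int_sq (s ×ˢ s) (fun p => p.1 + p.2) (fun p => c p.1 * c p.2)
  have h1 : ∀ x, ‖∑ k ∈ s, c k * ex k x‖ ^ 4 =
      ‖∑ p ∈ s ×ˢ s, c p.1 * c p.2 * ex (p.1 + p.2) x‖ ^ 2 := by
    intro x
    have : ∑ p ∈ s ×ˢ s, c p.1 * c p.2 * ex (p.1 + p.2) x =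
        (∑ k ∈ s, c k * ex k x) * (∑ k ∈ s, c k * ex k x) := by
      rw [Finset.sum_mul_sum, Finset.sum_product]
      refine Finset.sum_congr rfl fun i _ => Finset.sum_congr rfl fun j _ => ?_
      rw [ex_add]; ring
    rw [this, norm_mul]; ring
  simp_rw [h1]
  have h2 : ∫ x in cube, ‖∑ p ∈ s ×ˢ s, c p.1 * c p.2 * ex (p.1 + p.2) x‖ ^ 2 ≤
      ‖((∫ x in cube, ‖∑ p ∈ s ×ˢ s, c p.1 * c p.2 * ex (p.1 + p.2) x‖ ^ 2 : ℝ) : ℂ)‖ := by
    rw [Complex.norm_real]; exact le_abs_self _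
  refine le_trans h2 ?_
  rw [h, norm_mul, Complex.norm_real, Real.norm_of_nonneg (by positivity)]
  refine mul_le_mul_of_nonneg_left ?_ (by positivity)
  refine le_trans (norm_sum_le _ _) ?_
  unfold EV
  rw [Finset.sum_product]
  refine Finset.sum_le_sum fun k _ => Finset.sum_le_sum fun l _ => ?_
  refine le_trans (norm_sum_le _ _) ?_
  rw [Finset.sum_product]
  refine Finset.sum_le_sum fun k' _ => Finset.sum_le_sum fun l' _ => ?_
  split_ifs
  · rw [norm_mul, RCLike.norm_conj, norm_mul, norm_mul]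
  · rw [norm_zero]

end Pool.Agent.TorusL4
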