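import Pool.Agent.TorusL4.Final

/-! The trace inequality for densities with small high-frequency tails. -/

namespace Pool.Agent.TorusL4

open MeasureTheory

theorem int_trace (f : (Fin 3 → ℝ) → ℝ) (hf : IntegrableOn f cube)
    (s T : Finset (Fin 3 → ℤ)) (c : (Fin 3 → ℤ) → ℂ) (hT : ∀ k ∈ s, ∀ l ∈ s, k - l ∈ T) :
    ∫ x in cube, f x * ‖∑ k ∈ s, c k * ex k x‖ ^ 2 ≤
      (2 * Real.pi) ^ 3 * ∑ D ∈ T, ‖GG s c D‖ * ‖fc (fun x => (f x : ℂ)) (-D)‖ := by
  have hfc : Integrable (fun x => (f x : ℂ)) (volume.restrict cube) := hf.ofReal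
  have hfe : ∀ D : Fin 3 → ℤ, Integrable (fun x => (f x : ℂ) * ex D x)
      (volume.restrict cube) := by
    intro D
    refine hfc.mul_bdd (c := 1) (ex_cont D).aestronglyMeasurable ?_
    exact Filter.Eventually.of_forall fun x => (ex_norm D x).le
  have h1 : ((∫ x in cube, f x * ‖∑ k ∈ s, c k * ex k x‖ ^ 2 : ℝ) : ℂ) =
      ∑ D ∈ T, GG s c D * ∫ x in cube, (f x : ℂ) * ex D x := by
    rw [← integral_complex_ofReal]
    have h2 : ∀ x, ((f x * ‖∑ k ∈ s, c k * ex k x‖ ^ 2 : ℝ) : ℂ) =
        ∑ D ∈ T, GG s c D * ((f x : ℂ) * ex D x) := by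
      intro x
      rw [Complex.ofReal_mul, sq_eq_sum s T c hT x, Finset.mul_sum]
      refine Finset.sum_congr rfl fun D _ => ?_
      ring
    simp_rw [h2]
    rw [integral_finsetSum _ (fun D _ => (hfe D).const_mul _)]
    refine Finset.sum_congr rfl fun D _ => ?_
    rw [integral_const_mul]
  have h3 : ∫ x in cube, f x * ‖∑ k ∈ s, c k * ex k x‖ ^ 2 ≤
      ‖((∫ x in cube, f x * ‖∑ k ∈ s, c k * ex k x‖ ^ 2 : ℝ) : ℂ)‖ := by
    rw [Complex.norm_real]; exact le_abs_self _
  refine le_trans h3 ?_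
  rw [h1, Finset.mul_sum]
  refine le_trans (norm_sum_le _ _) ?_
  refine Finset.sum_le_sum fun D _ => ?_
  rw [norm_mul]
  unfold fc
  rw [neg_neg, norm_mul, Complex.norm_real, Real.norm_of_nonneg (by positivity)]
  have h4 : ((2 * Real.pi) ^ 3 : ℝ) ≠ 0 := by positivity
  apply le_of_eq
  field_simp

theorem cs_part (T : Finset (Fin 3 → ℤ)) (g h : (Fin 3 → ℤ) → ℝ) {a b : ℝ}
    (ha : ∑ D ∈ T, g D ^ 2 ≤ a) (hb : ∑ D ∈ T, h D ^ 2 ≤ b) :
    ∑ D ∈ T, g D * h D ≤ Real.sqrt a * Real.sqrt b := by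
  refine le_trans (Real.sum_mul_le_sqrt_mul_sqrt T g h) ?_
  gcongr

/-- The trace inequality. -/
theorem trace (f : (Fin 3 → ℝ) → ℝ) (hf : IntegrableOn f cube) (B : ℝ)
    (hB : ∀ R : ℝ, 2 ≤ R → ∀ F : Finset (Fin 3 → ℤ),
      (∀ h ∈ F, R ^ 2 < ((∑ i, h i ^ 2 : ℤ) : ℝ)) →
      ∑ h ∈ F, ‖fc (fun x => (f x : ℂ)) h‖ ^ 2 ≤ B / Real.log R) :
    ∃ C : ℝ, ∀ (n : ℕ) (u : (Fin 3 → ℝ) → ℂ), IsEigen n u →
      ∫ x in cube, f x * ‖u x‖ ^ 2 ≤ C * ∫ x in cube, ‖u x‖ ^ 2 := by
  classical
  let g : (Fin 3 → ℤ) → ℝ := fun h => ‖fc (fun x => (f x : ℂ)) h‖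
  have hg0 : ∀ h, 0 ≤ g h := fun h => norm_nonneg _
  have hl2 : 0 < Real.log 2 := Real.log_pos (by norm_num)
  have hB0 : 0 ≤ B := by
    have h1 := hB 2 le_rfl ∅ (by simp)
    rw [Finset.sum_empty] at h1
    by_contra h2
    push Not at h2
    have := div_neg_of_neg_of_pos h2 hl2
    linarith
  set A : ℝ := ∑ h ∈ Finset.Icc (fun _ => -2 : Fin 3 → ℤ) (fun _ => 2), g h ^ 2
    + B / Real.log 2 with hA
  have hA0 : 0 ≤ A := add_nonneg (Finset.sum_nonneg fun _ _ => sq_nonneg _)
    (div_nonneg hB0 hl2.le)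
  have hall : ∀ F : Finset (Fin 3 → ℤ), ∑ h ∈ F, g h ^ 2 ≤ A := by
    intro F
    rw [← Finset.sum_filter_add_sum_filter_not F
      (fun h => ((∑ i, h i ^ 2 : ℤ) : ℝ) ≤ 2 ^ 2)]
    refine add_le_add ?_ ?_
    · refine Finset.sum_le_sum_of_subset_of_nonneg ?_ fun _ _ _ => sq_nonneg _
      intro h hh
      have h1 := (Finset.mem_filter.mp hh).2
      have h2 : ∑ i, h i ^ 2 ≤ (4 : ℤ) := by
        have : ((∑ i, h i ^ 2 : ℤ) : ℝ) ≤ ((4 : ℤ) : ℝ) := by push_cast at h1 ⊢; linarith
        exact_mod_cast this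
      have h3 : ∀ i, |h i| ≤ 2 := by
        intro i
        have h4 : h i ^ 2 ≤ ∑ i, h i ^ 2 :=
          Finset.single_le_sum (f := fun i => h i ^ 2) (fun _ _ => sq_nonneg _)
            (Finset.mem_univ i)
        exact abs_le_of_sq_le_sq (by linarith) (by norm_num)
      rw [Finset.mem_Icc, Pi.le_def, Pi.le_def]
      exact ⟨fun i => (abs_le.mp (h3 i)).1, fun i => (abs_le.mp (h3 i)).2⟩
    · refine hB 2 le_rfl _ ?_
      intro h hh
      have h1 := (Finset.mem_filter.mp hh).2
      exact not_le.mp h1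
  have hneg : ∀ F : Finset (Fin 3 → ℤ), ∑ D ∈ F, g (-D) ^ 2 = ∑ D ∈ F.image (fun D => -D), g D ^ 2 := by
    intro F
    rw [Finset.sum_image (fun _ _ _ _ h => neg_injective h)]
  set I := ∫ x in cube, |f x| with hI
  have hI0 : 0 ≤ I := integral_nonneg fun x => abs_nonneg _
  refine ⟨2 * Real.sqrt (K0 * A) + Real.sqrt (8 * K0 * B) + I, ?_⟩
  rintro n u ⟨s, c, hs, hu⟩
  have hu' : u = fun x => ∑ k ∈ s, c k * ex k x := funext hu
  rw [hu']
  dsimp only
  have hK := K0_pos
  rcases Nat.eq_zero_or_pos n with hn | hn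
  · -- constants
    subst hn
    have h0 : ∀ k ∈ s, k = 0 := by
      intro k hk
      have h1 := hs k hk
      rw [Nat.cast_zero, Fin.sum_univ_three] at h1
      have a0 := sq_nonneg (k 0)
      have a1 := sq_nonneg (k 1)
      have a2 := sq_nonneg (k 2)
      have b0 : k 0 = 0 := pow_eq_zero_iff (two_ne_zero) |>.mp (by linarith)
      have b1 : k 1 = 0 := pow_eq_zero_iff (two_ne_zero) |>.mp (by linarith)
      have b2 : k 2 = 0 := pow_eq_zero_iff (two_ne_zero) |>.mp (by linarith)
      ext i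
      fin_cases i
      · exact b0
      · exact b1
      · exact b2
    have h1 : ∀ x, ∑ k ∈ s, c k * ex k x = ∑ k ∈ s, c k := by
      intro x
      refine Finset.sum_congr rfl fun k hk => ?_
      rw [h0 k hk, ex_zero, mul_one]
    simp_rw [h1]
    generalize ∑ k ∈ s, c k = z
    rw [integral_mul_const]
    have h2 : ∫ _ in cube, ‖z‖ ^ 2 = (2 * Real.pi) ^ 3 * ‖z‖ ^ 2 := by
      have := int_L2 {0} (fun _ => z)
      simp only [Finset.sum_singleton, ex_zero, mul_one] at this
      exact this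
    rw [h2]
    have h3 : ∫ x in cube, f x ≤ I := by
      rw [hI]
      exact integral_mono hf hf.abs (fun x => le_abs_self _)
    have h4 := two_pi_cube
    have h5 : 0 ≤ 2 * Real.sqrt (K0 * A) + Real.sqrt (8 * K0 * B) := by positivity
    have hz : 0 ≤ ‖z‖ ^ 2 := sq_nonneg _
    calc (∫ x in cube, f x) * ‖z‖ ^ 2 ≤ I * ‖z‖ ^ 2 := mul_le_mul_of_nonneg_right h3 hz
      _ ≤ I * ((2 * Real.pi) ^ 3 * ‖z‖ ^ 2) := by
          refine mul_le_mul_of_nonneg_left ?_ hI0
          nlinarith
      _ ≤ _ := by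
          refine mul_le_mul_of_nonneg_right ?_ (by positivity)
          linarith
  · -- positive eigenvalue
    have hn1 : (1 : ℝ) ≤ n := by exact_mod_cast hn
    set w : ℝ := ∑ k ∈ s, ‖c k‖ ^ 2 with hw
    have hw0 : 0 ≤ w := Finset.sum_nonneg fun _ _ => sq_nonneg _
    set T := (s ×ˢ s).image (fun p => p.1 - p.2) with hT
    have hT' : ∀ k ∈ s, ∀ l ∈ s, k - l ∈ T := fun k hk l hl =>
      (Finset.mem_image.mpr ⟨(k, l), Finset.mem_product.mpr ⟨hk, hl⟩, rfl⟩)
    have hmain := int_trace f hf s T c hT'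
    have hTle : ∀ D ∈ T, ((∑ i, D i ^ 2 : ℤ) : ℝ) ≤ 4 * n := by
      intro D hD
      obtain ⟨⟨k, l⟩, hp, rfl⟩ := Finset.mem_image.mp hD
      obtain ⟨hk, hl⟩ := Finset.mem_product.mp hp
      exact dist_le n k l (hs k hk) (hs l hl)
    have hfull : ∀ F ⊆ T, ∑ D ∈ F, ‖GG s c D‖ ^ 2 ≤ K0 * (1 + Real.log n) * w ^ 2 := by
      intro F hF
      have h1 := low_freq n hn s c hs (2 * Real.sqrt n) (by
        have : 1 ≤ Real.sqrt n := Real.one_le_sqrt.mpr hn1
        linarith) F (by
        intro h hh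
        rw [mul_pow, Real.sq_sqrt (by linarith)]
        have := hTle h (hF hh)
        linarith)
      have h2 : (2 * Real.sqrt n) ^ 2 = 4 * (n : ℝ) := by
        rw [mul_pow, Real.sq_sqrt (by linarith)]; ring
      rw [h2, Lam_full hn1] at h1
      exact h1
    have hsqw : ∀ a : ℝ, 0 ≤ a → Real.sqrt (a * w ^ 2) = Real.sqrt a * w := by
      intro a ha
      rw [Real.sqrt_mul ha, Real.sqrt_sq hw0]
    have key : ∑ D ∈ T, ‖GG s c D‖ * g (-D) ≤
        (2 * Real.sqrt (K0 * A) + Real.sqrt (8 * K0 * B)) * w := by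
      by_cases hn16 : (n : ℝ) < 16
      · have h1 : Real.log n ≤ 3 := by
          have h2 : Real.log n ≤ Real.log 16 := Real.log_le_log (by linarith) hn16.le
          have h3 : Real.log 16 = 4 * Real.log 2 := by
            rw [show (16 : ℝ) = 2 ^ 4 by norm_num, Real.log_pow]; push_cast; ring
          have := Real.log_two_lt_d9
          linarith
        have h2 : ∑ D ∈ T, ‖GG s c D‖ ^ 2 ≤ 4 * K0 * w ^ 2 := by
          refine le_trans (hfull T (Finset.Subset.refl _)) ?_
          have : 0 ≤ w ^ 2 := sq_nonneg _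
          refine mul_le_mul_of_nonneg_right ?_ this
          nlinarith
        have h3 := cs_part T (fun D => ‖GG s c D‖) (fun D => g (-D)) h2
          (show ∑ D ∈ T, g (-D) ^ 2 ≤ A by rw [hneg]; exact hall _)
        refine le_trans h3 ?_
        rw [hsqw _ (by positivity)]
        have h4 : Real.sqrt (4 * K0) * Real.sqrt A = 2 * Real.sqrt (K0 * A) := by
          rw [← Real.sqrt_mul (by positivity), show 4 * K0 * A = 2 ^ 2 * (K0 * A) by ring,
            Real.sqrt_mul (by positivity), Real.sqrt_sq (by norm_num)]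
        have h5 : 0 ≤ Real.sqrt (8 * K0 * B) * w := by positivity
        calc Real.sqrt (4 * K0) * w * Real.sqrt A = (Real.sqrt (4 * K0) * Real.sqrt A) * w := by
              ring
          _ = 2 * Real.sqrt (K0 * A) * w := by rw [h4]
          _ ≤ (2 * Real.sqrt (K0 * A) + Real.sqrt (8 * K0 * B)) * w := by
              rw [add_mul]; linarith
      · push Not at hn16
        -- R = n^{1/4}
        have hlogn : 2 ≤ Real.log n := by
          have h2 : Real.log 16 ≤ Real.log n := Real.log_le_log (by norm_num) hn16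
          have h3 : Real.log 16 = 4 * Real.log 2 := by
            rw [show (16 : ℝ) = 2 ^ 4 by norm_num, Real.log_pow]; push_cast; ring
          have := Real.log_two_gt_d9
          linarith
        set R : ℝ := Real.sqrt (Real.sqrt n) with hR
        have hR2 : R ^ 2 = Real.sqrt n := Real.sq_sqrt (Real.sqrt_nonneg _)
        have hsn : 4 ≤ Real.sqrt n := by
          rw [show (4 : ℝ) = Real.sqrt (4 ^ 2) by rw [Real.sqrt_sq (by norm_num)]]
          apply Real.sqrt_le_sqrt
          refine le_trans (by norm_num) hn16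
        have hR2' : 2 ≤ R := by
          rw [hR, show (2 : ℝ) = Real.sqrt (2 ^ 2) by rw [Real.sqrt_sq (by norm_num)]]
          apply Real.sqrt_le_sqrt
          refine le_trans (by norm_num) hsn
        have hlogR : Real.log R = Real.log n / 4 := by
          rw [hR, Real.log_sqrt (Real.sqrt_nonneg _), Real.log_sqrt (by linarith)]
          ring
        rw [← Finset.sum_filter_add_sum_filter_not T
          (fun h => ((∑ i, h i ^ 2 : ℤ) : ℝ) ≤ R ^ 2), add_mul]
        refine add_le_add ?_ ?_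
        · have h1 := low_freq n hn s c hs R (by linarith)
            (T.filter (fun h => ((∑ i, h i ^ 2 : ℤ) : ℝ) ≤ R ^ 2))
            (fun h hh => (Finset.mem_filter.mp hh).2)
          have h2 : Lam n (R ^ 2) ≤ 2 := by
            unfold Lam
            rw [hR2]
            have e1 : Real.log (n / Real.sqrt n) = Real.log n / 2 := by
              rw [Real.div_sqrt, Real.log_sqrt (by linarith)]
            rw [e1, max_eq_right (by linarith), div_le_iff₀ (by linarith)]
            linarith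
          have h3 : ∑ D ∈ T.filter (fun h => ((∑ i, h i ^ 2 : ℤ) : ℝ) ≤ R ^ 2),
              ‖GG s c D‖ ^ 2 ≤ 4 * K0 * w ^ 2 := by
            refine le_trans h1 ?_
            refine mul_le_mul_of_nonneg_right ?_ (sq_nonneg _)
            nlinarith
          have h4 := cs_part _ (fun D => ‖GG s c D‖) (fun D => g (-D)) h3
            (show ∑ D ∈ T.filter (fun h => ((∑ i, h i ^ 2 : ℤ) : ℝ) ≤ R ^ 2),
              g (-D) ^ 2 ≤ A by rw [hneg]; exact hall _)
          refine le_trans h4 ?_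
          rw [hsqw _ (by positivity)]
          apply le_of_eq
          have h5 : Real.sqrt (4 * K0) * Real.sqrt A = 2 * Real.sqrt (K0 * A) := by
            rw [← Real.sqrt_mul (by positivity), show 4 * K0 * A = 2 ^ 2 * (K0 * A) by ring,
              Real.sqrt_mul (by positivity), Real.sqrt_sq (by norm_num)]
          rw [← h5]; ring
        · have h1 := hfull (T.filter (fun h => ¬ ((∑ i, h i ^ 2 : ℤ) : ℝ) ≤ R ^ 2))
            (Finset.filter_subset _ _)
          have h2 : ∑ D ∈ T.filter (fun h => ¬ ((∑ i, h i ^ 2 : ℤ) : ℝ) ≤ R ^ 2),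
              g (-D) ^ 2 ≤ B / Real.log R := by
            rw [hneg]
            refine hB R hR2' _ ?_
            intro h hh
            obtain ⟨D, hD, rfl⟩ := Finset.mem_image.mp hh
            have h3 := (Finset.mem_filter.mp hD).2
            push Not at h3
            simpa using h3
          have h3 := cs_part _ (fun D => ‖GG s c D‖) (fun D => g (-D)) h1 h2
          refine le_trans h3 ?_
          have e1 : 0 ≤ K0 * (1 + Real.log n) := by
            apply mul_nonneg hK.le; linarith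
          have e0 : 0 < Real.log R := by rw [hlogR]; linarith
          rw [hsqw _ e1]
          have h4 : Real.sqrt (K0 * (1 + Real.log n)) * Real.sqrt (B / Real.log R) ≤
              Real.sqrt (8 * K0 * B) := by
            rw [← Real.sqrt_mul e1]
            apply Real.sqrt_le_sqrt
            rw [← mul_div_assoc, div_le_iff₀ e0, hlogR]
            have : 0 ≤ K0 * B := mul_nonneg hK.le hB0
            nlinarith
          calc Real.sqrt (K0 * (1 + Real.log n)) * w * Real.sqrt (B / Real.log R)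
              = (Real.sqrt (K0 * (1 + Real.log n)) * Real.sqrt (B / Real.log R)) * w := by ring
            _ ≤ _ := mul_le_mul_of_nonneg_right h4 hw0
    refine le_trans hmain ?_
    rw [int_L2, ← hw]
    have h4 := two_pi_cube
    calc (2 * Real.pi) ^ 3 * ∑ D ∈ T, ‖GG s c D‖ * g (-D)
        ≤ (2 * Real.pi) ^ 3 * ((2 * Real.sqrt (K0 * A) + Real.sqrt (8 * K0 * B)) * w) :=
          mul_le_mul_of_nonneg_left key (by positivity)
      _ = (2 * Real.sqrt (K0 * A) + Real.sqrt (8 * K0 * B)) * ((2 * Real.pi) ^ 3 * w) := by ring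
      _ ≤ _ := by
          refine mul_le_mul_of_nonneg_right ?_ (by positivity)
          linarith

end Pool.Agent.TorusL4
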