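import Pool.Agent.TorusL4.Classes

/-! The bound for low frequencies of the square of an eigenfunction. -/

namespace Pool.Agent.TorusL4

open MeasureTheory

/-- The loss factor. -/
noncomputable def Lam (n q : ℝ) : ℝ := (1 + Real.log n) / (1 + max 0 (Real.log (n / q)))

theorem Lam_nonneg {n : ℝ} (hn : 1 ≤ n) (q : ℝ) : 0 ≤ Lam n q := by
  unfold Lam
  have h1 := Real.log_nonneg hn
  have h2 : 0 ≤ max 0 (Real.log (n / q)) := le_max_left _ _
  positivity

theorem BB_le {n q : ℝ} (hn : 1 ≤ n) (hq : 1 ≤ q) : BB n q ≤ 20 * Lam n q := by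
  have hln := Real.log_nonneg hn
  have hlq := Real.log_nonneg hq
  have hq0 : 0 < q := by linarith
  have hn0 : 0 < n := by linarith
  have h2 : 0.6931471803 < Real.log 2 := Real.log_two_gt_d9
  have h2' : Real.log 2 < 0.6931471808 := Real.log_two_lt_d9
  set L := max 0 (Real.log (n / q)) with hL
  have hL0 : 0 ≤ L := le_max_left _ _
  have hLn : L ≤ Real.log n := by
    apply max_le hln
    rw [Real.log_div hn0.ne' hq0.ne']
    linarith
  have hG : 1 + L ≤ Gam n q := by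
    unfold Gam
    rcases le_or_gt (Real.log (n / q)) 0 with h | h
    · have : L = 0 := max_eq_left h
      rw [this]
      exact le_trans (by linarith) (le_max_left _ _)
    · have h3 : L = Real.log (n / q) := max_eq_right h.le
      refine le_trans ?_ (le_max_right _ _)
      have h4 : Real.log (n / q) ≤ Real.log (4 * n / (3 * q)) := by
        apply Real.log_le_log (by positivity)
        rw [div_le_div_iff₀ hq0 (by positivity)]
        nlinarith
      rw [h3]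
      linarith
  have hlog4 : Real.log (4 * n) = 2 * Real.log 2 + Real.log n := by
    rw [Real.log_mul (by norm_num) hn0.ne', show (4 : ℝ) = 2 ^ 2 by norm_num, Real.log_pow]
    push_cast; ring
  have hden : 0 < 1 + L := by linarith
  have e1 : 12 * Real.log (4 * n) / Gam n q ≤ 17 * (1 + Real.log n) / (1 + L) := by
    rw [hlog4]
    apply div_le_div₀ (by positivity) _ hden hG
    linarith
  have e2 : (3 : ℝ) ≤ 3 * (1 + Real.log n) / (1 + L) := by
    rw [le_div_iff₀ hden]; linarith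
  unfold BB Lam
  rw [← hL]
  have e3 : 20 * ((1 + Real.log n) / (1 + L)) =
      3 * (1 + Real.log n) / (1 + L) + 17 * (1 + Real.log n) / (1 + L) := by ring
  linarith

/-- The correlation coefficients of the coefficients. -/
noncomputable def GG (s : Finset (Fin 3 → ℤ)) (c : (Fin 3 → ℤ) → ℂ) (D : Fin 3 → ℤ) : ℂ :=
  ∑ k ∈ s, ∑ l ∈ s, if k - l = D then c k * (starRingEnd ℂ) (c l) else 0

theorem sq_eq_sum (s T : Finset (Fin 3 → ℤ)) (c : (Fin 3 → ℤ) → ℂ)
    (hT : ∀ k ∈ s, ∀ l ∈ s, k - l ∈ T) (x : Fin 3 → ℝ) :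
    ((‖∑ k ∈ s, c k * ex k x‖ ^ 2 : ℝ) : ℂ) = ∑ D ∈ T, GG s c D * ex D x := by
  have h1 : ((‖∑ i ∈ s, c i * ex i x‖ ^ 2 : ℝ) : ℂ) =
      (∑ i ∈ s, c i * ex i x) * (starRingEnd ℂ) (∑ i ∈ s, c i * ex i x) := by
    rw [Complex.mul_conj, Complex.normSq_eq_norm_sq]
  rw [h1, map_sum, Finset.sum_mul_sum]
  have h3 : ∑ D ∈ T, GG s c D * ex D x = ∑ k ∈ s, ∑ l ∈ s, ∑ D ∈ T,
      (if k - l = D then c k * (starRingEnd ℂ) (c l) * ex D x else 0) := by
    calc ∑ D ∈ T, GG s c D * ex D x = ∑ D ∈ T, ∑ k ∈ s, ∑ l ∈ s,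
          (if k - l = D then c k * (starRingEnd ℂ) (c l) * ex D x else 0) := by
          refine Finset.sum_congr rfl fun D _ => ?_
          unfold GG
          rw [Finset.sum_mul]
          refine Finset.sum_congr rfl fun k _ => ?_
          rw [Finset.sum_mul]
          refine Finset.sum_congr rfl fun l _ => ?_
          split_ifs <;> ring
      _ = ∑ k ∈ s, ∑ D ∈ T, ∑ l ∈ s,
          (if k - l = D then c k * (starRingEnd ℂ) (c l) * ex D x else 0) := Finset.sum_comm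
      _ = _ := Finset.sum_congr rfl fun k _ => Finset.sum_comm
  rw [h3]
  refine Finset.sum_congr rfl fun k hk => ?_
  refine Finset.sum_congr rfl fun l hl => ?_
  rw [Finset.sum_ite_eq, if_pos (hT k hk l hl), sub_eq_add_neg, ex_add, map_mul, ex_conj]
  ring

theorem bessel4 (s F : Finset (Fin 3 → ℤ)) (c : (Fin 3 → ℤ) → ℂ) :
    (2 * Real.pi) ^ 3 * ∑ D ∈ F, ‖GG s c D‖ ^ 2 ≤ ∫ x in cube, ‖∑ k ∈ s, c k * ex k x‖ ^ 4 := by
  classical
  set T := F ∪ (s ×ˢ s).image (fun p => p.1 - p.2) with hT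
  have hT' : ∀ k ∈ s, ∀ l ∈ s, k - l ∈ T := fun k hk l hl =>
    Finset.mem_union_right _ (Finset.mem_image.mpr ⟨(k, l), Finset.mem_product.mpr ⟨hk, hl⟩, rfl⟩)
  have h1 : ∀ x, ‖∑ k ∈ s, c k * ex k x‖ ^ 4 = ‖∑ D ∈ T, GG s c D * ex D x‖ ^ 2 := by
    intro x
    rw [← sq_eq_sum s T c hT' x, Complex.norm_real, Real.norm_of_nonneg (by positivity)]
    ring
  simp_rw [h1]
  rw [int_L2]
  refine mul_le_mul_of_nonneg_left ?_ (by positivity)
  exact Finset.sum_le_sum_of_subset_of_nonneg Finset.subset_union_left fun _ _ _ => sq_nonneg _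

/-- The part of the support in a cube of side `L` with corner `z`. -/
def sub (s : Finset (Fin 3 → ℤ)) (L : ℕ) (z : Fin 3 → ℤ) : Finset (Fin 3 → ℤ) :=
  s.filter (fun k => ∀ i, z i ≤ k i ∧ k i < z i + L)

/-- The number of cubes containing two points of difference `D`. -/
def wt (L : ℕ) (D : Fin 3 → ℤ) : ℕ := ∏ i, ((L : ℤ) - |D i|).toNat

theorem count_cubes (L : ℕ) (k l : Fin 3 → ℤ) (Z : Finset (Fin 3 → ℤ))
    (hZ : ∀ z : Fin 3 → ℤ, (∀ i, z i ≤ k i ∧ k i < z i + L) → z ∈ Z) :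
    (Z.filter (fun z => (∀ i, z i ≤ k i ∧ k i < z i + L) ∧
      (∀ i, z i ≤ l i ∧ l i < z i + L))).card = wt L (k - l) := by
  have h1 : Z.filter (fun z => (∀ i, z i ≤ k i ∧ k i < z i + L) ∧
      (∀ i, z i ≤ l i ∧ l i < z i + L)) =
      Finset.Icc (fun i => max (k i) (l i) - L + 1) (fun i => min (k i) (l i)) := by
    ext z
    rw [Finset.mem_filter, Finset.mem_Icc, Pi.le_def, Pi.le_def]
    constructor
    · rintro ⟨_, h1, h2⟩
      refine ⟨fun i => ?_, fun i => ?_⟩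
      · have := h1 i; have := h2 i
        rcases max_cases (k i) (l i) with h | h <;> omega
      · exact le_min (h1 i).1 (h2 i).1
    · rintro ⟨h1, h2⟩
      have h3 : ∀ i, z i ≤ k i ∧ k i < z i + L := by
        intro i
        have a := h1 i
        have b := h2 i
        have c1 := le_max_left (k i) (l i)
        have c2 := min_le_left (k i) (l i)
        constructor <;> omega
      have h4 : ∀ i, z i ≤ l i ∧ l i < z i + L := by
        intro i
        have a := h1 i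
        have b := h2 i
        have c1 := le_max_right (k i) (l i)
        have c2 := min_le_right (k i) (l i)
        constructor <;> omega
      exact ⟨hZ z h3, h3, h4⟩
  rw [h1, Pi.card_Icc]
  unfold wt
  refine Finset.prod_congr rfl fun i _ => ?_
  rw [Int.card_Icc, Pi.sub_apply]
  congr 1
  rcases max_cases (k i) (l i) with ⟨h, h'⟩ | ⟨h, h'⟩ <;>
    rcases min_cases (k i) (l i) with ⟨g, g'⟩ | ⟨g, g'⟩ <;>
    rcases abs_cases (k i - l i) with ⟨e, e'⟩ | ⟨e, e'⟩ <;> omega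

theorem wt_ge (M : ℕ) (D : Fin 3 → ℤ) (hD : ∀ i, |D i| ≤ M) : M ^ 3 ≤ wt (2 * M) D := by
  unfold wt
  have h1 : ∀ i ∈ (Finset.univ : Finset (Fin 3)), M ≤ (((2 * M : ℕ) : ℤ) - |D i|).toNat := by
    intro i _
    have := hD i
    push_cast
    omega
  calc M ^ 3 = ∏ _i : Fin 3, M := by rw [Finset.prod_const, Finset.card_univ, Fintype.card_fin]
    _ ≤ _ := Finset.prod_le_prod' h1

theorem wt_zero (L : ℕ) : wt L 0 = L ^ 3 := by
  unfold wt
  simp

/-- All corners of cubes that meet the support. -/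
noncomputable def corners (s : Finset (Fin 3 → ℤ)) (L : ℕ) : Finset (Fin 3 → ℤ) :=
  s.biUnion fun k => Finset.Icc (fun i => k i - L) k

theorem mem_corners {s : Finset (Fin 3 → ℤ)} {L : ℕ} {k : Fin 3 → ℤ} (hk : k ∈ s)
    (z : Fin 3 → ℤ) (hz : ∀ i, z i ≤ k i ∧ k i < z i + L) : z ∈ corners s L := by
  unfold corners
  rw [Finset.mem_biUnion]
  refine ⟨k, hk, ?_⟩
  rw [Finset.mem_Icc, Pi.le_def, Pi.le_def]
  exact ⟨fun i => by have := (hz i).2; omega, fun i => (hz i).1⟩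

theorem sum_GG_sub (s : Finset (Fin 3 → ℤ)) (c : (Fin 3 → ℤ) → ℂ) (L : ℕ) (D : Fin 3 → ℤ) :
    ∑ z ∈ corners s L, GG (sub s L z) c D = (wt L D : ℂ) * GG s c D := by
  have h1 : ∀ z, GG (sub s L z) c D = ∑ k ∈ s, ∑ l ∈ s,
      if ((∀ i, z i ≤ k i ∧ k i < z i + L) ∧ (∀ i, z i ≤ l i ∧ l i < z i + L)) then
        (if k - l = D then c k * (starRingEnd ℂ) (c l) else 0) else 0 := by
    intro z
    unfold GG sub
    rw [Finset.sum_filter]
    refine Finset.sum_congr rfl fun k _ => ?_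
    by_cases hk : ∀ i, z i ≤ k i ∧ k i < z i + L
    · rw [if_pos hk, Finset.sum_filter]
      refine Finset.sum_congr rfl fun l _ => ?_
      by_cases hl : ∀ i, z i ≤ l i ∧ l i < z i + L
      · rw [if_pos hl, if_pos (And.intro hk hl)]
      · rw [if_neg hl, if_neg (fun h => hl h.2)]
    · rw [if_neg hk]
      symm
      refine Finset.sum_eq_zero fun l _ => ?_
      rw [if_neg (fun h => hk h.1)]
  simp_rw [h1]
  rw [Finset.sum_comm]
  unfold GG
  rw [Finset.mul_sum]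
  refine Finset.sum_congr rfl fun k hk => ?_
  rw [Finset.sum_comm, Finset.mul_sum]
  refine Finset.sum_congr rfl fun l _ => ?_
  rw [← Finset.sum_filter, Finset.sum_const, count_cubes L k l (corners s L)
    (fun z hz => mem_corners hk z hz), nsmul_eq_mul]
  split_ifs with hD
  · rw [hD]
  · ring

theorem sum_norm_sub (s : Finset (Fin 3 → ℤ)) (c : (Fin 3 → ℤ) → ℂ) (L : ℕ) :
    ∑ z ∈ corners s L, ∑ k ∈ sub s L z, ‖c k‖ ^ 2 = (L : ℝ) ^ 3 * ∑ k ∈ s, ‖c k‖ ^ 2 := by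
  unfold sub
  simp_rw [Finset.sum_filter]
  rw [Finset.sum_comm, Finset.mul_sum]
  refine Finset.sum_congr rfl fun k hk => ?_
  rw [← Finset.sum_filter, Finset.sum_const, nsmul_eq_mul]
  have h1 := count_cubes L k k (corners s L) (fun z hz => mem_corners hk z hz)
  simp only [and_self] at h1
  rw [h1, sub_self, wt_zero]
  push_cast; ring

/-- The bound for the low frequencies of `|u|^2`. -/
theorem trunc (n : ℕ) (hn : 0 < n) (s : Finset (Fin 3 → ℤ)) (c : (Fin 3 → ℤ) → ℂ)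
    (hs : ∀ x ∈ s, ∑ i, x i ^ 2 = (n : ℤ)) (M : ℕ) (hM : 0 < M) (F : Finset (Fin 3 → ℤ))
    (hF : ∀ D ∈ F, ∀ i, |D i| ≤ M) :
    ∑ D ∈ F, ‖GG s c D‖ ^ 2 ≤
      64 * (512 ^ 3 * 16 * BB n (12 * M ^ 2)) * (∑ k ∈ s, ‖c k‖ ^ 2) ^ 2 := by
  classical
  have hMR : (0 : ℝ) < M := by exact_mod_cast hM
  have hn1 : (1 : ℝ) ≤ n := by exact_mod_cast hn
  have hBB := BB_nonneg hn1 (12 * (M : ℝ) ^ 2)
  set K : ℝ := 512 ^ 3 * 16 * BB n (12 * M ^ 2) with hK
  have hK0 : 0 ≤ K := by positivity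
  set Z := corners s (2 * M) with hZ
  let W : (Fin 3 → ℤ) → ℝ := fun z => ∑ k ∈ sub s (2 * M) z, ‖c k‖ ^ 2
  have hW0 : ∀ z, 0 ≤ W z := fun z => Finset.sum_nonneg fun _ _ => sq_nonneg _
  have hWsum : ∑ z ∈ Z, W z = 8 * M ^ 3 * ∑ k ∈ s, ‖c k‖ ^ 2 := by
    have := sum_norm_sub s c (2 * M)
    rw [this]
    push_cast; ring
  -- bound for one cube
  have hcube : ∀ z, ∑ D ∈ F, ‖GG (sub s (2 * M) z) c D‖ ^ 2 ≤ K * W z ^ 2 := by
    intro z
    have h1 := bessel4 (sub s (2 * M) z) F c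
    have h2 := L4_cap n hn (sub s (2 * M) z) c (fun x hx => hs x (Finset.mem_filter.mp hx).1)
      (12 * (M : ℝ) ^ 2) (by positivity) (by
        intro x hx y hy
        have hx' := (Finset.mem_filter.mp hx).2
        have hy' := (Finset.mem_filter.mp hy).2
        have h3 : ∀ i, (x i - y i) ^ 2 ≤ 4 * (M : ℤ) ^ 2 := by
          intro i
          have a := hx' i
          have b := hy' i
          push_cast at a b
          have h4 : |x i - y i| ≤ 2 * M := by
            rw [abs_le]; constructor <;> omega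
          have h5 := abs_nonneg (x i - y i)
          calc (x i - y i) ^ 2 = |x i - y i| ^ 2 := (sq_abs _).symm
            _ ≤ (2 * (M : ℤ)) ^ 2 := pow_le_pow_left₀ h5 h4 2
            _ = _ := by ring
        have h4 : ∑ i, (x i - y i) ^ 2 ≤ 12 * (M : ℤ) ^ 2 := by
          rw [Fin.sum_univ_three]
          have := h3 0; have := h3 1; have := h3 2
          linarith
        exact_mod_cast h4)
    have h3 := le_trans h1 h2
    have h4 : (0 : ℝ) < (2 * Real.pi) ^ 3 := by positivity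
    exact le_of_mul_le_mul_left h3 h4
  have hzero : ∀ z, W z = 0 → ∀ D ∈ F, ‖GG (sub s (2 * M) z) c D‖ ^ 2 = 0 := by
    intro z hz D hD
    have h1 := hcube z
    rw [hz] at h1
    have h2 : ‖GG (sub s (2 * M) z) c D‖ ^ 2 ≤ ∑ D ∈ F, ‖GG (sub s (2 * M) z) c D‖ ^ 2 :=
      Finset.single_le_sum (f := fun D => ‖GG (sub s (2 * M) z) c D‖ ^ 2)
        (fun _ _ => sq_nonneg _) hD
    have h3 : (0 : ℝ) ≤ ‖GG (sub s (2 * M) z) c D‖ ^ 2 := sq_nonneg _
    nlinarith
  -- Cauchy-Schwarz for one difference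
  have hone : ∀ D ∈ F, (M : ℝ) ^ 6 * ‖GG s c D‖ ^ 2 ≤
      (∑ z ∈ Z, W z) * ∑ z ∈ Z, ‖GG (sub s (2 * M) z) c D‖ ^ 2 / W z := by
    intro D hD
    have h1 : ((M : ℝ) ^ 3) ≤ (wt (2 * M) D : ℝ) := by exact_mod_cast wt_ge M D (hF D hD)
    have h2 : (wt (2 * M) D : ℝ) * ‖GG s c D‖ = ‖∑ z ∈ Z, GG (sub s (2 * M) z) c D‖ := by
      rw [sum_GG_sub, norm_mul, Complex.norm_natCast]
    have h3 : (∑ z ∈ Z, ‖GG (sub s (2 * M) z) c D‖) ^ 2 ≤
        (∑ z ∈ Z, W z) * ∑ z ∈ Z, ‖GG (sub s (2 * M) z) c D‖ ^ 2 / W z := by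
      refine Finset.sum_sq_le_sum_mul_sum_of_sq_le_mul Z (fun z _ => hW0 z)
        (fun z _ => div_nonneg (sq_nonneg _) (hW0 z)) (fun z _ => le_of_eq ?_)
      rcases eq_or_ne (W z) 0 with h | h
      · rw [hzero z h D hD, h]; simp
      · field_simp
    calc (M : ℝ) ^ 6 * ‖GG s c D‖ ^ 2 = ((M : ℝ) ^ 3 * ‖GG s c D‖) ^ 2 := by ring
      _ ≤ ((wt (2 * M) D : ℝ) * ‖GG s c D‖) ^ 2 := by
          apply pow_le_pow_left₀ (by positivity)
          exact mul_le_mul_of_nonneg_right h1 (norm_nonneg _)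
      _ = ‖∑ z ∈ Z, GG (sub s (2 * M) z) c D‖ ^ 2 := by rw [h2]
      _ ≤ (∑ z ∈ Z, ‖GG (sub s (2 * M) z) c D‖) ^ 2 :=
          pow_le_pow_left₀ (norm_nonneg _) (norm_sum_le _ _) 2
      _ ≤ _ := h3
  have htot : (M : ℝ) ^ 6 * ∑ D ∈ F, ‖GG s c D‖ ^ 2 ≤
      (∑ z ∈ Z, W z) * (K * ∑ z ∈ Z, W z) := by
    rw [Finset.mul_sum]
    refine le_trans (Finset.sum_le_sum hone) ?_
    rw [← Finset.mul_sum]
    refine mul_le_mul_of_nonneg_left ?_ (Finset.sum_nonneg fun z _ => hW0 z)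
    rw [Finset.sum_comm, Finset.mul_sum]
    refine Finset.sum_le_sum fun z _ => ?_
    rw [← Finset.sum_div]
    rcases eq_or_ne (W z) 0 with h | h
    · rw [h]; simp
    · have hpos : 0 < W z := lt_of_le_of_ne (hW0 z) (Ne.symm h)
      rw [div_le_iff₀ hpos]
      refine le_trans (hcube z) (le_of_eq (by ring))
  rw [hWsum] at htot
  have hM6 : (0 : ℝ) < (M : ℝ) ^ 6 := by positivity
  refine le_of_mul_le_mul_left (le_trans htot (le_of_eq ?_)) hM6
  ring

end Pool.Agent.TorusL4
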