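import Pool.Agent.TorusL4.Energy

/-! The symmetrised upper bound of the weighted energy, without any separation hypothesis. -/

namespace Pool.Agent.TorusL4

open Quaternion

/-- The total gain of a box. -/
noncomputable def gain (x y z : ℍ[ℤ]) : ℝ :=
  FF (x + z) (x + y) + FF (y + z) (x + y) + FF (y + z) (x + z)

theorem XX_nonneg {a : ℍ[ℤ] → ℝ} (ha : ∀ x, 0 ≤ a x) (x y z : ℍ[ℤ]) : 0 ≤ XX a x y z := by
  unfold XX
  split_ifs
  · exact le_rfl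
  · exact mul_nonneg (mul_nonneg (mul_nonneg (ha _) (ha _)) (ha _)) (ha _)

/-- The sum over all boxes of the weight times the total gain. -/
theorem upper_sym (S : Finset ℍ[ℤ]) (n : ℤ) (hn : 0 < n) (a : ℍ[ℤ] → ℝ)
    (hS0 : ∀ x ∈ S, x.re = 0) (hSn : ∀ x ∈ S, normSq x = n)
    (haS : ∀ x, x ∉ S → a x = 0) (hneg : ∀ x, a (-x) = a x) :
    ∑ x ∈ S, ∑ y ∈ S, ∑ z ∈ S, XX a x y z * gain x y z ≤
      12 * Real.log (4 * n) * (∑ x ∈ S, a x ^ 2) ^ 2 := by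
  have h2 := upper S n hn a hS0 hSn haS hneg
  have h3 : ∑ x ∈ S, ∑ y ∈ S, ∑ z ∈ S, XX a x y z * FF (y + z) (x + y) =
      ∑ x ∈ S, ∑ y ∈ S, ∑ z ∈ S, XX a x y z * FF (x + z) (x + y) := by
    rw [Finset.sum_comm]
    refine Finset.sum_congr rfl fun x _ => Finset.sum_congr rfl fun y _ =>
      Finset.sum_congr rfl fun z _ => ?_
    rw [XX_swap12, add_comm y x]
  have h4 : ∑ x ∈ S, ∑ y ∈ S, ∑ z ∈ S, XX a x y z * FF (y + z) (x + z) =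
      ∑ x ∈ S, ∑ y ∈ S, ∑ z ∈ S, XX a x y z * FF (x + z) (x + y) := by
    have e : ∀ f : ℍ[ℤ] → ℍ[ℤ] → ℍ[ℤ] → ℝ, ∑ x ∈ S, ∑ y ∈ S, ∑ z ∈ S, f x y z =
        ∑ x ∈ S, ∑ y ∈ S, ∑ z ∈ S, f z y x := by
      intro f
      calc ∑ x ∈ S, ∑ y ∈ S, ∑ z ∈ S, f x y z = ∑ y ∈ S, ∑ x ∈ S, ∑ z ∈ S, f x y z :=
            Finset.sum_comm
        _ = ∑ y ∈ S, ∑ z ∈ S, ∑ x ∈ S, f x y z :=
            Finset.sum_congr rfl fun y _ => Finset.sum_comm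
        _ = ∑ z ∈ S, ∑ y ∈ S, ∑ x ∈ S, f x y z := Finset.sum_comm
    rw [e]
    refine Finset.sum_congr rfl fun x _ => Finset.sum_congr rfl fun y _ =>
      Finset.sum_congr rfl fun z _ => ?_
    rw [XX_swap13, add_comm y x, add_comm z x, FF_symm]
  have h5 : ∑ x ∈ S, ∑ y ∈ S, ∑ z ∈ S, XX a x y z * gain x y z =
      3 * ∑ x ∈ S, ∑ y ∈ S, ∑ z ∈ S, XX a x y z * FF (x + z) (x + y) := by
    unfold gain
    simp only [mul_add, Finset.sum_add_distrib]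
    rw [h3, h4]
    ring
  rw [h5]
  linarith

end Pool.Agent.TorusL4
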